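import Mathlib
import Pool.Agent.Lib.MP_89bcae_ag.Sup.A04

/-!
# The abstract argument with exponents in any finite vector space over `ℤ/ℓ`

`exists_eigen_sub` (`Sup/A04.lean`) with the target `ι → ZMod ℓ` of the exponents replaced by any
finite `ZMod ℓ`-module `V`; it follows by choosing a basis of `V`.
-/

namespace Pool.Agent.Lib.MP_89bcae_ag.Sup.Lns

theorem exists_eigen_sub {ℓ : ℕ} [Fact ℓ.Prime] {C G V : Type*} [AddCommGroup C] [Group G]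
    [DistribMulAction G C] [AddCommGroup V] [Module (ZMod ℓ) V] [Finite V]
    (W T : AddSubgroup C) (Z : C →+ C) (hTW : T ≤ W)
    (hZW : ∀ c ∈ W, Z c ∈ W) (hZT : ∀ c ∈ T, Z c ∈ T) (hGW : ∀ (u : G), ∀ c ∈ W, u • c ∈ W)
    (hGT : ∀ (u : G), ∀ c ∈ T, u • c ∈ T)
    (hZ : ∀ c ∈ W, ∑ i ∈ Finset.range ℓ, Z^[i] c ∈ T)
    (hZG : ∀ (u : G), ∀ c ∈ W, Z (u • c) - u • Z c ∈ T)
    (hinj : ∀ c ∈ W, c - Z c ∈ T → c ∈ T)
    (hsep : ∀ c ∈ W, (∀ n : ℕ, ∃ y ∈ W, c - (fun h => h - Z h)^[n] y ∈ T) → c ∈ T)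
    (E : C → V → Prop) (hE : ∀ c ∈ W, ∃ ε, E c ε)
    (hadd : ∀ c ∈ W, ∀ c' ∈ W, ∀ ε ε', E c ε → E c' ε' → E (c + c') (ε + ε'))
    (hneg : ∀ c ∈ W, ∀ ε, E c ε → E (-c) (-ε))
    (hET : ∀ c ∈ T, ∀ ε, E c ε → ε = 0)
    (hZE : ∀ c ∈ W, ∀ ε, E c ε → E (Z c) ε)
    (hker : ∀ c ∈ W, E c 0 → ∃ y ∈ W, c - (y - Z y) ∈ T)
    (hGE : ∀ (u : G), ∀ c ∈ W, ∀ ε, E c ε → E (u • c) ε)
    (hfin : ∀ (u : G), ∀ c ∈ W, ∃ M : ℕ, 0 < M ∧ u ^ M • c - c ∈ T)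
    (hne : ¬ W ≤ T) :
    ∃ c ∈ W, ∃ ε, E c ε ∧ ε ≠ 0 ∧ ∃ a : G → ZMod ℓ, ∀ u, ∀ y ∈ W, ∀ ε',
      u • c - c - (y - Z y) ∈ T → E y ε' → ε' = a u • ε := by
  have hfd : Module.Finite (ZMod ℓ) V := Module.Finite.of_finite
  set φ : V ≃ₗ[ZMod ℓ] (Fin (Module.finrank (ZMod ℓ) V) → ZMod ℓ) :=
    (Module.finBasis (ZMod ℓ) V).equivFun with hφ
  obtain ⟨c, hc, ε, hε, hε0, a, ha⟩ := Sup.exists_eigen_sub (ℓ := ℓ) (C := C) (G := G)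
    (ι := Fin (Module.finrank (ZMod ℓ) V)) W T Z hTW hZW hZT hGW hGT hZ hZG hinj hsep
    (fun c ε => E c (φ.symm ε))
    (fun c hc => by
      obtain ⟨ε, hε⟩ := hE c hc
      exact ⟨φ ε, by rw [φ.symm_apply_apply]; exact hε⟩)
    (fun c hc c' hc' ε ε' h h' => by
      rw [map_add]
      exact hadd c hc c' hc' _ _ h h')
    (fun c hc ε h => by
      rw [map_neg]
      exact hneg c hc _ h)
    (fun c hc ε h => by
      have h1 := hET c hc _ h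
      rwa [LinearEquiv.map_eq_zero_iff] at h1)
    (fun c hc ε h => hZE c hc _ h)
    (fun c hc h => hker c hc (by rwa [map_zero] at h))
    (fun u c hc ε h => hGE u c hc _ h)
    hfin hne
  refine ⟨c, hc, φ.symm ε, hε, ?_, a, fun u y hy ε' h1 h2 => ?_⟩
  · rw [Ne, LinearEquiv.map_eq_zero_iff]
    exact hε0
  · have h3 := ha u y hy (φ ε') h1 (by rw [φ.symm_apply_apply]; exact h2)
    rw [← map_smul, ← h3, φ.symm_apply_apply]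

end Pool.Agent.Lib.MP_89bcae_ag.Sup.Lns
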