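import Mathlib

/-!
# Kummer classes in the span of given vectors

For `x ≠ 0` in `K` and `U` over `K` let `χ_x(U) : ZMod ℓ` be defined by `U y = ζ^{χ_x(U)} y`, `y^ℓ = x`.
Let `G` be the matrix `(g r s)` modulo `ℓ`, as a linear map `(R → ZMod ℓ) → (T → ZMod ℓ)`; there is a linear
map `N : (T → ZMod ℓ) → (R → ZMod ℓ)` with `G N G = G`. The hypothesis says that
`χ(U) = (χ_{X s}(U))_s` is in the range of `G`, so `χ(U) = G N χ(U)`. Put
`κ r = ∏_s (X s) ^ (m r s)` with `m r s : ℤ` lifting the coefficients of `N`. Then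
`X s * (∏_r κ_r ^ g r s)⁻¹` has trivial `χ(U)` for all `U` fixing `K`; an `ℓ`-th root `y` of it in `F` is fixed
by all `U` over `K`, so `y` is in `K`.
-/

open Polynomial

namespace Pool.Agent.Lib.MP_89bcae_ag.Sup.Lns

universe u

/-- An element of the algebraic closure with `ℓ`-th power in `K` which is fixed by all
automorphisms over `K` is in `K`. -/
private lemma al02_mem_of_fixed {k F : Type u} [Field k] [Field F] [Algebra k F] [IsAlgClosure k F]
    {ℓ : ℕ} (hℓ : (ℓ : k) ≠ 0) (K : IntermediateField k F) (y : F) (hy0 : y ≠ 0)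
    (hy : y ^ ℓ ∈ K) (hfix : ∀ U : F ≃ₐ[k] F, (∀ a ∈ K, U a = a) → U y = y) : y ∈ K := by
  have : IsAlgClosed F := IsAlgClosure.isAlgClosed k
  have : Algebra.IsAlgebraic k F := IsAlgClosure.isAlgebraic
  have : Algebra.IsAlgebraic K F := Algebra.IsAlgebraic.tower_top (K := k) K
  have : IsAlgClosure K F := ⟨inferInstance, inferInstance⟩
  have : Normal K F := IsAlgClosure.normal K F
  have hℓ0 : ℓ ≠ 0 := by
    rintro rfl
    exact hℓ (by simp)
  have hsep : IsSeparable K y := by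
    have h1 : (X ^ ℓ - C (⟨y ^ ℓ, hy⟩ : K)).Separable := by
      apply separable_X_pow_sub_C
      · intro h
        apply hℓ
        have h2 := congrArg (algebraMap K F) h
        rw [map_natCast, map_zero, ← map_natCast (algebraMap k F)] at h2
        exact (map_eq_zero _).mp h2
      · intro h
        have h2 := congrArg (fun z : K => (z : F)) h
        exact hy0 ((pow_eq_zero_iff hℓ0).mp h2)
    refine Polynomial.Separable.of_dvd h1 (minpoly.dvd K y ?_)
    rw [map_sub, map_pow, aeval_X, aeval_C]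
    exact sub_self _
  by_contra hyK
  have h3 : y ∉ (⊥ : Subalgebra K F) := by
    intro h
    rw [Algebra.mem_bot] at h
    obtain ⟨z, rfl⟩ := h
    exact hyK z.2
  rw [notMem_iff_exists_ne_and_isConjRoot hsep (IsAlgClosed.splits _)] at h3
  obtain ⟨y', hne, hconj⟩ := h3
  rw [isConjRoot_iff_exists_algEquiv] at hconj
  obtain ⟨σ, hσ⟩ := hconj
  have h4 := hfix (σ.restrictScalars k).symm (by
    intro a ha
    rw [AlgEquiv.symm_apply_eq]
    exact (σ.commutes ⟨a, ha⟩).symm)
  rw [AlgEquiv.symm_apply_eq] at h4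
  apply hne
  apply σ.injective
  rw [hσ]
  exact h4.symm

/-- A generalized inverse of a matrix over a field. -/
private lemma al02_inverse {K R T : Type*} [Field K] [Fintype R] [Fintype T] (g : R → T → K) :
    ∃ m : R → T → K, ∀ b : R → K, ∀ s, ∑ r, g r s * ∑ s', m r s' * ∑ r', b r' * g r' s' =
      ∑ r, b r * g r s := by
  classical
  let G : (R → K) →ₗ[K] (T → K) :=
    { toFun := fun b s => ∑ r, b r * g r s
      map_add' := fun b b' => by
        funext s
        simp only [Pi.add_apply, add_mul, Finset.sum_add_distrib]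
      map_smul' := fun c b => by
        funext s
        simp only [Pi.smul_apply, smul_eq_mul, RingHom.id_apply, Finset.mul_sum, mul_assoc] }
  have G_apply : ∀ b s, G b s = ∑ r, b r * g r s := fun _ _ => rfl
  obtain ⟨h, hh⟩ := G.rangeRestrict.exists_rightInverse_of_surjective
    (LinearMap.range_eq_top.2 G.surjective_rangeRestrict)
  obtain ⟨N, hN⟩ := LinearMap.exists_extend h
  refine ⟨fun r s => N (Pi.single s 1) r, fun b s => ?_⟩
  have h1 : ∀ v : T → K, ∀ r, N v r = ∑ s', N (Pi.single s' 1) r * v s' := by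
    intro v r
    have h2 : v = ∑ s', v s' • (Pi.single s' (1 : K) : T → K) := by
      funext s
      rw [Finset.sum_apply]
      simp only [Pi.smul_apply, smul_eq_mul, Pi.single_apply, mul_ite, mul_one, mul_zero]
      rw [Finset.sum_ite_eq]
      simp
    conv_lhs => rw [h2]
    rw [map_sum, Finset.sum_apply]
    refine Finset.sum_congr rfl fun s' _ => ?_
    rw [map_smul, Pi.smul_apply, smul_eq_mul, mul_comm]
  have h3 : G (N (G b)) = G b := by
    have h4 : N (G b) = h ⟨G b, LinearMap.mem_range_self G b⟩ := by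
      rw [← hN]
      rfl
    rw [h4]
    have h5 := LinearMap.congr_fun hh ⟨G b, LinearMap.mem_range_self G b⟩
    exact congrArg Subtype.val h5
  have h6 := congrFun h3 s
  rw [G_apply, G_apply] at h6
  rw [← h6]
  refine Finset.sum_congr rfl fun r _ => ?_
  rw [h1, mul_comm]
  rfl

private lemma al02_prod_zpow {F ι : Type*} [Field F] {z : F} (hz : z ≠ 0) (s : Finset ι)
    (f : ι → ℤ) : ∏ i ∈ s, z ^ f i = z ^ ∑ i ∈ s, f i := by
  classical
  induction s using Finset.induction_on with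
  | empty => simp
  | insert a s ha ih => rw [Finset.prod_insert ha, Finset.sum_insert ha, zpow_add₀ hz, ih]

theorem exists_kappa {k F : Type u} [Field k] [Field F] [Algebra k F] [IsAlgClosure k F]
    {ℓ : ℕ} (hp : ℓ.Prime) (hℓ : (ℓ : k) ≠ 0) {ζ : k} (hζ : IsPrimitiveRoot ζ ℓ)
    (K : IntermediateField k F) {T R : Type*} [Finite T] [Fintype R] (X : T → F)
    (hX0 : ∀ s, X s ≠ 0) (hXK : ∀ s, X s ∈ K) (g : R → T → ℤ)
    (hU : ∀ U : F ≃ₐ[k] F, (∀ a ∈ K, U a = a) → ∃ b : R → ℤ, ∀ s, ∀ x : F, x ^ ℓ = X s →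
      U x = algebraMap k F ζ ^ (∑ r, b r * g r s) * x) :
    ∃ κ : R → F, (∀ r, κ r ∈ K ∧ κ r ≠ 0) ∧
      ∀ s, ∃ w ∈ K, w ^ ℓ = X s * (∏ r, κ r ^ g r s)⁻¹ := by
  classical
  have : Fintype T := Fintype.ofFinite T
  have : Fact ℓ.Prime := ⟨hp⟩
  have : IsAlgClosed F := IsAlgClosure.isAlgClosed k
  have hℓ0 : ℓ ≠ 0 := hp.ne_zero
  set z := algebraMap k F ζ with hz
  have hz1 : z ^ (ℓ : ℤ) = 1 := by
    rw [hz, zpow_natCast, ← map_pow, hζ.pow_eq_one, map_one]
  have hz0 : z ≠ 0 := by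
    intro h
    rw [h, zpow_natCast, zero_pow hℓ0] at hz1
    exact zero_ne_one hz1
  have hzd : ∀ n : ℤ, (n : ZMod ℓ) = 0 → z ^ n = 1 := by
    intro n hn
    obtain ⟨j, rfl⟩ := (ZMod.intCast_zmod_eq_zero_iff_dvd _ ℓ).1 hn
    rw [zpow_mul, hz1, one_zpow]
  obtain ⟨m, hm⟩ := al02_inverse (fun r s => (g r s : ZMod ℓ))
  have hx : ∀ s, ∃ x : F, x ^ ℓ = X s := fun s =>
    IsAlgClosed.exists_pow_nat_eq (X s) (Nat.pos_of_ne_zero hℓ0)
  choose x hx using hx
  have hx0 : ∀ s, x s ≠ 0 := by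
    intro s h
    have h1 := hx s
    rw [h, zero_pow hℓ0] at h1
    exact hX0 s h1.symm
  refine ⟨fun r => ∏ s, X s ^ ((m r s).val : ℤ), fun r => ⟨?_, ?_⟩, fun s => ?_⟩
  · exact prod_mem fun s _ => zpow_mem (hXK s) _
  · exact Finset.prod_ne_zero_iff.2 fun s _ => zpow_ne_zero _ (hX0 s)
  · -- the root
    set y : F := x s * (∏ r, (∏ s', x s' ^ ((m r s').val : ℤ)) ^ g r s)⁻¹ with hy
    have hprod0 : ∀ r, (∏ s', x s' ^ ((m r s').val : ℤ)) ≠ 0 := fun r =>
      Finset.prod_ne_zero_iff.2 fun s' _ => zpow_ne_zero _ (hx0 s')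
    have hP0 : (∏ r, (∏ s', x s' ^ ((m r s').val : ℤ)) ^ g r s) ≠ 0 :=
      Finset.prod_ne_zero_iff.2 fun r _ => zpow_ne_zero _ (hprod0 r)
    have hy0 : y ≠ 0 := mul_ne_zero (hx0 s) (inv_ne_zero hP0)
    have hyp : y ^ ℓ = X s * (∏ r, (∏ s', X s' ^ ((m r s').val : ℤ)) ^ g r s)⁻¹ := by
      rw [hy, mul_pow, hx, inv_pow, ← Finset.prod_pow]
      congr 2
      refine Finset.prod_congr rfl fun r _ => ?_
      rw [← zpow_natCast, ← zpow_mul, mul_comm (g r s), zpow_mul, zpow_natCast, ← Finset.prod_pow]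
      congr 1
      refine Finset.prod_congr rfl fun s' _ => ?_
      have h1 : (x s' ^ ((m r s').val : ℤ)) ^ ℓ = (x s' ^ ℓ) ^ ((m r s').val : ℤ) := by
        rw [← zpow_natCast, ← zpow_natCast, ← zpow_mul, ← zpow_mul, mul_comm]
      rw [h1, hx]
    refine ⟨y, ?_, hyp⟩
    refine al02_mem_of_fixed hℓ K y hy0 ?_ ?_
    · rw [hyp]
      exact K.mul_mem (hXK s) (K.inv_mem (prod_mem fun r _ =>
        zpow_mem (prod_mem fun s' _ => zpow_mem (hXK s') _) _))
    · intro U hUK
      obtain ⟨b, hb⟩ := hU U hUK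
      have h1 : ∀ s', U (x s') = z ^ (∑ r, b r * g r s') * x s' := fun s' => hb s' (x s') (hx s')
      have h2 : ∀ r, U (∏ s', x s' ^ ((m r s').val : ℤ)) =
          z ^ (∑ s', ((m r s').val : ℤ) * ∑ r', b r' * g r' s') *
            ∏ s', x s' ^ ((m r s').val : ℤ) := by
        intro r
        rw [map_prod, ← al02_prod_zpow hz0, ← Finset.prod_mul_distrib]
        refine Finset.prod_congr rfl fun s' _ => ?_
        rw [map_zpow₀, h1, mul_zpow, ← zpow_mul]
        congr 2
        ring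
      have h3 : U (∏ r, (∏ s', x s' ^ ((m r s').val : ℤ)) ^ g r s) =
          z ^ (∑ r, g r s * ∑ s', ((m r s').val : ℤ) * ∑ r', b r' * g r' s') *
            ∏ r, (∏ s', x s' ^ ((m r s').val : ℤ)) ^ g r s := by
        rw [map_prod, ← al02_prod_zpow hz0, ← Finset.prod_mul_distrib]
        refine Finset.prod_congr rfl fun r _ => ?_
        rw [map_zpow₀, h2, mul_zpow, ← zpow_mul]
        congr 2
        ring
      have h4 : z ^ (∑ r, b r * g r s) =
          z ^ (∑ r, g r s * ∑ s', ((m r s').val : ℤ) * ∑ r', b r' * g r' s') := by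
        have h5 := hzd (∑ r, b r * g r s -
          ∑ r, g r s * ∑ s', ((m r s').val : ℤ) * ∑ r', b r' * g r' s') (by
            have h6 := hm (fun r => (b r : ZMod ℓ)) s
            push_cast
            rw [sub_eq_zero, ← h6]
            refine Finset.sum_congr rfl fun r _ => ?_
            congr 1
            refine Finset.sum_congr rfl fun s' _ => ?_
            rw [ZMod.natCast_zmod_val])
        rw [zpow_sub₀ hz0, div_eq_one_iff_eq (zpow_ne_zero _ hz0)] at h5
        exact h5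
      rw [hy, map_mul, map_inv₀, h3, h1, h4]
      have h7 : z ^ (∑ r, g r s * ∑ s', ((m r s').val : ℤ) * ∑ r', b r' * g r' s') ≠ 0 :=
        zpow_ne_zero _ hz0
      field_simp

end Pool.Agent.Lib.MP_89bcae_ag.Sup.Lns
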