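import Mathlib
import Pool.Agent.Lib.MP_89bcae_ag.Sup.LBase

/-!
# Families of polynomials whose differences have simple and distinct roots
-/

open Polynomial

open scoped Classical

namespace Pool.Agent.Lib.MP_89bcae_ag.Sup.Lns

universe u

variable {ι : Type} [Fintype ι] [LinearOrder ι] {F : Type u} [Field F]

/-- The product of the differences `a_i - a_j`, `i < j`. -/
noncomputable def disc (a : ι → F[X]) : F[X] :=
  ∏ i, ∏ j ∈ Finset.univ.filter (fun j => i < j), (a i - a j)

/-- The roots of the differences. -/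
noncomputable def SS (a : ι → F[X]) : Finset F := (disc a).roots.toFinset

/-- The differences have simple and distinct roots, and they are not constant. -/
structure AGeom (a : ι → F[X]) : Prop where
  sep : (disc a).Separable
  pos : ∀ i j, i ≠ j → (a i - a j).natDegree ≠ 0

omit [LinearOrder ι] in
/-- The polynomial `∏ (x - a_i(t))`. -/
noncomputable def lineP {M : Type u} [Field M] [Algebra F M] (a : ι → F[X]) (t : M) : M[X] :=
  ∏ i, (X - C (aeval t (a i)))

lemma disc_map {k : Type u} [Field k] (φ : k →+* F) (a : ι → k[X]) :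
    disc (fun i => (a i).map φ) = (disc a).map φ := by
  unfold disc
  rw [Polynomial.map_prod]
  refine Finset.prod_congr rfl fun i _ => ?_
  rw [Polynomial.map_prod]
  refine Finset.prod_congr rfl fun j _ => ?_
  rw [Polynomial.map_sub]

lemma AGeom.map {k : Type u} [Field k] (φ : k →+* F) {a : ι → k[X]} (h : AGeom a) :
    AGeom (fun i => (a i).map φ) := by
  refine ⟨?_, fun i j hij => ?_⟩
  · rw [disc_map]
    exact h.sep.map
  · rw [← Polynomial.map_sub, natDegree_map]
    exact h.pos i j hij

variable {a : ι → F[X]}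

lemma dvd_disc {i j : ι} (hij : i < j) : a i - a j ∣ disc a := by
  unfold disc
  exact (Finset.dvd_prod_of_mem (fun j => a i - a j)
    (Finset.mem_filter.2 ⟨Finset.mem_univ j, hij⟩)).trans
    (Finset.dvd_prod_of_mem (fun i => ∏ j ∈ Finset.univ.filter (fun j => i < j), (a i - a j))
      (Finset.mem_univ i))

lemma mul_dvd_disc {i j k l : ι} (hij : i < j) (hkl : k < l) (hne : (i, j) ≠ (k, l)) :
    (a i - a j) * (a k - a l) ∣ disc a := by
  have h1 : disc a = ∏ q ∈ (Finset.univ : Finset (ι × ι)).filter (fun q => q.1 < q.2),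
      (a q.1 - a q.2) := by
    unfold disc
    rw [← Finset.univ_product_univ, Finset.prod_filter, Finset.prod_product]
    refine Finset.prod_congr rfl fun i _ => ?_
    rw [Finset.prod_filter]
  rw [h1]
  have h2 : (∏ q ∈ ({(i, j), (k, l)} : Finset (ι × ι)), (a q.1 - a q.2)) =
      (a i - a j) * (a k - a l) := Finset.prod_pair hne
  rw [← h2]
  apply Finset.prod_dvd_prod_of_subset
  intro q hq
  rw [Finset.mem_insert, Finset.mem_singleton] at hq
  rw [Finset.mem_filter]
  rcases hq with rfl | rfl
  · exact ⟨Finset.mem_univ _, hij⟩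
  · exact ⟨Finset.mem_univ _, hkl⟩

lemma AGeom.disc_ne (h : AGeom a) : disc a ≠ 0 := h.sep.ne_zero

lemma AGeom.ne (h : AGeom a) {i j : ι} (hij : i ≠ j) : a i - a j ≠ 0 := by
  intro h0
  apply h.pos i j hij
  rw [h0, natDegree_zero]

lemma mem_SS (h : AGeom a) {s : F} :
    s ∈ SS a ↔ ∃ i j, i ≠ j ∧ (a i).eval s = (a j).eval s := by
  unfold SS
  rw [Multiset.mem_toFinset, mem_roots h.disc_ne, IsRoot.def]
  constructor
  · intro h0
    unfold disc at h0
    rw [eval_prod, Finset.prod_eq_zero_iff] at h0
    obtain ⟨i, -, hi⟩ := h0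
    rw [eval_prod, Finset.prod_eq_zero_iff] at hi
    obtain ⟨j, hj, hij⟩ := hi
    rw [Finset.mem_filter] at hj
    rw [eval_sub, sub_eq_zero] at hij
    exact ⟨i, j, hj.2.ne, hij⟩
  · rintro ⟨i, j, hij, h1⟩
    rcases lt_or_gt_of_ne hij with h2 | h2
    · obtain ⟨q, hq⟩ := dvd_disc (a := a) h2
      rw [hq, eval_mul, eval_sub, h1, sub_self, zero_mul]
    · obtain ⟨q, hq⟩ := dvd_disc (a := a) h2
      rw [hq, eval_mul, eval_sub, h1, sub_self, zero_mul]

lemma mem_SS_of_eq (h : AGeom a) {s : F} {i j : ι} (hij : i ≠ j)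
    (hs : (a i).eval s = (a j).eval s) : s ∈ SS a := (mem_SS h).2 ⟨i, j, hij, hs⟩

private lemma ab_simple (h : AGeom a) {s : F} {i j : ι} (hij : i < j)
    (hs : (a i).eval s = (a j).eval s) : (derivative (a i - a j)).eval s ≠ 0 := by
  intro h0
  have h1 : (a i - a j).Separable := h.sep.of_dvd (dvd_disc hij)
  obtain ⟨u, w, huw⟩ := h1
  have h2 := congrArg (eval s) huw
  rw [eval_add, eval_mul, eval_mul, h0, eval_sub, hs, sub_self, mul_zero, mul_zero, add_zero,
    eval_one] at h2
  exact zero_ne_one h2

/-- The roots of the differences are simple. -/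
lemma AGeom.simple (h : AGeom a) {s : F} {i j : ι} (hij : i ≠ j)
    (hs : (a i).eval s = (a j).eval s) : (derivative (a i - a j)).eval s ≠ 0 := by
  rcases lt_or_gt_of_ne hij with h2 | h2
  · exact ab_simple h h2 hs
  · have h3 := ab_simple h h2 hs.symm
    intro h0
    apply h3
    rw [derivative_sub, eval_sub] at h0 ⊢
    rw [← neg_sub, h0, neg_zero]

private lemma ab_pair (h : AGeom a) {s : F} {i j k l : ι} (hij : i < j) (hkl : k < l)
    (hs : (a i).eval s = (a j).eval s) (hs' : (a k).eval s = (a l).eval s) :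
    (i, j) = (k, l) := by
  by_contra hne
  have h1 : ((a i - a j) * (a k - a l)).Separable := h.sep.of_dvd (mul_dvd_disc hij hkl hne)
  obtain ⟨u, w, huw⟩ := h1.isCoprime
  have h2 := congrArg (eval s) huw
  rw [eval_add, eval_mul, eval_mul, eval_sub, eval_sub, hs, hs', sub_self, sub_self, mul_zero,
    mul_zero, add_zero, eval_one] at h2
  exact zero_ne_one h2

/-- The roots of the differences are distinct. -/
lemma AGeom.third (h : AGeom a) {s : F} {i j l : ι} (hij : i ≠ j) (hli : l ≠ i) (hlj : l ≠ j)
    (hs : (a i).eval s = (a j).eval s) : (a l).eval s ≠ (a i).eval s := by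
  intro hl
  -- order the pairs `i, j` and `i, l`
  rcases lt_or_gt_of_ne hij with h1 | h1 <;> rcases lt_or_gt_of_ne hli with h2 | h2
  · have := ab_pair h h1 h2 hs hl
    rw [Prod.mk.injEq] at this
    exact hij this.2.symm
  · have := ab_pair h h1 h2 hs hl.symm
    rw [Prod.mk.injEq] at this
    exact hlj this.2.symm
  · have := ab_pair h h1 h2 hs.symm hl
    rw [Prod.mk.injEq] at this
    exact hlj this.1.symm
  · have := ab_pair h h1 h2 hs.symm hl.symm
    rw [Prod.mk.injEq] at this
    exact hij this.1.symm

lemma AGeom.third' (h : AGeom a) {s : F} {i j l : ι} (hij : i ≠ j) (hli : l ≠ i) (hlj : l ≠ j)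
    (hs : (a i).eval s = (a j).eval s) : (a l).eval s ≠ (a j).eval s := by
  rw [← hs]
  exact h.third hij hli hlj hs

/-- Each root of the differences belongs to exactly one pair. -/
lemma AGeom.pair (h : AGeom a) {s : F} {i j k l : ι} (hij : i ≠ j) (hkl : k ≠ l)
    (hs : (a i).eval s = (a j).eval s) (hs' : (a k).eval s = (a l).eval s) :
    (k = i ∧ l = j) ∨ (k = j ∧ l = i) := by
  by_cases hki : k = i
  · left
    refine ⟨hki, ?_⟩
    by_contra hlj
    subst hki
    exact h.third hij hkl.symm hlj hs hs'.symm
  · by_cases hkj : k = j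
    · right
      refine ⟨hkj, ?_⟩
      by_contra hli
      subst hkj
      exact h.third hij hli hkl.symm hs (hs'.symm.trans hs.symm)
    · exfalso
      by_cases hli : l = i
      · subst hli
        exact h.third hij hki hkj hs hs'
      · by_cases hlj : l = j
        · subst hlj
          exact h.third hij hki hkj hs (hs'.trans hs.symm)
        · -- `i, j, k, l` distinct
          rcases lt_or_gt_of_ne hij with h1 | h1 <;> rcases lt_or_gt_of_ne hkl with h2 | h2
          · have := ab_pair h h1 h2 hs hs'
            rw [Prod.mk.injEq] at this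
            exact hki this.1.symm
          · have := ab_pair h h1 h2 hs hs'.symm
            rw [Prod.mk.injEq] at this
            exact hli this.1.symm
          · have := ab_pair h h1 h2 hs.symm hs'
            rw [Prod.mk.injEq] at this
            exact hkj this.1.symm
          · have := ab_pair h h1 h2 hs.symm hs'.symm
            rw [Prod.mk.injEq] at this
            exact hlj this.1.symm

lemma AGeom.injective (h : AGeom a) : Function.Injective a := by
  intro i j hij
  by_contra hne
  exact h.ne hne (sub_eq_zero.2 hij)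

lemma AGeom.exists_node [IsAlgClosed F] (h : AGeom a) {i j : ι} (hij : i ≠ j) :
    ∃ s, (a i).eval s = (a j).eval s := by
  have h1 : (a i - a j).degree ≠ 0 := by
    intro h0
    apply h.pos i j hij
    exact natDegree_eq_of_degree_eq_some (n := 0) h0
  obtain ⟨s, hs⟩ := IsAlgClosed.exists_root _ h1
  rw [IsRoot.def, eval_sub, sub_eq_zero] at hs
  exact ⟨s, hs⟩

/-- The factorisation of a difference. -/
lemma AGeom.sub_eq [IsAlgClosed F] (h : AGeom a) {i j : ι} (hij : i ≠ j) :
    a i - a j = C (a i - a j).leadingCoeff *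
      ∏ s ∈ (SS a).filter (fun s => (a i).eval s = (a j).eval s), (X - C s) := by
  have h0 := h.ne hij
  have hsep : (a i - a j).Separable := by
    rcases lt_or_gt_of_ne hij with h2 | h2
    · exact h.sep.of_dvd (dvd_disc h2)
    · have h3 : (a j - a i).Separable := h.sep.of_dvd (dvd_disc h2)
      have h4 : a i - a j ∣ a j - a i := ⟨-1, by ring⟩
      exact h3.of_dvd h4
  have hnd : (a i - a j).roots.Nodup := nodup_roots hsep
  have h1 := (IsAlgClosed.splits (a i - a j)).eq_prod_roots
  have h2 : ((a i - a j).roots.map fun s => X - C s).prod =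
      ∏ s ∈ (SS a).filter (fun s => (a i).eval s = (a j).eval s), (X - C s) := by
    have h3 : (SS a).filter (fun s => (a i).eval s = (a j).eval s) =
        (a i - a j).roots.toFinset := by
      ext s
      rw [Finset.mem_filter, Multiset.mem_toFinset, mem_roots h0, IsRoot.def, eval_sub,
        sub_eq_zero]
      exact ⟨fun h => h.2, fun h' => ⟨mem_SS_of_eq h hij h', h'⟩⟩
    rw [h3, Finset.prod, Multiset.toFinset_val, hnd.dedup]
  rw [h2] at h1
  exact h1

end Pool.Agent.Lib.MP_89bcae_ag.Sup.Lns
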