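import Mathlib
import Pool.Agent.Lib.MP_89bcae_ag.Lns.ABase
import Pool.Agent.Lib.MP_89bcae_ag.Sup.L01
import Pool.Agent.Lib.MP_89bcae_ag.Sup.L02
import Pool.Agent.Lib.MP_89bcae_ag.Sup.L03
import Pool.Agent.Lib.MP_89bcae_ag.Sup.U01
import Pool.Agent.Lib.MP_89bcae_ag.Sup.R20

/-!
# The roots of the curve at a place and the valuations of the functions `uval`

ROW LA01 = the lemmas of this file.
Compare `Sup/L03.lean`, `L04.lean`, `L05.lean`. All the roots `A i = aeval t (a i)` are in the image of
`F[t]`, so that `v (A i - A j) = 1` if `a_i(s) ≠ a_j(s)` (`residue_eval`).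
`val_uval` (analogue of `LocCtx.val_uval` in `L05.lean`, same proof with `d = 1`): for a point `P` of the
curve, the product over the `i` with `a_i(s) = r` of
`v (if P.x = A i then (f'(A i))⁻¹ else A i - P.x)` is
`v (if 1 < v P.x then P.x else 1) ^ card * v (if v (P.x - r) < 1 ∧ P.y ≠ 0 then P.y else 1) ^ ℓ`
(`P.y ^ ℓ = ∏ (P.x - A i)`); the products over `D` of the two functions of `P` are fixed by `Γ`, so
their values are in `ϖ ^ ℤ[1/p]`; for the first one, its `m`-th power, `m = card ι`, is an `ℓ`-th power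
(`v P.x ^ m = v P.y ^ ℓ` if `1 < v P.x`) and `m` is prime to `ℓ` (`Val.of_pow`).
-/

open Polynomial

open scoped Classical

namespace Pool.Agent.Lib.MP_89bcae_ag.Sup.Lns

universe u

variable {ι : Type} [Fintype ι] [LinearOrder ι] {F M : Type u} [Field F] [Field M] [Algebra F M]
  {v : AbsoluteValue M ℝ} {s : F} {t : M} {a : ι → F[X]}

omit [LinearOrder ι] in
lemma eval_lineP (x : M) : (lineP a t).eval x = ∏ i, (x - aeval t (a i)) := by
  unfold lineP
  rw [eval_prod]
  simp

omit [LinearOrder ι] in
lemma lineP_ne_zero : lineP a t ≠ 0 := by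
  unfold lineP
  exact Finset.prod_ne_zero_iff.2 fun i _ => X_sub_C_ne_zero _

omit [LinearOrder ι] in
lemma lineP_natDegree : (lineP a t).natDegree = Fintype.card ι := by
  unfold lineP
  rw [natDegree_prod_of_monic _ _ fun i _ => monic_X_sub_C _]
  simp

omit [LinearOrder ι] in
lemma eval_lineP_eq_zero {x : M} : (lineP a t).eval x = 0 ↔ ∃ i, x = aeval t (a i) := by
  rw [eval_lineP, Finset.prod_eq_zero_iff]
  constructor
  · rintro ⟨i, -, hi⟩
    exact ⟨i, sub_eq_zero.1 hi⟩
  · rintro ⟨i, hi⟩
    exact ⟨i, Finset.mem_univ i, sub_eq_zero.2 hi⟩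

omit [LinearOrder ι] in
lemma root_lineP (i : ι) : (lineP a t).eval (aeval t (a i)) = 0 :=
  eval_lineP_eq_zero.2 ⟨i, rfl⟩

omit [LinearOrder ι] in
lemma mem_rts_lineP {x : M} : x ∈ rts (lineP a t) ↔ ∃ i, x = aeval t (a i) := by
  rw [mem_rts lineP_ne_zero, eval_lineP_eq_zero]

omit [LinearOrder ι] in
/-- The roots are distinct. -/
lemma lineP_injective (hs : (lineP a t).Separable) :
    Function.Injective fun i => aeval t (a i) := by
  unfold lineP at hs
  exact separable_prod_X_sub_C_iff.1 hs

omit [LinearOrder ι] in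
lemma prod_rts_lineP {N : Type*} [CommMonoid N] (hs : (lineP a t).Separable) (φ : M → N) :
    ∏ θ ∈ rts (lineP a t), φ θ = ∏ i, φ (aeval t (a i)) := by
  have h1 : rts (lineP a t) = Finset.univ.image (fun i => aeval t (a i)) := by
    ext x
    rw [mem_rts_lineP, Finset.mem_image]
    constructor
    · rintro ⟨i, hi⟩
      exact ⟨i, Finset.mem_univ i, hi.symm⟩
    · rintro ⟨i, -, hi⟩
      exact ⟨i, hi.symm⟩
  rw [h1, Finset.prod_image fun i _ j _ hij => lineP_injective hs hij]

lemma derivative_lineP (i : ι) : (derivative (lineP a t)).eval (aeval t (a i)) =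
    ∏ j ∈ Finset.univ.erase i, (aeval t (a i) - aeval t (a j)) := by
  have h1 : lineP a t = (X - C (aeval t (a i))) *
      ∏ j ∈ Finset.univ.erase i, (X - C (aeval t (a j))) := by
    unfold lineP
    exact (Finset.mul_prod_erase Finset.univ (fun j => X - C (aeval t (a j)))
      (Finset.mem_univ i)).symm
  rw [h1, derivative_mul, eval_add, eval_mul, eval_mul, derivative_sub, derivative_X,
    derivative_C, sub_zero, eval_one, one_mul, eval_sub, eval_X, eval_C, sub_self, zero_mul,
    add_zero, eval_prod]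
  simp

omit [Fintype ι] [LinearOrder ι] in
private lemma la01_res (h : LocCtx v s t) (i : ι) :
    v (aeval t (a i) - algebraMap F M ((a i).eval s)) < 1 :=
  h.residue_eval h.lt_one (a i)

omit [Fintype ι] [LinearOrder ι] in
lemma v_line_le (h : LocCtx v s t) (i : ι) : v (aeval t (a i)) ≤ 1 :=
  h.v_le_one (la01_res h i)

omit [Fintype ι] [LinearOrder ι] in
lemma v_line_sub (h : LocCtx v s t) {i j : ι} (hij : (a i).eval s ≠ (a j).eval s) :
    v (aeval t (a i) - aeval t (a j)) = 1 := by
  have h1 := h.residue_eval h.lt_one (a i - a j)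
  rw [map_sub (aeval (R := F) t)] at h1
  refine h.v_eq_one h1 ?_
  rw [eval_sub]
  exact sub_ne_zero.2 hij

omit [Fintype ι] [LinearOrder ι] in
/-- At a simple root `s` of the polynomial `Q`, the residue of `Q(t) / (t - s)` is `Q'(s)`. -/
lemma residue_simple (h : LocCtx v s t) {Q : F[X]} (hQ : Q.eval s = 0) :
    v (aeval t Q / (t - algebraMap F M s) - algebraMap F M ((derivative Q).eval s)) < 1 := by
  obtain ⟨q, hq⟩ := dvd_iff_isRoot.2 hQ
  have h1 : aeval t Q / (t - algebraMap F M s) = aeval t q := by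
    rw [hq, map_mul, map_sub (aeval (R := F) t), aeval_X, aeval_C,
      mul_div_cancel_left₀ _ (sub_ne_zero.2 h.ne)]
  have h2 : (derivative Q).eval s = q.eval s := by
    rw [hq]
    simp
  rw [h1, h2]
  exact h.residue_eval h.lt_one q

omit [Fintype ι] [LinearOrder ι] in
lemma v_line_node (h : LocCtx v s t) {i j : ι} (hij : (a i).eval s = (a j).eval s)
    (hd : (derivative (a i - a j)).eval s ≠ 0) :
    v (aeval t (a i) - aeval t (a j)) = v (t - algebraMap F M s) := by
  have h1 := residue_simple h (Q := a i - a j) (by rw [eval_sub, hij, sub_self])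
  have h2 := h.v_eq_one h1 hd
  have h3 : v (t - algebraMap F M s) ≠ 0 := v.ne_zero (sub_ne_zero.2 h.ne)
  rw [map_div₀, map_sub (aeval (R := F) t), div_eq_one_iff_eq h3] at h2
  exact h2

/-! ### The valuations -/

omit [Fintype ι] [LinearOrder ι] in
private lemma la01_sub_comm (x y : M) : v (x - y) = v (y - x) := by
  rw [← neg_sub, map_neg_eq_map]

private lemma la01_sym_injective {ℓ : ℕ} {f : M[X]} (σ : Sym f) :
    Function.Injective (Pt.sym σ : Pt ℓ f → Pt ℓ f) := by
  intro P Q hPQ
  have hx : (σ : M ≃+* M) P.x = (σ : M ≃+* M) Q.x := congrArg Pt.x hPQ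
  have hy : (σ : M ≃+* M) P.y = (σ : M ≃+* M) Q.y := congrArg Pt.y hPQ
  exact Pt.ext ((σ : M ≃+* M).injective hx) ((σ : M ≃+* M).injective hy)

/-- A product over an invariant divisor of equivariant quantities is invariant. -/
private lemma la01_prod_fixed {ℓ : ℕ} {f : M[X]} (σ : Sym f) (D : Pt ℓ f →₀ ℤ)
    (hD : D.mapDomain (Pt.sym σ) = D) (φ : Pt ℓ f → M)
    (hφ : ∀ P, (σ : M ≃+* M) (φ P) = φ (P.sym σ)) :
    (σ : M ≃+* M) (D.prod fun P n => φ P ^ n) = D.prod fun P n => φ P ^ n := by
  conv_rhs => rw [← hD, Finsupp.prod_mapDomain_index_inj (la01_sym_injective σ)]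
  rw [map_finsuppProd]
  refine Finsupp.prod_congr ?_
  intro P _
  rw [map_zpow₀, hφ]

private lemma la01_prod_ne_zero {ℓ : ℕ} {f : M[X]} (D : Pt ℓ f →₀ ℤ) (φ : Pt ℓ f → M)
    (hφ : ∀ P, φ P ≠ 0) : (D.prod fun P n => φ P ^ n) ≠ 0 :=
  Finset.prod_ne_zero_iff.2 fun P _ => zpow_ne_zero _ (hφ P)

private lemma la01_v_prod {ℓ : ℕ} {f : M[X]} (D : Pt ℓ f →₀ ℤ) (φ : Pt ℓ f → M) :
    v (D.prod fun P n => φ P ^ n) = ∏ P ∈ D.support, v (φ P) ^ D P := by
  rw [Finsupp.prod, map_prod]
  refine Finset.prod_congr rfl ?_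
  intro P _
  rw [map_zpow₀]

/-- The values of `∏ φ(P) ^ D(P)` for an equivariant function `φ`. -/
private lemma la01_val {ℓ p : ℕ} {f : M[X]} {ϖ : ℝ} {Γ : Subgroup (Sym f)}
    (hΓ : LocGrp p F v t ϖ Γ) (D : Pt ℓ f →₀ ℤ) (hD : ∀ σ ∈ Γ, D.mapDomain (Pt.sym σ) = D)
    (φ : Pt ℓ f → M) (h0 : ∀ P, φ P ≠ 0)
    (hφ : ∀ σ ∈ Γ, ∀ P, (σ : M ≃+* M) (φ P) = φ (P.sym σ)) :
    Val p ϖ (∏ P ∈ D.support, v (φ P) ^ D P) := by
  rw [← la01_v_prod]
  exact hΓ.disc _ (la01_prod_ne_zero D φ h0) fun σ hσ =>
    la01_prod_fixed σ D (hD σ hσ) φ (hφ σ hσ)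

omit [LinearOrder ι] in
private lemma la01_v_eq {ℓ : ℕ} (P : Pt ℓ (lineP a t)) :
    ∏ i, v (P.x - aeval t (a i)) = v P.y ^ ℓ := by
  rw [← map_pow, P.eq, eval_lineP, map_prod]

omit [Fintype ι] [LinearOrder ι] in
/-- `v (x - A i) = v x` for `x` large. -/
private lemma la01_big (h : LocCtx v s t) {x : M} (hx : 1 < v x) (i : ι) :
    v (aeval t (a i) - x) = v x := by
  have hθ1 := v_line_le (a := a) h i
  apply le_antisymm
  · have h2 : aeval t (a i) - x = aeval t (a i) + -x := by ring
    rw [h2]
    refine (h.nonarch _ _).trans (max_le (hθ1.trans hx.le) ?_)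
    rw [map_neg_eq_map]
  · have h2 : x = -(aeval t (a i) - x) + aeval t (a i) := by ring
    have h1 := h.nonarch (-(aeval t (a i) - x)) (aeval t (a i))
    rw [← h2, map_neg_eq_map] at h1
    rcases le_max_iff.1 h1 with h3 | h3
    · exact h3
    · exact absurd (h3.trans hθ1) (not_le.2 hx)

omit [Fintype ι] [LinearOrder ι] in
/-- `v (x - A i) = 1` if the residues are different. -/
private lemma la01_far (h : LocCtx v s t) {x : M} {r : F} (hx : v (x - algebraMap F M r) < 1)
    {i : ι} (hi : (a i).eval s ≠ r) : v (x - aeval t (a i)) = 1 := by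
  have h1 := la01_res (a := a) h i
  have h2 : v (x - aeval t (a i) - algebraMap F M (r - (a i).eval s)) < 1 := by
    have h3 : x - aeval t (a i) - algebraMap F M (r - (a i).eval s) =
        (x - algebraMap F M r) + -(aeval t (a i) - algebraMap F M ((a i).eval s)) := by
      rw [map_sub]
      ring
    rw [h3]
    refine (h.nonarch _ _).trans_lt (max_lt hx ?_)
    rw [map_neg_eq_map]
    exact h1
  exact h.v_eq_one h2 (sub_ne_zero.2 hi.symm)

private lemma la01_factor (h : LocCtx v s t) {ℓ : ℕ} [hG : IsGood ℓ (lineP a t)] (r : F)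
    (P : Pt ℓ (lineP a t)) :
    ∏ i ∈ Finset.univ.filter (fun i => (a i).eval s = r),
      v (if P.x = aeval t (a i) then ((derivative (lineP a t)).eval (aeval t (a i)))⁻¹
        else aeval t (a i) - P.x) =
    v (if 1 < v P.x then P.x else 1) ^
        (Finset.univ.filter (fun i => (a i).eval s = r)).card *
      v (if v (P.x - algebraMap F M r) < 1 ∧ P.y ≠ 0 then P.y else 1) ^ ℓ := by
  have hs := hG.separable
  have hinj := lineP_injective hs
  by_cases hbig : 1 < v P.x
  · have hnr : ¬ v (P.x - algebraMap F M r) < 1 := by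
      intro h1
      exact absurd hbig (not_lt.2 (h.v_le_one h1))
    rw [if_pos hbig, if_neg (fun hh => hnr hh.1), map_one, one_pow, mul_one,
      Finset.prod_congr rfl (g := fun _ => v P.x), Finset.prod_const]
    intro i _
    rw [if_neg, la01_big h hbig i]
    intro h1
    rw [h1] at hbig
    exact absurd hbig (not_lt.2 (v_line_le h i))
  · rw [if_neg hbig, map_one, one_pow, one_mul]
    by_cases hr : v (P.x - algebraMap F M r) < 1
    · by_cases hy : P.y = 0
      · rw [if_neg (fun hh => hh.2 hy), map_one, one_pow]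
        have hPx : (lineP a t).eval P.x = 0 := by
          rw [← P.eq, hy, zero_pow hG.prime.ne_zero]
        obtain ⟨i₀, hi₀⟩ := eval_lineP_eq_zero.1 hPx
        have hi₀r : (a i₀).eval s = r := by
          rw [hi₀] at hr
          exact h.residue_unique (la01_res h i₀) hr
        have hmem : i₀ ∈ Finset.univ.filter (fun i => (a i).eval s = r) :=
          Finset.mem_filter.2 ⟨Finset.mem_univ _, hi₀r⟩
        rw [← Finset.mul_prod_erase _ _ hmem, if_pos hi₀, map_inv₀, derivative_lineP, map_prod]
        have e1 : ∏ i ∈ (Finset.univ.filter (fun i => (a i).eval s = r)).erase i₀,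
            v (if P.x = aeval t (a i) then ((derivative (lineP a t)).eval (aeval t (a i)))⁻¹
              else aeval t (a i) - P.x) =
            ∏ i ∈ (Finset.univ.filter (fun i => (a i).eval s = r)).erase i₀,
              v (aeval t (a i₀) - aeval t (a i)) := by
          refine Finset.prod_congr rfl ?_
          intro i hi
          rw [if_neg, la01_sub_comm, hi₀]
          intro h1
          rw [hi₀] at h1
          exact Finset.ne_of_mem_erase hi (hinj h1).symm
        have e2 : ∏ i ∈ (Finset.univ.filter (fun i => (a i).eval s = r)).erase i₀,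
            v (aeval t (a i₀) - aeval t (a i)) =
            ∏ i ∈ Finset.univ.erase i₀, v (aeval t (a i₀) - aeval t (a i)) := by
          apply Finset.prod_subset (Finset.erase_subset_erase _ (Finset.filter_subset _ _))
          intro i hi hn
          rw [Finset.mem_erase] at hi
          refine v_line_sub h ?_
          intro h1
          exact hn (Finset.mem_erase.2 ⟨hi.1, Finset.mem_filter.2 ⟨Finset.mem_univ _,
            h1.symm.trans hi₀r⟩⟩)
        rw [e1, e2, inv_mul_cancel₀]
        refine Finset.prod_ne_zero_iff.2 ?_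
        intro i hi
        refine v.ne_zero (sub_ne_zero.2 ?_)
        intro h1
        exact Finset.ne_of_mem_erase hi (hinj h1).symm
      · rw [if_pos ⟨hr, hy⟩, ← la01_v_eq P]
        have hne : ∀ i, P.x ≠ aeval t (a i) := by
          intro i h1
          apply hy
          have h2 := P.eq
          rw [h1, root_lineP] at h2
          exact (pow_eq_zero_iff hG.prime.ne_zero).1 h2
        have e1 : ∏ i, v (P.x - aeval t (a i)) =
            ∏ i ∈ Finset.univ.filter (fun i => (a i).eval s = r), v (P.x - aeval t (a i)) := by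
          symm
          apply Finset.prod_subset (Finset.filter_subset _ _)
          intro i _ hn
          refine la01_far h hr ?_
          intro h1
          exact hn (Finset.mem_filter.2 ⟨Finset.mem_univ _, h1⟩)
        rw [e1]
        refine Finset.prod_congr rfl ?_
        intro i _
        rw [if_neg (hne i), la01_sub_comm]
    · rw [if_neg (fun hh => hr hh.1), map_one, one_pow]
      refine Finset.prod_eq_one ?_
      intro i hi
      have hir : (a i).eval s = r := (Finset.mem_filter.1 hi).2
      have hθr := la01_res (a := a) h i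
      rw [hir] at hθr
      have hθ1 := v_line_le (a := a) h i
      rw [if_neg (by intro h1; rw [h1] at hr; exact hr hθr)]
      apply le_antisymm
      · have h2 : aeval t (a i) - P.x = aeval t (a i) + -P.x := by ring
        rw [h2]
        refine (h.nonarch _ _).trans (max_le hθ1 ?_)
        rw [map_neg_eq_map]
        exact not_lt.1 hbig
      · by_contra hlt
        apply hr
        have h2 : P.x - algebraMap F M r =
            -(aeval t (a i) - P.x) + (aeval t (a i) - algebraMap F M r) := by ring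
        rw [h2]
        refine lt_of_le_of_lt (h.nonarch _ _) (max_lt ?_ hθr)
        rw [map_neg_eq_map]
        exact not_le.1 hlt

/-- The valuations of the functions `uval D`, for an invariant divisor `D`. -/
theorem val_uval_line (h : LocCtx v s t) {ℓ p : ℕ} [hG : IsGood ℓ (lineP a t)]
    {ϖ : ℝ} {Γ : Subgroup (Sym (lineP a t))}
    (hΓ : LocGrp p F v t ϖ Γ) (D : Pt ℓ (lineP a t) →₀ ℤ)
    (hD : ∀ σ ∈ Γ, D.mapDomain (Pt.sym σ) = D) (r : F) :
    Val p (ϖ ^ ℓ) (∏ i ∈ Finset.univ.filter (fun i => (a i).eval s = r),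
      v (uval D (aeval t (a i)))) := by
  have hsymx : ∀ (σ : Sym (lineP a t)) (P : Pt ℓ (lineP a t)),
      (P.sym σ).x = (σ : M ≃+* M) P.x := fun σ P => rfl
  have hsymy : ∀ (σ : Sym (lineP a t)) (P : Pt ℓ (lineP a t)),
      (P.sym σ).y = (σ : M ≃+* M) P.y := fun σ P => rfl
  have hprod2 : ∏ i ∈ Finset.univ.filter (fun i => (a i).eval s = r),
      v (uval D (aeval t (a i))) =
      (∏ P ∈ D.support, v (if 1 < v P.x then P.x else 1) ^ D P) ^
        (Finset.univ.filter (fun i => (a i).eval s = r)).card *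
      (∏ P ∈ D.support,
          v (if v (P.x - algebraMap F M r) < 1 ∧ P.y ≠ 0 then P.y else 1) ^ D P) ^ ℓ := by
    have e1 : ∀ i ∈ Finset.univ.filter (fun i => (a i).eval s = r),
        v (uval D (aeval t (a i))) = ∏ P ∈ D.support,
        v (if P.x = aeval t (a i) then ((derivative (lineP a t)).eval (aeval t (a i)))⁻¹
          else aeval t (a i) - P.x) ^ D P := by
      intro i _
      unfold uval
      rw [Finsupp.prod, map_prod]
      refine Finset.prod_congr rfl ?_
      intro P _
      rw [map_zpow₀]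
    rw [Finset.prod_congr rfl e1, Finset.prod_comm, ← Finset.prod_pow, ← Finset.prod_pow,
      ← Finset.prod_mul_distrib]
    refine Finset.prod_congr rfl ?_
    intro P _
    rw [Finset.prod_zpow, la01_factor h r P, mul_zpow]
    congr 1
    · rw [← zpow_natCast, ← zpow_natCast, ← zpow_mul, ← zpow_mul, mul_comm]
    · rw [← zpow_natCast, ← zpow_natCast, ← zpow_mul, ← zpow_mul, mul_comm]
  rw [hprod2]
  -- the big part
  have hX : Val p ϖ (∏ P ∈ D.support, v (if 1 < v P.x then P.x else 1) ^ D P) := by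
    refine la01_val hΓ D hD (fun P => if 1 < v P.x then P.x else 1) ?_ ?_
    · intro P
      show (if 1 < v P.x then P.x else 1) ≠ 0
      split_ifs with h1
      · intro h0
        rw [h0, map_zero] at h1
        exact absurd h1 (not_lt.2 zero_le_one)
      · exact one_ne_zero
    · intro σ hσ P
      simp only [hsymx, hΓ.inv σ hσ]
      split_ifs
      · rfl
      · exact map_one _
  have hbigprod : ∀ P : Pt ℓ (lineP a t), 1 < v P.x →
      v P.x ^ Fintype.card ι = v P.y ^ ℓ := by
    intro P hP
    rw [← la01_v_eq P, Finset.prod_congr rfl (g := fun _ => v P.x), Finset.prod_const,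
      Finset.card_univ]
    intro i _
    rw [la01_sub_comm, la01_big h hP i]
  have hX' : Val p ϖ (∏ P ∈ D.support, v (if 1 < v P.x then P.y else 1) ^ D P) := by
    refine la01_val hΓ D hD (fun P => if 1 < v P.x then P.y else 1) ?_ ?_
    · intro P
      show (if 1 < v P.x then P.y else 1) ≠ 0
      split_ifs with h1
      · intro h0
        have h2 := hbigprod P h1
        rw [h0, map_zero, zero_pow hG.prime.ne_zero] at h2
        have h3 : 0 < v P.x ^ Fintype.card ι := pow_pos (zero_lt_one.trans h1) _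
        exact h3.ne' h2
      · exact one_ne_zero
    · intro σ hσ P
      simp only [hsymx, hsymy, hΓ.inv σ hσ]
      split_ifs
      · rfl
      · exact map_one _
  have hXm : (∏ P ∈ D.support, v (if 1 < v P.x then P.x else 1) ^ D P) ^ Fintype.card ι =
      (∏ P ∈ D.support, v (if 1 < v P.x then P.y else 1) ^ D P) ^ ℓ := by
    rw [← Finset.prod_pow, ← Finset.prod_pow]
    refine Finset.prod_congr rfl ?_
    intro P _
    have e1 : ∀ (x : ℝ) (m : ℕ), (x ^ D P) ^ m = (x ^ m) ^ D P := by
      intro x m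
      rw [← zpow_natCast, ← zpow_natCast, ← zpow_mul, ← zpow_mul, mul_comm]
    rw [e1, e1]
    congr 1
    split_ifs with h1
    · exact hbigprod P h1
    · simp
  have hXpos : 0 < ∏ P ∈ D.support, v (if 1 < v P.x then P.x else 1) ^ D P := by
    refine Finset.prod_pos ?_
    intro P _
    refine zpow_pos ?_ _
    split_ifs with h1
    · exact zero_lt_one.trans h1
    · rw [map_one]; exact one_pos
  have hmℓ : (Fintype.card ι).Coprime ℓ := by
    have h1 := hG.coprime
    rwa [lineP_natDegree] at h1
  have hXval : Val p (ϖ ^ ℓ) (∏ P ∈ D.support, v (if 1 < v P.x then P.x else 1) ^ D P) := by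
    refine Val.of_pow hΓ.pos hΓ.lt_one hmℓ hXpos hX ?_
    rw [hXm]
    exact Val.pow_self ℓ hX'
  -- the part near `r`
  have hB : Val p ϖ (∏ P ∈ D.support,
      v (if v (P.x - algebraMap F M r) < 1 ∧ P.y ≠ 0 then P.y else 1) ^ D P) := by
    refine la01_val hΓ D hD
      (fun P => if v (P.x - algebraMap F M r) < 1 ∧ P.y ≠ 0 then P.y else 1) ?_ ?_
    · intro P
      show (if v (P.x - algebraMap F M r) < 1 ∧ P.y ≠ 0 then P.y else 1) ≠ 0
      split_ifs with h1
      · exact h1.2
      · exact one_ne_zero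
    · intro σ hσ P
      have e1 : v ((σ : M ≃+* M) P.x - algebraMap F M r) = v (P.x - algebraMap F M r) := by
        rw [← hΓ.inv σ hσ (P.x - algebraMap F M r), map_sub (σ : M ≃+* M), hΓ.fix σ hσ]
      have e2 : ((σ : M ≃+* M) P.y ≠ 0) = (P.y ≠ 0) := by
        rw [ne_eq, map_eq_zero_iff _ (σ : M ≃+* M).injective]
      simp only [hsymx, hsymy, e1, e2]
      split_ifs
      · rfl
      · exact map_one _
  exact Val.mul (Val.pow hXval _) (Val.pow_self ℓ hB)

end Pool.Agent.Lib.MP_89bcae_ag.Sup.Lns
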