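import Mathlib
import Pool.Agent.Lib.MP_89bcae_ag.Lns.GBase
import Pool.Agent.Lib.MP_89bcae_ag.Lns.LA01

/-!
# The curve `y ^ ℓ = ∏ (x - α_i(t))` over `F(t)`
-/

open Polynomial IsDedekindDomain

open scoped Classical

namespace Pool.Agent.Lib.MP_89bcae_ag.Sup.Lns

universe u

variable {ι : Type} [Fintype ι] [LinearOrder ι]

section

variable {k : Type u} [Field k]

omit [LinearOrder ι] in
/-- The polynomial `∏ (x - α_i(t))`. -/
noncomputable def arr (α : ι → k[X]) : k[X][X] := ∏ i, (X - C (α i))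

/-- The hypotheses on `ℓ`, `α`, `ζ`. -/
structure AHyp (ℓ : ℕ) (α : ι → k[X]) (ζ : k) : Prop where
  prime : ℓ.Prime
  ne : (ℓ : k) ≠ 0
  zeta : IsPrimitiveRoot ζ ℓ
  cop : (Fintype.card ι).Coprime ℓ
  geom : AGeom α

/-- The polynomials `α_i` over `F`. -/
noncomputable def aF (F : Type u) [Field F] [Algebra k F] (α : ι → k[X]) : ι → F[X] :=
  fun i => (α i).map (algebraMap k F)

end

variable {k F L : Type u} [Field k] [Field F] [Algebra k F] [Field L] [Algebra F[X] L]
  {ℓ : ℕ} {α : ι → k[X]} {ζ : k}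

/-- The root `α_i(t)` in `A`. -/
noncomputable def rt (k F L A : Type u) [Field k] [Field F] [Algebra k F] [Field L]
    [Algebra F[X] L] [Field A] [Algebra L A] (α : ι → k[X]) (i : ι) : A := base k F L A (α i)

lemma AHyp.geomF (H : AHyp ℓ α ζ) : AGeom (aF F α) := H.geom.map (algebraMap k F)

lemma aeval_tA {A : Type u} [Field A] [Algebra L A] [Algebra F A] (hF : CompatF F L A)
    (p : F[X]) : aeval (tA F L A) p = algebraMap L A (algebraMap F[X] L p) := by
  induction p using Polynomial.induction_on' with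
  | add p q hp hq => rw [map_add, map_add, map_add, hp, hq]
  | monomial n a =>
    rw [← C_mul_X_pow_eq_monomial, map_mul, map_mul, map_mul, map_pow, map_pow, map_pow, aeval_C,
      aeval_X, hF a]
    rfl

lemma tA_inj [IsFractionRing F[X] L] {A : Type u} [Field A] [Algebra L A] [Algebra F A]
    (hF : CompatF F L A) {p q : F[X]} (h : aeval (tA F L A) p = aeval (tA F L A) q) : p = q := by
  rw [aeval_tA hF, aeval_tA hF] at h
  exact IsFractionRing.injective F[X] L ((algebraMap L A).injective h)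

omit [Fintype ι] [LinearOrder ι] in
lemma rt_eq {A : Type u} [Field A] [Algebra L A] [Algebra F A] (hF : CompatF F L A) (i : ι) :
    rt k F L A α i = aeval (tA F L A) (aF F α i) := by
  rw [aeval_tA hF]
  rfl

omit [LinearOrder ι] in
lemma cOver_arr {A : Type u} [Field A] [Algebra L A] [Algebra F A] (hF : CompatF F L A) :
    cOver k F L A (arr α) = lineP (aF F α) (tA F L A) := by
  rw [cOver_eq]
  unfold arr lineP
  rw [Polynomial.map_prod]
  refine Finset.prod_congr rfl fun i _ => ?_
  rw [Polynomial.map_sub, map_X, map_C, ← rt_eq hF]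
  rfl

omit [LinearOrder ι] in
lemma eval_arr {A : Type u} [Field A] [Algebra L A] (x : A) :
    (cOver k F L A (arr α)).eval x = ∏ i, (x - rt k F L A α i) := by
  rw [cOver_eq]
  unfold arr
  rw [Polynomial.map_prod, eval_prod]
  refine Finset.prod_congr rfl fun i _ => ?_
  rw [Polynomial.map_sub, map_X, map_C, eval_sub, eval_X, eval_C]
  rfl

omit [LinearOrder ι] in
lemma root_arr {A : Type u} [Field A] [Algebra L A] {x : A} :
    (cOver k F L A (arr α)).eval x = 0 ↔ ∃ i, x = rt k F L A α i := by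
  rw [eval_arr, Finset.prod_eq_zero_iff]
  constructor
  · rintro ⟨i, -, hi⟩
    exact ⟨i, sub_eq_zero.1 hi⟩
  · rintro ⟨i, hi⟩
    exact ⟨i, Finset.mem_univ i, sub_eq_zero.2 hi⟩

omit [LinearOrder ι] in
lemma root_rt {A : Type u} [Field A] [Algebra L A] (i : ι) :
    (cOver k F L A (arr α)).eval (rt k F L A α i) = 0 := root_arr.2 ⟨i, rfl⟩

lemma rt_injective [IsFractionRing F[X] L] (H : AHyp ℓ α ζ) (A : Type u) [Field A]
    [Algebra L A] : Function.Injective (rt k F L A α) := by
  intro i j hij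
  have h1 : base k F L A (α i) = base k F L A (α j) := hij
  have h2 : (α i).map (algebraMap k F) = (α j).map (algebraMap k F) :=
    IsFractionRing.injective F[X] L ((algebraMap L A).injective h1)
  have h3 : α i = α j := Polynomial.map_injective _ (algebraMap k F).injective h2
  exact H.geom.injective h3

omit [LinearOrder ι] in
private lemma ag_monic {A : Type u} [Field A] [Algebra L A] :
    cOver k F L A (arr α) = ∏ i, (X - C (rt k F L A α i)) := by
  rw [cOver_eq]
  unfold arr
  rw [Polynomial.map_prod]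
  refine Finset.prod_congr rfl fun i _ => ?_
  rw [Polynomial.map_sub, map_X, map_C]
  rfl

lemma isGood_arr [IsFractionRing F[X] L] (H : AHyp ℓ α ζ) (A : Type u) [Field A]
    [Algebra L A] [IsAlgClosed A] : IsGood ℓ (cOver k F L A (arr α)) := by
  refine ⟨inferInstance, H.prime, ?_, ?_, ?_⟩
  · have h1 : (base k F L A) (C (ℓ : k)) = (ℓ : A) := by
      rw [map_natCast C, map_natCast]
    have h2 : Function.Injective ((base k F L A).comp C) := RingHom.injective _
    intro h0
    apply H.ne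
    apply h2
    rw [map_zero]
    exact h1.trans h0
  · rw [ag_monic]
    exact Polynomial.separable_prod_X_sub_C_iff.2 (rt_injective H A)
  · rw [ag_monic, natDegree_prod_of_monic _ _ fun i _ => monic_X_sub_C _]
    simp only [natDegree_X_sub_C, Finset.sum_const, Finset.card_univ, smul_eq_mul, mul_one]
    exact H.cop

lemma AHyp.lhyp [IsFractionRing F[X] L] (H : AHyp ℓ α ζ) : LHyp ℓ k F L (arr α) ζ :=
  ⟨H.prime, H.ne, H.zeta, fun A _ _ _ => isGood_arr H A⟩

section

variable {Ω : Type u} [Field Ω] [Algebra L Ω]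

omit [Fintype ι] [LinearOrder ι] in
/-- The automorphisms over `k(t)` fix the roots. -/
lemma fix_rt (γ : AutO k F L Ω) (i : ι) : (γ : Ω ≃+* Ω) (rt k F L Ω α i) = rt k F L Ω α i :=
  γ.2 (α i)

omit [LinearOrder ι] in
lemma fix_root (γ : AutO k F L Ω) {θ : Ω} (hθ : (cOver k F L Ω (arr α)).eval θ = 0) :
    (γ : Ω ≃+* Ω) θ = θ := by
  obtain ⟨i, rfl⟩ := root_arr.1 hθ
  exact fix_rt γ i

omit [LinearOrder ι] in
/-- Functions on the set of indices give functions on `Ω`. -/
lemma exists_fun [IsFractionRing F[X] L] [LinearOrder ι] (H : AHyp ℓ α ζ) (e : ι → ℤ) :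
    ∃ n : Ω → ℤ, ∀ i, n (rt k F L Ω α i) = e i := by
  have hinj := rt_injective (F := F) (L := L) H Ω
  refine ⟨fun θ => if h : ∃ i, rt k F L Ω α i = θ then e h.choose else 0, fun i => ?_⟩
  have h : ∃ j, rt k F L Ω α j = rt k F L Ω α i := ⟨i, rfl⟩
  beta_reduce
  rw [dif_pos h, hinj h.choose_spec]

omit [LinearOrder ι] in
lemma symJ_ram_arr [hG : IsGood ℓ (cOver k F L Ω (arr α))] (γ : AutO k F L Ω) (n : Ω → ℤ) :
    symJ (toSym (arr α) γ) (ram n : JacOver ℓ (curveL k F L (arr α)) Ω) = ram n := by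
  rw [symJ_ram]
  refine ram_congr _ _ fun θ hθ => ?_
  have h1 : (((toSym (arr α) γ)⁻¹ : Sym (cOver k F L Ω (arr α))) : Ω ≃+* Ω) θ = θ := by
    have h2 : ((toSym (arr α) γ)⁻¹ : Sym (cOver k F L Ω (arr α))) = toSym (arr α) γ⁻¹ := by
      rw [map_inv]
    rw [h2]
    exact fix_root γ⁻¹ hθ
  rw [h1, sub_self]
  exact dvd_zero _

end

end Pool.Agent.Lib.MP_89bcae_ag.Sup.Lns
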