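import Mathlib
import Pool.Agent.Lib.MP_89bcae_ag.Lns.GBase

/-!
ROW G02 (120-220 lines). Cocycles under addition, `Z` and the action of `Aut(Ω/k(t))`.

PROOFS. `act_mul`: `conjG (γ γ')⁻¹ = conjG γ'⁻¹ ∘ conjG γ⁻¹`, `symJ` is functorial
(`CommRing.Pic.mapRingHom_comp_mapRingHom`; `symJ_mul`, `symJ_one` may be proved through `symJ_cl`).
`push ℓ f (σ : Ω →ₐ[L] Ω) = symJ (toSym (galA σ))` by definition (`push_eq`).
`IsTateCocycle` for `act γ c`: with `σ' = γ⁻¹ σ γ`, `γ c((στ)') = γ (c σ' + σ' c τ') = γ c σ' + σ γ c τ'`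
(`galA_conjG`). Local constancy: `conjG γ⁻¹` is continuous for the Krull topology: it suffices that for
every finite set `S` of elements of `Ω`, an automorphism fixing `γ (S)` is mapped to one which fixes `S`
(`krullTopology`; basis of neighbourhoods = fixing subgroups of finite extensions of `L`, and a finite
extension `L(S)` is mapped by `γ` to the finite extension `L(γ S)`); use
`IsLocallyConstant.comp_continuous`.
`Z`: `zJ_symJ` since `σ` fixes `ζ`.
-/

open Polynomial IsDedekindDomain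

open scoped Classical

namespace Pool.Agent.Lib.MP_89bcae_ag.Sup.Lns

universe u

variable {ℓ : ℕ}

variable {k F L Ω : Type u} [Field k] [Field F] [Algebra k F] [Field L] [Algebra F[X] L]
  [Field Ω] [Algebra L Ω] [IsAlgClosure k F] [IsFractionRing F[X] L] [IsAlgClosure L Ω]
  {P : k[X][X]} [hG : IsGood ℓ (cOver k F L Ω P)]

lemma push_eq (σ : Ω ≃ₐ[L] Ω) (Q : JacOver ℓ (curveL k F L P) Ω) :
    push ℓ (curveL k F L P) (σ : Ω →ₐ[L] Ω) Q = symJ (toSym P (galA k F σ)) Q := rfl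

lemma act_one (c : Coch ℓ k F L Ω P) : act (1 : AutO k F L Ω) c = c := by
  funext n σ
  unfold act
  rw [inv_one, map_one, map_one, MulAut.one_apply]
  exact symJ_one _

lemma act_mul (γ γ' : AutO k F L Ω) (c : Coch ℓ k F L Ω P) :
    act (γ * γ') c = act γ (act γ' c) := by
  funext n σ
  unfold act
  rw [mul_inv_rev, map_mul, map_mul, MulAut.mul_apply]
  exact symJ_mul _ _ _

lemma act_add (γ : AutO k F L Ω) (c c' : Coch ℓ k F L Ω P) :
    act γ (c + c') = act γ c + act γ c' := by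
  funext n σ
  exact map_add (symJ (toSym P γ)) _ _

lemma act_zero (γ : AutO k F L Ω) : act γ (0 : Coch ℓ k F L Ω P) = 0 := by
  funext n σ
  exact map_zero (symJ (toSym P γ))

lemma act_sub (γ : AutO k F L Ω) (c c' : Coch ℓ k F L Ω P) :
    act γ (c - c') = act γ c - act γ c' := by
  funext n σ
  exact map_sub (symJ (toSym P γ)) _ _

lemma act_zC (γ : AutO k F L Ω) (ζ : k) (hζ : (zA F L Ω ζ) ^ ℓ = 1)
    (c : Coch ℓ k F L Ω P) : act γ (zC ζ hζ c) = zC ζ hζ (act γ c) := by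
  funext n σ
  exact (zJ_symJ (zA F L Ω ζ) hζ (toSym P γ) (zA_fixed ζ γ) _).symm

lemma tc_zero : IsTateCocycle ℓ (curveL k F L P) (0 : Coch ℓ k F L Ω P) where
  zero _ := rfl
  smul _ _ := smul_zero _
  cocycle n σ τ := by
    change (0 : JacOver ℓ (curveL k F L P) Ω) = 0 + push ℓ (curveL k F L P) _ 0
    rw [map_zero, add_zero]
  locallyConstant _ := IsLocallyConstant.const _

lemma tc_add {c c' : Coch ℓ k F L Ω P}
    (hc : IsTateCocycle ℓ (curveL k F L P) c)
    (hc' : IsTateCocycle ℓ (curveL k F L P) c') :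
    IsTateCocycle ℓ (curveL k F L P) (c + c') where
  zero σ := by
    rw [Pi.add_apply, Pi.add_apply, hc.zero, hc'.zero, add_zero]
  smul n σ := by
    rw [Pi.add_apply, Pi.add_apply, Pi.add_apply, Pi.add_apply, smul_add, hc.smul, hc'.smul]
  cocycle n σ τ := by
    simp only [Pi.add_apply]
    rw [hc.cocycle, hc'.cocycle, map_add]
    abel
  locallyConstant n := (hc.locallyConstant n).add (hc'.locallyConstant n)

lemma tc_neg {c : Coch ℓ k F L Ω P}
    (hc : IsTateCocycle ℓ (curveL k F L P) c) :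
    IsTateCocycle ℓ (curveL k F L P) (-c) where
  zero σ := by
    rw [Pi.neg_apply, Pi.neg_apply, hc.zero, neg_zero]
  smul n σ := by
    rw [Pi.neg_apply, Pi.neg_apply, Pi.neg_apply, Pi.neg_apply, smul_neg, hc.smul]
  cocycle n σ τ := by
    simp only [Pi.neg_apply]
    rw [hc.cocycle, map_neg]
    abel
  locallyConstant n := (hc.locallyConstant n).neg

lemma tc_zC {c : Coch ℓ k F L Ω P}
    (hc : IsTateCocycle ℓ (curveL k F L P) c) (ζ : k) (hζ : (zA F L Ω ζ) ^ ℓ = 1) :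
    IsTateCocycle ℓ (curveL k F L P) (Lns.zC ζ hζ c) where
  zero σ := by
    change zJ (zA F L Ω ζ) hζ (c 0 σ) = 0
    rw [hc.zero, map_zero]
  smul n σ := by
    change ℓ • zJ (zA F L Ω ζ) hζ (c (n + 1) σ) = zJ (zA F L Ω ζ) hζ (c n σ)
    rw [← map_nsmul, hc.smul]
  cocycle n σ τ := by
    change zJ (zA F L Ω ζ) hζ (c n (σ * τ)) = zJ (zA F L Ω ζ) hζ (c n σ) +
      push ℓ (curveL k F L P) (σ : Ω →ₐ[L] Ω) (zJ (zA F L Ω ζ) hζ (c n τ))
    rw [hc.cocycle, map_add, push_eq, push_eq]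
    rw [zJ_symJ (zA F L Ω ζ) hζ (toSym P (galA k F σ)) (zA_fixed ζ (galA k F σ))]
  locallyConstant n := (hc.locallyConstant n).comp (zJ (zA F L Ω ζ) hζ)

private lemma G02_continuous (γ : AutO k F L Ω) :
    Continuous (conjG γ : (Ω ≃ₐ[L] Ω) → (Ω ≃ₐ[L] Ω)) := by
  have hmul : ∀ x : Ω, (γ : Ω ≃+* Ω) (((γ⁻¹ : AutO k F L Ω) : Ω ≃+* Ω) x) = x := fun x =>
    (γ : Ω ≃+* Ω).apply_symm_apply x
  refine continuous_of_continuousAt_one (conjG γ : MulAut (Ω ≃ₐ[L] Ω)) ?_
  unfold ContinuousAt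
  rw [map_one]
  intro U hU
  obtain ⟨K, hK, hKU⟩ := (krullTopology_mem_nhds_one_iff L Ω U).1 hU
  let b := Module.finBasis L K
  let S : Set Ω := Set.range fun i => ((γ⁻¹ : AutO k F L Ω) : Ω ≃+* Ω) (b i : Ω)
  have halg : Algebra.IsAlgebraic L Ω := IsAlgClosure.isAlgebraic
  have hfin : FiniteDimensional L (IntermediateField.adjoin L S) :=
    IntermediateField.finiteDimensional_adjoin fun x _ => halg.isAlgebraic x |>.isIntegral
  refine Filter.mem_map.2 ((krullTopology_mem_nhds_one_iff L Ω _).2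
    ⟨IntermediateField.adjoin L S, hfin, ?_⟩)
  intro σ hσ
  refine hKU ?_
  have h1 : ∀ i, (conjG γ σ) (b i : Ω) = b i := by
    intro i
    have h2 : σ (((γ⁻¹ : AutO k F L Ω) : Ω ≃+* Ω) (b i : Ω)) =
        ((γ⁻¹ : AutO k F L Ω) : Ω ≃+* Ω) (b i : Ω) :=
      (IntermediateField.mem_fixingSubgroup_iff _ _).1 hσ _
        (IntermediateField.subset_adjoin L S ⟨i, rfl⟩)
    have h3 := conjG_spec γ σ (((γ⁻¹ : AutO k F L Ω) : Ω ≃+* Ω) (b i : Ω))
    rw [h2, hmul] at h3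
    exact h3
  have h4 : (conjG γ σ).toLinearMap ∘ₗ K.val.toLinearMap = K.val.toLinearMap :=
    b.ext fun i => h1 i
  exact (IntermediateField.mem_fixingSubgroup_iff _ _).2 fun x hx =>
    LinearMap.congr_fun h4 ⟨x, hx⟩

lemma tc_act {c : Coch ℓ k F L Ω P}
    (hc : IsTateCocycle ℓ (curveL k F L P) c) (γ : AutO k F L Ω) :
    IsTateCocycle ℓ (curveL k F L P) (Lns.act γ c) where
  zero σ := by
    change symJ (toSym P γ) (c 0 (conjG γ⁻¹ σ)) = 0
    rw [hc.zero, map_zero]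
  smul n σ := by
    change ℓ • symJ (toSym P γ) (c (n + 1) (conjG γ⁻¹ σ)) =
      symJ (toSym P γ) (c n (conjG γ⁻¹ σ))
    rw [← map_nsmul, hc.smul]
  cocycle n σ τ := by
    change symJ (toSym P γ) (c n (conjG γ⁻¹ (σ * τ))) =
      symJ (toSym P γ) (c n (conjG γ⁻¹ σ)) +
        push ℓ (curveL k F L P) (σ : Ω →ₐ[L] Ω) (symJ (toSym P γ) (c n (conjG γ⁻¹ τ)))
    rw [map_mul, hc.cocycle, map_add, push_eq, push_eq, ← symJ_mul, ← symJ_mul, ← map_mul,
      ← map_mul, galA_conjG]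
    have e : γ * (γ⁻¹ * galA k F σ * γ⁻¹⁻¹) = galA k F σ * γ := by group
    rw [e]
  locallyConstant n :=
    ((hc.locallyConstant n).comp_continuous (G02_continuous γ⁻¹)).comp (symJ (toSym P γ))

lemma tc_pow_smul {c : Coch ℓ k F L Ω P}
    (hc : IsTateCocycle ℓ (curveL k F L P) c) (n : ℕ) (σ : Ω ≃ₐ[L] Ω) :
    ℓ ^ n • c n σ = 0 := by
  induction n with
  | zero => rw [pow_zero, one_smul, hc.zero]
  | succ n ih => rw [pow_succ, mul_smul, hc.smul, ih]

end Pool.Agent.Lib.MP_89bcae_ag.Sup.Lns
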