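import Mathlib
import Pool.Agent.Lib.MP_89bcae_ag.Lns.G02

/-!
# The trivial cocycles, the torsion cocycles and the invariant Selmer cocycles
-/

open Polynomial IsDedekindDomain

open scoped Classical

namespace Pool.Agent.Lib.MP_89bcae_ag.Sup.Lns

universe u

variable {k F L Ω : Type u} [Field k] [Field F] [Algebra k F] [Field L] [Algebra F[X] L]
  [Field Ω] [Algebra L Ω] [IsAlgClosure k F] [IsFractionRing F[X] L] [IsAlgClosure L Ω]
  {ℓ : ℕ} {P : k[X][X]} [hG : IsGood ℓ (cOver k F L Ω P)]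

/-- The trivial Tate cocycles. -/
def Trc (c : Coch ℓ k F L Ω P) : Prop :=
  IsTateCocycle ℓ (curveL k F L P) c ∧ IsTrivial ℓ (curveL k F L P) c

/-- The Tate cocycles whose class is torsion. -/
def TTc (c : Coch ℓ k F L Ω P) : Prop :=
  IsTateCocycle ℓ (curveL k F L P) c ∧ ∃ s : ℕ, Trc (ℓ ^ s • c)

/-- The locally trivial Tate cocycles whose class is fixed, up to torsion, by a power of each
automorphism. -/
def WWc (c : Coch ℓ k F L Ω P) : Prop :=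
  IsTateCocycle ℓ (curveL k F L P) c ∧ LTc c ∧
    ∀ γ : AutO k F L Ω, ∃ M : ℕ, 0 < M ∧ TTc (act (γ ^ M) c - c)

omit [IsAlgClosure k F] [IsFractionRing F[X] L] [IsAlgClosure L Ω] hG in
lemma tc_smul_nat {c : Coch ℓ k F L Ω P}
    (hc : IsTateCocycle ℓ (curveL k F L P) c) (m : ℕ) :
    IsTateCocycle ℓ (curveL k F L P) (m • c : Coch ℓ k F L Ω P) := by
  refine ⟨fun σ => ?_, fun n σ => ?_, fun n σ τ => ?_, fun n => ?_⟩
  · change m • c 0 σ = 0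
    rw [hc.zero, smul_zero]
  · change ℓ • m • c (n + 1) σ = m • c n σ
    rw [smul_comm, hc.smul]
  · change m • c n (σ * τ) = m • c n σ + push ℓ (curveL k F L P) (σ : Ω →ₐ[L] Ω) (m • c n τ)
    rw [hc.cocycle, smul_add, map_nsmul]
  · exact (hc.locallyConstant n).comp (fun x => m • x)

lemma Trc.zero : Trc (0 : Coch ℓ k F L Ω P) := by
  refine ⟨tc_zero, fun n => ⟨0, smul_zero _, fun σ => ?_⟩⟩
  rw [map_zero, sub_zero]
  rfl

lemma Trc.add {c c' : Coch ℓ k F L Ω P} (hc : Trc c) (hc' : Trc c') : Trc (c + c') := by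
  refine ⟨tc_add hc.1 hc'.1, fun n => ?_⟩
  obtain ⟨A, hA, hcA⟩ := hc.2 n
  obtain ⟨B, hB, hcB⟩ := hc'.2 n
  refine ⟨A + B, by rw [smul_add, hA, hB, add_zero], fun σ => ?_⟩
  change c n σ + c' n σ = _
  rw [hcA σ, hcB σ, map_add]
  abel

lemma Trc.neg {c : Coch ℓ k F L Ω P} (hc : Trc c) : Trc (-c) := by
  refine ⟨tc_neg hc.1, fun n => ?_⟩
  obtain ⟨A, hA, hcA⟩ := hc.2 n
  refine ⟨-A, by rw [smul_neg, hA, neg_zero], fun σ => ?_⟩
  change -(c n σ) = _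
  rw [hcA σ, map_neg]
  abel

lemma Trc.sub {c c' : Coch ℓ k F L Ω P} (hc : Trc c) (hc' : Trc c') : Trc (c - c') := by
  rw [sub_eq_add_neg]
  exact hc.add hc'.neg

omit hG in
lemma Trc.smul_nat {c : Coch ℓ k F L Ω P} (hc : Trc c) (m : ℕ) : Trc (m • c) := by
  refine ⟨tc_smul_nat hc.1 m, fun n => ?_⟩
  obtain ⟨A, hA, hcA⟩ := hc.2 n
  refine ⟨m • A, by rw [smul_comm, hA, smul_zero], fun σ => ?_⟩
  change m • c n σ = _
  rw [hcA σ, map_nsmul, smul_sub]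

lemma Trc.zC {c : Coch ℓ k F L Ω P} (hc : Trc c) (ζ : k) (hζ : (zA F L Ω ζ) ^ ℓ = 1) :
    Trc (Lns.zC ζ hζ c) := by
  refine ⟨tc_zC hc.1 ζ hζ, fun n => ?_⟩
  obtain ⟨A, hA, hcA⟩ := hc.2 n
  refine ⟨zJ (zA F L Ω ζ) hζ A, by rw [← map_nsmul, hA, map_zero], fun σ => ?_⟩
  change zJ (zA F L Ω ζ) hζ (c n σ) = _
  rw [hcA σ, map_sub, push_eq, push_eq, zJ_symJ]
  exact zA_fixed ζ (galA k F σ)

lemma Trc.act {c : Coch ℓ k F L Ω P} (hc : Trc c) (γ : AutO k F L Ω) :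
    Trc (Lns.act γ c) := by
  refine ⟨tc_act hc.1 γ, fun n => ?_⟩
  obtain ⟨A, hA, hcA⟩ := hc.2 n
  refine ⟨symJ (toSym P γ) A, by rw [← map_nsmul, hA, map_zero], fun σ => ?_⟩
  change symJ (toSym P γ) (c n (conjG γ⁻¹ σ)) = _
  rw [hcA, map_sub, push_eq, push_eq, galA_conjG, ← symJ_mul, ← symJ_mul, ← map_mul, ← map_mul]
  have h : γ * (γ⁻¹ * galA k F σ * γ⁻¹⁻¹) = galA k F σ * γ := by group
  rw [h]

lemma act_galA_sub {c : Coch ℓ k F L Ω P}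
    (hc : IsTateCocycle ℓ (curveL k F L P) c) (h : Ω ≃ₐ[L] Ω) :
    Trc (act (galA k F h) c - c) := by
  refine ⟨?_, fun n => ?_⟩
  · rw [sub_eq_add_neg]
    exact tc_add (tc_act hc _) (tc_neg hc)
  refine ⟨c n h, tc_pow_smul hc n h, fun σ => ?_⟩
  change symJ (toSym P (galA k F h)) (c n (conjG (galA k F h)⁻¹ σ)) - c n σ = _
  have h1 : conjG (galA k F h : AutO k F L Ω)⁻¹ σ = h⁻¹ * σ * h := by
    rw [← map_inv, conjG_galA, inv_inv]
  have h2 : h * (h⁻¹ * σ * h) = σ * h := by group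
  have h3 := hc.cocycle n h (h⁻¹ * σ * h)
  rw [h2, hc.cocycle n σ h] at h3
  rw [h1, ← push_eq]
  rw [eq_comm, ← sub_eq_iff_eq_add'] at h3
  rw [← h3]
  abel

/-- If two automorphisms have the same restriction to `F`, they act in the same way on classes. -/
lemma act_sub_act_of_resF_eq {c : Coch ℓ k F L Ω P}
    (hc : IsTateCocycle ℓ (curveL k F L P) c) {γ γ' : AutO k F L Ω}
    (h : resF γ = resF γ') : Trc (act γ c - act γ' c) := by
  obtain ⟨σ, hσ⟩ := exists_galA_of_resF_eq_one (γ'⁻¹ * γ) (by rw [map_mul, map_inv, h]; group)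
  have h1 : γ = γ' * galA k F σ := by rw [hσ]; group
  have h2 : act γ c - act γ' c = act γ' (act (galA k F σ) c - c) := by
    rw [act_sub, ← act_mul, ← h1]
  rw [h2]
  exact (act_galA_sub hc σ).act γ'

lemma sum_zC_mem (ζ : k) (hζ : IsPrimitiveRoot (zA F L Ω ζ) ℓ) (c : Coch ℓ k F L Ω P) :
    ∑ i ∈ Finset.range ℓ, (zC ζ hζ.pow_eq_one)^[i] c = 0 := by
  have hit : ∀ (i : ℕ) (n : ℕ) (σ : Ω ≃ₐ[L] Ω), ((zC ζ hζ.pow_eq_one)^[i] c) n σ =
      (zJ (zA F L Ω ζ) hζ.pow_eq_one)^[i] (c n σ) := by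
    intro i
    induction i with
    | zero =>
      intro n σ
      rfl
    | succ i ih =>
      intro n σ
      rw [Function.iterate_succ_apply', Function.iterate_succ_apply', ← ih n σ]
      rfl
  funext n σ
  rw [Finset.sum_apply, Finset.sum_apply]
  simp only [hit]
  exact sum_zJ _ hζ _

/-! Torsion cocycles -/

omit hG in
lemma Trc.tt {c : Coch ℓ k F L Ω P} (hc : Trc c) : TTc c :=
  ⟨hc.1, 0, by rw [pow_zero, one_smul]; exact hc⟩

lemma TTc.zero : TTc (0 : Coch ℓ k F L Ω P) := Trc.zero.tt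

lemma TTc.add {c c' : Coch ℓ k F L Ω P} (hc : TTc c) (hc' : TTc c') : TTc (c + c') := by
  obtain ⟨h1, s, h2⟩ := hc
  obtain ⟨h1', s', h2'⟩ := hc'
  refine ⟨tc_add h1 h1', s + s', ?_⟩
  have h3 : ℓ ^ (s + s') • (c + c') = ℓ ^ s' • (ℓ ^ s • c) + ℓ ^ s • (ℓ ^ s' • c') := by
    rw [smul_add, ← mul_smul, ← mul_smul, ← pow_add, ← pow_add, add_comm s' s]
  rw [h3]
  exact (h2.smul_nat _).add (h2'.smul_nat _)

lemma TTc.neg {c : Coch ℓ k F L Ω P} (hc : TTc c) : TTc (-c) := by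
  obtain ⟨h1, s, h2⟩ := hc
  refine ⟨tc_neg h1, s, ?_⟩
  rw [smul_neg]
  exact h2.neg

lemma TTc.sub {c c' : Coch ℓ k F L Ω P} (hc : TTc c) (hc' : TTc c') : TTc (c - c') := by
  rw [sub_eq_add_neg]
  exact hc.add hc'.neg

lemma TTc.zC {c : Coch ℓ k F L Ω P} (hc : TTc c) (ζ : k) (hζ : (zA F L Ω ζ) ^ ℓ = 1) :
    TTc (Lns.zC ζ hζ c) := by
  obtain ⟨h1, s, h2⟩ := hc
  refine ⟨tc_zC h1 ζ hζ, s, ?_⟩
  rw [← map_nsmul]
  exact h2.zC ζ hζ

lemma act_nsmul (γ : AutO k F L Ω) (c : Coch ℓ k F L Ω P) (m : ℕ) :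
    act γ (m • c) = m • act γ c := by
  funext n σ
  exact map_nsmul (symJ (toSym P γ)) _ _

lemma TTc.act {c : Coch ℓ k F L Ω P} (hc : TTc c) (γ : AutO k F L Ω) :
    TTc (Lns.act γ c) := by
  obtain ⟨h1, s, h2⟩ := hc
  refine ⟨tc_act h1 γ, s, ?_⟩
  rw [← act_nsmul]
  exact h2.act γ

end Pool.Agent.Lib.MP_89bcae_ag.Sup.Lns
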