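import Mathlib
import Pool.Agent.Lib.MP_89bcae_ag.Lns.G04

/-!
ROW G05 (150-250 lines). Local triviality is stable under the action of `Aut(Ω/k(t))`.

STATEMENT: `LTc c → LTc (act γ c)`. PROOF. Let `U = resF γ`, `a` in `F`, `K = (plc a).adicCompletion L`,
`M` an algebraic closure of `K`, `j : Ω → M` over `L`. Let `b = U⁻¹ a`,
`K' = (plc b).adicCompletion L` and `φ : K' ≃ K` with `φ (x) = coefL U x` for `x` in `L`
(`exists_adic_equiv`). Let `M'` be the field `M` with the `K'`-algebra structure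
`K' → K → M` and the `L`-algebra structure through `K'`, i.e. `x ↦ coefL U x` (`L → M`): `M'` is an
algebraic closure of `K'`. `j' = j ∘ γ : Ω → M'` is an `L`-algebra homomorphism, since
`γ x = coefL U x` on `L`. Apply the local triviality of `c n` at `b` to `M'`, `j'`: there is `Q'` in
`J(M')` with `j' (c n (g'')) = g Q' - Q'` whenever `g` in `Aut(M'/K') = Aut(M/K)` and
`j' ∘ g'' = g ∘ j'`, i.e. `g'' = γ⁻¹ g' γ` if `j ∘ g' = g ∘ j`. The curves over `M` and `M'` have the same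
equation (`coefL U` fixes the coefficients in `k(t)`), so `Q'` may be regarded in `J(M)` and
`j ((act γ c) n g') = j (γ (c n (γ⁻¹ g' γ))) = j' (c n (γ⁻¹ g' γ)) = g Q' - Q'`.
See `isLocallyTrivial_conj_aux` in `Pool/Agent/Lib/MP_89bcae_ag/LT8.lean` for the same argument for
elliptic curves (use a general auxiliary lemma where `K'`, `M'` are arbitrary types with the
relevant maps, then specialize with `letI`).
-/

open Polynomial IsDedekindDomain

open scoped Classical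

namespace Pool.Agent.Lib.MP_89bcae_ag.Sup.Lns

universe u

private lemma G05_jacMap_congr (ℓ : ℕ) {A B : Type u} [Field A] [Field B] {σ τ : A →+* B}
    (hst : σ = τ) {f : A[X]} {f' : B[X]} (h : f.map σ = f') (h' : f.map τ = f') (Q : Jac ℓ f) :
    jacMap ℓ σ h Q = jacMap ℓ τ h' Q := by
  subst hst
  rfl

private lemma G05_exists_conj {L Ω : Type u} [Field L] [Field Ω] [Algebra L Ω]
    (s : L ≃+* L) (γ : Ω ≃+* Ω)
    (hγ : ∀ x : L, γ (algebraMap L Ω x) = algebraMap L Ω (s x)) (h : Ω ≃ₐ[L] Ω) :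
    ∃ g : Ω ≃ₐ[L] Ω, ∀ x, γ (g x) = h (γ x) := by
  refine ⟨AlgEquiv.ofRingEquiv (f := (γ.trans h.toRingEquiv).trans γ.symm) ?_, ?_⟩
  · intro y
    change γ.symm (h (γ (algebraMap L Ω y))) = algebraMap L Ω y
    rw [hγ, h.commutes, ← hγ, RingEquiv.symm_apply_apply]
  · intro x
    change γ (γ.symm (h (γ x))) = h (γ x)
    rw [RingEquiv.apply_symm_apply]

private lemma G05_aux {ℓ : ℕ} {L Ω : Type u} [Field L] [Field Ω] [Algebra L Ω] {f : L[X]}
    {c c' : (Ω ≃ₐ[L] Ω) → JacOver ℓ f Ω}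
    {Lv Lv' : Type u} [Field Lv] [Algebra L Lv] [Field Lv'] [Algebra L Lv'] (s : L ≃+* L)
    (hs : f.map (s : L →+* L) = f) (φ : Lv ≃+* Lv')
    (γ : Ω ≃+* Ω) (hγf : (f.map (algebraMap L Ω)).map (γ : Ω →+* Ω) = f.map (algebraMap L Ω))
    (hγ : ∀ x : L, γ (algebraMap L Ω x) = algebraMap L Ω (s x))
    (hcc' : ∀ σ σ' : Ω ≃ₐ[L] Ω, (∀ x, γ (σ' x) = σ (γ x)) →
      c' σ = jacMap ℓ (γ : Ω →+* Ω) hγf (c σ'))
    (h : IsLocallyTrivial ℓ f c Lv)
    {M : Type u} [Field M] [Algebra Lv' M] [Algebra L M] [IsScalarTower L Lv' M]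
    {M' : Type u} [Field M'] [Algebra Lv M'] [IsAlgClosure Lv M'] [Algebra L M']
    [IsScalarTower L Lv M'] (e : M' ≃+* M)
    (he : ∀ x : Lv, e (algebraMap Lv M' x) = algebraMap Lv' M (φ x))
    (he' : ∀ x : L, e (algebraMap L M' x) = algebraMap L M (s x))
    (j : Ω →ₐ[L] M) :
    ∃ Q : JacOver ℓ f M,
      ∀ (g : M ≃ₐ[Lv'] M) (g' : Ω ≃ₐ[L] Ω), (∀ x, j (g' x) = g (j x)) →
        push ℓ f j (c' g') = push ℓ f (g.restrictScalars L : M →ₐ[L] M) Q - Q := by
  have hef : (f.map (algebraMap L M')).map (e : M' →+* M) = f.map (algebraMap L M) := by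
    have h1 : (e : M' →+* M).comp (algebraMap L M') = (algebraMap L M).comp (s : L →+* L) :=
      RingHom.ext fun x => he' x
    rw [Polynomial.map_map, h1, ← Polynomial.map_map, hs]
  -- the embedding of `Ω` in `M'`
  let j' : Ω →ₐ[L] M' :=
    { toRingHom := (e.symm : M →+* M').comp ((j : Ω →+* M).comp (γ : Ω →+* Ω))
      commutes' := fun x => by
        change e.symm (j (γ (algebraMap L Ω x))) = algebraMap L M' x
        rw [hγ, j.commutes, ← he', RingEquiv.symm_apply_apply] }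
  have hj' : ∀ x, e (j' x) = j (γ x) := fun x => by
    change e (e.symm (j (γ x))) = _
    rw [RingEquiv.apply_symm_apply]
  obtain ⟨Q₀, hQ₀⟩ := h M' j'
  refine ⟨jacMap ℓ (e : M' →+* M) hef Q₀, fun g g' hg => ?_⟩
  -- the conjugates of `g` and `g'`
  let s₀ : M' ≃ₐ[Lv] M' := AlgEquiv.ofRingEquiv (f := (e.trans g.toRingEquiv).trans e.symm) (by
    intro y
    change e.symm (g (e (algebraMap Lv M' y))) = algebraMap Lv M' y
    rw [he, g.commutes, ← he, RingEquiv.symm_apply_apply])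
  have hs₀ : ∀ x, e (s₀ x) = g (e x) := fun x => by
    change e (e.symm (g (e x))) = _
    rw [RingEquiv.apply_symm_apply]
  obtain ⟨s', hs'⟩ := G05_exists_conj s γ hγ g'
  have hss : ∀ x, j' (s' x) = s₀ (j' x) := by
    intro x
    apply e.injective
    rw [hj', hs', hg, hs₀, hj']
  have h1 := hQ₀ s₀ s' hss
  have hc1 : ((j : Ω →+* M).comp (γ : Ω →+* Ω)) = (e : M' →+* M).comp (j' : Ω →+* M') :=
    RingHom.ext fun x => (hj' x).symm
  have hc2 : ((e : M' →+* M).comp ((s₀.restrictScalars L : M' →ₐ[L] M') : M' →+* M')) =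
      ((g.restrictScalars L : M →ₐ[L] M) : M →+* M).comp (e : M' →+* M) :=
    RingHom.ext fun x => hs₀ x
  have hf1 : (f.map (algebraMap L Ω)).map ((j : Ω →+* M).comp (γ : Ω →+* Ω)) =
      f.map (algebraMap L M) := by
    rw [← Polynomial.map_map, hγf, Polynomial.map_map, AlgHom.comp_algebraMap]
  have hf2 : (f.map (algebraMap L M')).map
      (((g.restrictScalars L : M →ₐ[L] M) : M →+* M).comp (e : M' →+* M)) =
      f.map (algebraMap L M) := by
    rw [← Polynomial.map_map, hef, Polynomial.map_map, AlgHom.comp_algebraMap]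
  have e1 : push ℓ f j (c' g') = jacMap ℓ (e : M' →+* M) hef (push ℓ f j' (c s')) := by
    rw [hcc' g' s' hs']
    unfold push
    rw [jacMap_jacMap ℓ (γ : Ω →+* Ω) (j : Ω →+* M) hγf _ hf1,
      jacMap_jacMap ℓ (j' : Ω →+* M') (e : M' →+* M) _ hef (hc1 ▸ hf1)]
    exact G05_jacMap_congr ℓ hc1 _ _ _
  have e2 : jacMap ℓ (e : M' →+* M) hef
      (push ℓ f (s₀.restrictScalars L : M' →ₐ[L] M') Q₀) =
      push ℓ f (g.restrictScalars L : M →ₐ[L] M) (jacMap ℓ (e : M' →+* M) hef Q₀) := by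
    unfold push
    rw [jacMap_jacMap ℓ _ (e : M' →+* M) _ hef (hc2.symm ▸ hf2),
      jacMap_jacMap ℓ (e : M' →+* M) _ hef _ hf2]
    exact G05_jacMap_congr ℓ hc2 _ _ _
  rw [e1, h1, map_sub, e2]

private lemma G05_isAlgClosure {K K' M : Type u} [Field K] [Field K'] [Field M] [Algebra K' M]
    [IsAlgClosure K' M] [Algebra K M] (φ : K ≃+* K')
    (h : ∀ x, algebraMap K M x = algebraMap K' M (φ x)) : IsAlgClosure K M := by
  have hac : IsAlgClosed M := IsAlgClosure.isAlgClosed K'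
  have halg : Algebra.IsAlgebraic K' M := IsAlgClosure.isAlgebraic
  refine ⟨hac, ⟨fun x => ?_⟩⟩
  obtain ⟨p, hp0, hp⟩ := halg.isAlgebraic x
  refine ⟨p.map (φ.symm : K' →+* K), (Polynomial.map_ne_zero_iff φ.symm.injective).mpr hp0, ?_⟩
  have e1 : (algebraMap K M).comp (φ.symm : K' →+* K) = algebraMap K' M :=
    RingHom.ext fun x => by
      change algebraMap K M (φ.symm x) = algebraMap K' M x
      rw [h, RingEquiv.apply_symm_apply]
  rw [aeval_def, eval₂_map, e1]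
  exact hp

private lemma G05_trans {ℓ : ℕ} {L Ω : Type u} [Field L] [Field Ω] [Algebra L Ω] {f : L[X]}
    {c c' : (Ω ≃ₐ[L] Ω) → JacOver ℓ f Ω}
    {Lv Lv' : Type u} [Field Lv] [Algebra L Lv] [Field Lv'] [Algebra L Lv'] (s : L ≃+* L)
    (hs : f.map (s : L →+* L) = f) (φ : Lv ≃+* Lv')
    (hφ : ∀ x : L, φ (algebraMap L Lv x) = algebraMap L Lv' (s x))
    (γ : Ω ≃+* Ω) (hγf : (f.map (algebraMap L Ω)).map (γ : Ω →+* Ω) = f.map (algebraMap L Ω))
    (hγ : ∀ x : L, γ (algebraMap L Ω x) = algebraMap L Ω (s x))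
    (hcc' : ∀ σ σ' : Ω ≃ₐ[L] Ω, (∀ x, γ (σ' x) = σ (γ x)) →
      c' σ = jacMap ℓ (γ : Ω →+* Ω) hγf (c σ'))
    (h : IsLocallyTrivial ℓ f c Lv) : IsLocallyTrivial ℓ f c' Lv' := by
  intro M _ i1 i2 i3 i4 j
  have htow : ∀ x : L, algebraMap L M x = algebraMap Lv' M (algebraMap L Lv' x) := fun x =>
    IsScalarTower.algebraMap_apply L Lv' M x
  let ιv : Lv' →+* M := algebraMap Lv' M
  let ιL : L →+* M := algebraMap L M
  let a1 : Algebra Lv M := (ιv.comp (φ : Lv →+* Lv')).toAlgebra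
  let a2 : Algebra L M := (ιL.comp (s : L →+* L)).toAlgebra
  have a3 : @IsScalarTower L Lv M _ a1.toSMul a2.toSMul :=
    @IsScalarTower.of_algebraMap_eq L Lv M _ _ _ _ a1 a2 (fun x => by
      change ιL (s x) = ιv (φ (algebraMap L Lv x))
      rw [hφ]
      exact htow (s x))
  have a5 := @G05_isAlgClosure Lv Lv' M _ _ _ i1 i2 a1 φ (fun x => rfl)
  exact @G05_aux ℓ L Ω _ _ _ f c c' Lv Lv' _ _ _ _ s hs φ γ hγf hγ hcc' h M _ i1 i3 i4 M _ a1 a5 a2
    a3 (RingEquiv.refl M) (fun x => rfl) (fun x => rfl) j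

variable {k F L Ω : Type u} [Field k] [Field F] [Algebra k F] [Field L] [Algebra F[X] L]
  [Field Ω] [Algebra L Ω] [IsAlgClosure k F] [IsFractionRing F[X] L] [IsAlgClosure L Ω]
  {ℓ : ℕ} {P : k[X][X]} [hG : IsGood ℓ (cOver k F L Ω P)]

private lemma G05_coefL_base (U : F ≃ₐ[k] F) (p : k[X]) :
    coefL L (U : F ≃+* F) (base k F L L p) = base k F L L p := by
  change coefL L (U : F ≃+* F) (algebraMap F[X] L (p.map (algebraMap k F))) =
    algebraMap F[X] L (p.map (algebraMap k F))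
  rw [coefL_algebraMap, Polynomial.map_map]
  congr 2
  exact RingHom.ext fun x => U.commutes x

private lemma G05_coefL_curvePoly (U : F ≃ₐ[k] F) :
    (curveL k F L P).map (coefL L (U : F ≃+* F) : L →+* L) = curveL k F L P := by
  unfold curveL
  have h1 : ∀ p : k[X], (coefL L (U : F ≃+* F) : L →+* L) (base k F L L p) = base k F L L p :=
    fun p => G05_coefL_base U p
  have h2 : (coefL L (U : F ≃+* F) : L →+* L).comp (base k F L L) =
      base k F L L := RingHom.ext fun x => h1 x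
  rw [Polynomial.map_map, h2]

private lemma G05_gamma (γ : AutO k F L Ω) (x : L) :
    (γ : Ω ≃+* Ω) (algebraMap L Ω x) =
      algebraMap L Ω (coefL L (resF γ : F ≃+* F) x) := by
  obtain ⟨p, q, hq, rfl⟩ := IsFractionRing.div_surjective (A := F[X]) x
  rw [map_div₀, map_div₀, map_div₀, map_div₀, coefL_algebraMap, coefL_algebraMap, resF_spec,
    resF_spec]
  rfl

theorem LTc.act {c : Coch ℓ k F L Ω P} (hc : LTc c) (γ : AutO k F L Ω) :
    LTc (Lns.act γ c) := by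
  intro a n
  obtain ⟨b, rfl⟩ := (resF γ : F ≃+* F).surjective a
  obtain ⟨φ, hφ, -⟩ := exists_adic_equiv L (resF γ : F ≃+* F) b
  refine G05_trans (coefL L (resF γ : F ≃+* F)) (G05_coefL_curvePoly (resF γ)) φ hφ
    (γ : Ω ≃+* Ω) (toSym P γ).2 (G05_gamma γ) ?_ (hc b n)
  intro σ σ' hσ
  have h1 : conjG γ⁻¹ σ = σ' := by
    apply AlgEquiv.ext
    intro y
    have h2 := conjG_spec γ⁻¹ σ ((γ : Ω ≃+* Ω) y)
    have h3 : ∀ z : Ω, ((γ⁻¹ : AutO k F L Ω) : Ω ≃+* Ω) ((γ : Ω ≃+* Ω) z) = z := fun z =>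
      (γ : Ω ≃+* Ω).symm_apply_apply z
    rw [h3, ← hσ, h3] at h2
    exact h2
  change symJ (toSym P γ) (c n (conjG γ⁻¹ σ)) = _
  rw [h1]
  rfl

end Pool.Agent.Lib.MP_89bcae_ag.Sup.Lns
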