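import Mathlib
import Pool.Agent.Lib.MP_89bcae_ag.Lns.G05

/-!
ROW G06 (80-160 lines). The group of the invariant Selmer cocycles and its subgroup of trivial ones.

PROOFS. Sum: if `act (γ^M) c - c` and `act (γ^M') c' - c'` are trivial, so are
`act (γ^(M M')) c - c` and `act (γ^(M M')) c' - c'` (telescoping:
`act (γ^(M (i+1))) c - act (γ^M) c = act (γ^M) (act (γ^(M i)) c - c)`). `act γ' c`:
`γ^M γ' c - γ' c = γ' ((γ'⁻¹ γ γ')^M c - c)`. Trivial cocycles: `act (γ^M) c - c` is trivial for `M = 1`.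
-/

open Polynomial IsDedekindDomain

open scoped Classical

namespace Pool.Agent.Lib.MP_89bcae_ag.Sup.Lns

universe u

variable {k F L Ω : Type u} [Field k] [Field F] [Algebra k F] [Field L] [Algebra F[X] L]
  [Field Ω] [Algebra L Ω] [IsAlgClosure k F] [IsFractionRing F[X] L] [IsAlgClosure L Ω]
  {ℓ : ℕ} {P : k[X][X]} [hG : IsGood ℓ (cOver k F L Ω P)]

/-- Multiples of the exponent. -/
lemma TTc.act_pow_mul {c : Coch ℓ k F L Ω P}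
    (hc : IsTateCocycle ℓ (curveL k F L P) c) {γ : AutO k F L Ω} {M : ℕ}
    (h : TTc (Lns.act (γ ^ M) c - c)) (N : ℕ) : TTc (Lns.act (γ ^ (M * N)) c - c) := by
  induction N with
  | zero =>
    rw [Nat.mul_zero, pow_zero, act_one, sub_self]
    exact TTc.zero
  | succ N ih =>
    have e : Lns.act (γ ^ (M * (N + 1))) c - c =
        Lns.act (γ ^ (M * N)) (Lns.act (γ ^ M) c - c) + (Lns.act (γ ^ (M * N)) c - c) := by
      rw [Nat.mul_succ, pow_add, act_mul, act_sub]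
      abel
    rw [e]
    exact (h.act _).add ih

lemma TTc.ww {c : Coch ℓ k F L Ω P} (hc : TTc c) : WWc c := by
  refine ⟨hc.1, hc.lt, fun γ => ⟨1, one_pos, ?_⟩⟩
  rw [pow_one]
  exact (hc.act γ).sub hc

lemma WWc.add {c c' : Coch ℓ k F L Ω P} (hc : WWc c) (hc' : WWc c') : WWc (c + c') := by
  refine ⟨tc_add hc.1 hc'.1, hc.2.1.add hc'.2.1, fun γ => ?_⟩
  obtain ⟨M, hM, h⟩ := hc.2.2 γ
  obtain ⟨M', hM', h'⟩ := hc'.2.2 γ
  refine ⟨M * M', Nat.mul_pos hM hM', ?_⟩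
  have h1 : TTc (Lns.act (γ ^ (M * M')) c - c) := TTc.act_pow_mul hc.1 h M'
  have h2 : TTc (Lns.act (γ ^ (M' * M)) c' - c') := TTc.act_pow_mul hc'.1 h' M
  rw [Nat.mul_comm M' M] at h2
  have e : Lns.act (γ ^ (M * M')) (c + c') - (c + c') =
      (Lns.act (γ ^ (M * M')) c - c) + (Lns.act (γ ^ (M * M')) c' - c') := by
    rw [act_add]
    abel
  rw [e]
  exact h1.add h2

lemma WWc.neg {c : Coch ℓ k F L Ω P} (hc : WWc c) : WWc (-c) := by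
  refine ⟨tc_neg hc.1, hc.2.1.neg, fun γ => ?_⟩
  obtain ⟨M, hM, h⟩ := hc.2.2 γ
  refine ⟨M, hM, ?_⟩
  have e1 : Lns.act (γ ^ M) (-c) = -Lns.act (γ ^ M) c := by
    have h1 := act_sub (γ ^ M) (0 : Coch ℓ k F L Ω P) c
    rwa [act_zero, zero_sub, zero_sub] at h1
  have e : Lns.act (γ ^ M) (-c) - -c = -(Lns.act (γ ^ M) c - c) := by
    rw [e1]
    abel
  rw [e]
  exact h.neg

lemma WWc.sub {c c' : Coch ℓ k F L Ω P} (hc : WWc c) (hc' : WWc c') : WWc (c - c') := by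
  rw [sub_eq_add_neg]
  exact hc.add hc'.neg

lemma WWc.zC {ζ : k} (H : LHyp ℓ k F L P ζ) {c : Coch ℓ k F L Ω P} (hc : WWc c)
    (hζ : (zA F L Ω ζ) ^ ℓ = 1) : WWc (Lns.zC ζ hζ c) := by
  refine ⟨tc_zC hc.1 ζ hζ, hc.2.1.zC H hζ, fun γ => ?_⟩
  obtain ⟨M, hM, h⟩ := hc.2.2 γ
  refine ⟨M, hM, ?_⟩
  rw [act_zC, ← map_sub]
  exact h.zC ζ hζ

lemma WWc.act {c : Coch ℓ k F L Ω P} (hc : WWc c) (γ : AutO k F L Ω) :
    WWc (Lns.act γ c) := by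
  refine ⟨tc_act hc.1 γ, hc.2.1.act γ, fun γ' => ?_⟩
  obtain ⟨M, hM, h⟩ := hc.2.2 (γ⁻¹ * γ' * γ)
  refine ⟨M, hM, ?_⟩
  have e1 : γ'^ M * γ = γ * (γ⁻¹ * γ' * γ) ^ M := by
    have h1 : (γ⁻¹ * γ' * γ⁻¹⁻¹) ^ M = γ⁻¹ * γ' ^ M * γ⁻¹⁻¹ := conj_pow
    rw [inv_inv] at h1
    rw [h1]
    group
  have e : Lns.act (γ' ^ M) (Lns.act γ c) - Lns.act γ c =
      Lns.act γ (Lns.act ((γ⁻¹ * γ' * γ) ^ M) c - c) := by
    rw [← act_mul, e1, act_mul, act_sub]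
  rw [e]
  exact h.act γ

end Pool.Agent.Lib.MP_89bcae_ag.Sup.Lns
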