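import Mathlib
import Pool.Agent.Lib.MP_89bcae_ag.Lns.G06
import Pool.Agent.Lib.MP_89bcae_ag.Sup.G08

/-!
# The group of classes modulo torsion is torsion-free and separated
-/

open Polynomial IsDedekindDomain

open scoped Classical

namespace Pool.Agent.Lib.MP_89bcae_ag.Sup.Lns

universe u

variable {k F L Ω : Type u} [Field k] [Field F] [Algebra k F] [Field L] [Algebra F[X] L]
  [Field Ω] [Algebra L Ω] [IsAlgClosure k F] [IsFractionRing F[X] L] [IsAlgClosure L Ω]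
  {ℓ : ℕ} {P : k[X][X]} {ζ : k}

lemma zA_prim (H : LHyp ℓ k F L P ζ) {A : Type u} [Field A] [Algebra L A] :
    IsPrimitiveRoot (zA F L A ζ) ℓ := by
  have hinj : Function.Injective ((base k F L A).comp C) := RingHom.injective _
  exact H.zeta.map_of_injective hinj

section

variable [hG : IsGood ℓ (cOver k F L Ω P)]

/-- All the torsion points over `L` are sums of ramification points. -/
def TorsRam (ℓ : ℕ) (k F L Ω : Type u) [Field k] [Field F] [Algebra k F] [Field L] [Algebra F[X] L]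
    [Field Ω] [Algebra L Ω] [IsAlgClosure k F] [IsFractionRing F[X] L] [IsAlgClosure L Ω]
    (P : k[X][X]) [IsGood ℓ (cOver k F L Ω P)] : Prop :=
  ∀ (n : ℕ) (Q : JacOver ℓ (curveL k F L P) Ω), ℓ ^ n • Q = 0 →
    (∀ σ : Ω ≃ₐ[L] Ω, symJ (toSym P (galA k F σ)) Q = Q) → ∃ e : Ω → ℤ, Q = ram e

omit [IsAlgClosure k F] [IsFractionRing F[X] L] [IsAlgClosure L Ω] hG in
lemma pow_smul_add {c : Coch ℓ k F L Ω P}
    (hc : IsTateCocycle ℓ (curveL k F L P) c) (t j : ℕ) (σ : Ω ≃ₐ[L] Ω) :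
    ℓ ^ t • c (j + t) σ = c j σ := by
  induction t with
  | zero => rw [pow_zero, one_nsmul, add_zero]
  | succ t ih => rw [pow_succ, mul_nsmul', ← add_assoc, hc.smul, ih]

omit [IsAlgClosure k F] [IsFractionRing F[X] L] [IsAlgClosure L Ω] in
private lemma g08_iterate (ζ : k) (hζ : (zA F L Ω ζ) ^ ℓ = 1) (y : Coch ℓ k F L Ω P) (N : ℕ)
    (σ : Ω ≃ₐ[L] Ω) (m : ℕ) :
    ((fun x : Coch ℓ k F L Ω P => x - Lns.zC ζ hζ x)^[m] y) N σ =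
      (fun x => x - zJ (zA F L Ω ζ) hζ x)^[m] (y N σ) := by
  induction m with
  | zero => rfl
  | succ m ih =>
    rw [Function.iterate_succ_apply', Function.iterate_succ_apply', ← ih]
    rfl

/-- (i) -/
theorem TTc.of_sub_zC (H : LHyp ℓ k F L P ζ) (hζ : (zA F L Ω ζ) ^ ℓ = 1)
    {c : Coch ℓ k F L Ω P} (hc : IsTateCocycle ℓ (curveL k F L P) c)
    (h : TTc (c - Lns.zC ζ hζ c)) : TTc c := by
  have hz : IsPrimitiveRoot (zA F L Ω ζ) ℓ := zA_prim H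
  obtain ⟨h1, s, h2⟩ := h
  refine ⟨hc, s + 1, tc_smul_nat hc _, fun n => ?_⟩
  obtain ⟨A, hA, hA2⟩ := h2.2 (n + 1)
  have key : ∀ σ : Ω ≃ₐ[L] Ω, ℓ ^ s • c n σ =
      symJ (toSym P (galA k F σ)) (vJ (zA F L Ω ζ) hζ A) - vJ (zA F L Ω ζ) hζ A := by
    intro σ
    have h4 : ℓ ^ s • (c (n + 1) σ - zJ (zA F L Ω ζ) hζ (c (n + 1) σ)) =
        symJ (toSym P (galA k F σ)) A - A := by
      have h5 := hA2 σ
      rw [push_eq] at h5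
      exact h5
    have h3 : vJ (zA F L Ω ζ) hζ (c (n + 1) σ) -
        zJ (zA F L Ω ζ) hζ (vJ (zA F L Ω ζ) hζ (c (n + 1) σ)) = ℓ • c (n + 1) σ :=
      vJ_sub_zJ _ hz _
    rw [← vJ_symJ (zA F L Ω ζ) hζ _ (zA_fixed ζ (galA k F σ)), ← vJ_sub, ← h4, vJ_smul, vJ_sub,
      vJ_zJ, h3, hc.smul]
  refine ⟨ℓ • vJ (zA F L Ω ζ) hζ A, ?_, fun σ => ?_⟩
  · rw [← vJ_smul, ← vJ_smul, ← mul_nsmul', ← pow_succ, hA]
    exact map_zero (⟨⟨vJ (zA F L Ω ζ) hζ, by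
      have h6 := vJ_smul (zA F L Ω ζ) hζ 0 (0 : JacOver ℓ (curveL k F L P) Ω)
      rwa [zero_smul, zero_smul] at h6⟩, vJ_add (zA F L Ω ζ) hζ⟩ :
      JacOver ℓ (curveL k F L P) Ω →+ JacOver ℓ (curveL k F L P) Ω)
  · change ℓ ^ (s + 1) • c n σ = _
    rw [pow_succ', mul_nsmul', key σ, smul_sub, push_eq, map_nsmul]

/-- (ii) -/
theorem TTc.of_smul (H : LHyp ℓ k F L P ζ) {c : Coch ℓ k F L Ω P}
    (hc : IsTateCocycle ℓ (curveL k F L P) c) {m : ℕ} (hm : 0 < m) (h : TTc (m • c)) :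
    TTc c := by
  obtain ⟨s, m', hm', hmm⟩ := Nat.exists_eq_pow_mul_and_not_dvd hm.ne' ℓ H.prime.ne_one
  obtain ⟨h1, t, h2⟩ := h
  refine ⟨hc, t + s, tc_smul_nat hc _, fun n => ?_⟩
  have hcop : IsCoprime (m' : ℤ) ((ℓ ^ n : ℕ) : ℤ) := by
    rw [Nat.isCoprime_iff_coprime]
    exact Nat.Coprime.pow_right n ((Nat.Prime.coprime_iff_not_dvd H.prime).2 hm').symm
  obtain ⟨a, b, hab⟩ := hcop
  obtain ⟨A, hA, hA2⟩ := h2.2 n
  have hx : IsTateCocycle ℓ (curveL k F L P) (ℓ ^ (t + s) • c : Coch ℓ k F L Ω P) :=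
    tc_smul_nat hc _
  have h3 : ∀ σ : Ω ≃ₐ[L] Ω, m' • (ℓ ^ (t + s) • c : Coch ℓ k F L Ω P) n σ =
      push ℓ (curveL k F L P) (σ : Ω →ₐ[L] Ω) A - A := by
    intro σ
    rw [← hA2 σ]
    change m' • ℓ ^ (t + s) • c n σ = ℓ ^ t • m • c n σ
    rw [hmm, ← mul_smul, ← mul_smul]
    congr 1
    ring
  refine ⟨a • A, by rw [smul_comm, hA, smul_zero], fun σ => ?_⟩
  have h4 : (a * (m' : ℤ) + b * ((ℓ ^ n : ℕ) : ℤ)) • (ℓ ^ (t + s) • c : Coch ℓ k F L Ω P) n σ =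
      (ℓ ^ (t + s) • c : Coch ℓ k F L Ω P) n σ := by
    rw [hab, one_zsmul]
  rw [add_zsmul, mul_zsmul, mul_zsmul, natCast_zsmul, natCast_zsmul, tc_pow_smul hx, zsmul_zero,
    add_zero, h3 σ] at h4
  rw [← h4, zsmul_sub, map_zsmul]

/-- The operator `1 - Z` maps torsion cocycles to trivial ones. -/
theorem TTc.sub_zC_trc (T : TorsRam ℓ k F L Ω P) (hζ : (zA F L Ω ζ) ^ ℓ = 1)
    {c : Coch ℓ k F L Ω P} (h : TTc c) : Trc (c - Lns.zC ζ hζ c) := by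
  refine ⟨?_, fun n => ?_⟩
  · rw [sub_eq_add_neg]
    exact tc_add h.1 (tc_neg (tc_zC h.1 ζ hζ))
  obtain ⟨s, A, hA, hcA⟩ := h.exists_coboundary n
  obtain ⟨e, he⟩ := T s (ℓ ^ n • A) (by rw [← mul_smul, ← pow_add, add_comm s n, hA]) (fun σ => by
    have h5 := tc_pow_smul h.1 n σ
    rw [hcA σ, push_eq, nsmul_sub, sub_eq_zero] at h5
    rw [map_nsmul, h5])
  refine ⟨A - zJ (zA F L Ω ζ) hζ A, ?_, fun σ => ?_⟩
  · rw [smul_sub, ← map_nsmul, he, zJ_ram, sub_self]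
  · change c n σ - zJ (zA F L Ω ζ) hζ (c n σ) = _
    rw [hcA σ, push_eq, push_eq, map_sub, map_sub,
      zJ_symJ (zA F L Ω ζ) hζ _ (zA_fixed ζ (galA k F σ))]
    abel

/-- (iii) -/
theorem TTc.of_separated (H : LHyp ℓ k F L P ζ) (T : TorsRam ℓ k F L Ω P)
    (hζ : (zA F L Ω ζ) ^ ℓ = 1)
    {c : Coch ℓ k F L Ω P} (hc : IsTateCocycle ℓ (curveL k F L P) c)
    (h : ∀ n : ℕ, ∃ y : Coch ℓ k F L Ω P, IsTateCocycle ℓ (curveL k F L P) y ∧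
      TTc (c - (fun x => x - Lns.zC ζ hζ x)^[n] y)) : TTc c := by
  have hz : IsPrimitiveRoot (zA F L Ω ζ) ℓ := zA_prim H
  have hcz : IsTateCocycle ℓ (curveL k F L P) (c - Lns.zC ζ hζ c) := by
    rw [sub_eq_add_neg]
    exact tc_add hc (tc_neg (tc_zC hc ζ hζ))
  refine TTc.of_sub_zC H hζ hc (Trc.tt ⟨hcz, fun N => ?_⟩)
  obtain ⟨y, hy, h1⟩ := h ((ℓ - 1) * N)
  obtain ⟨A, hA, hA2⟩ := (h1.sub_zC_trc T hζ).2 N
  refine ⟨A, hA, fun σ => ?_⟩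
  rw [← hA2 σ]
  have h2 : ((fun x : Coch ℓ k F L Ω P => x - Lns.zC ζ hζ x)^[(ℓ - 1) * N] y) N σ = 0 := by
    rw [g08_iterate]
    exact iterate_eq_zero_of_smul _ hz N _ (tc_pow_smul hy N σ)
  change c N σ - zJ (zA F L Ω ζ) hζ (c N σ) =
    (c N σ - ((fun x : Coch ℓ k F L Ω P => x - Lns.zC ζ hζ x)^[(ℓ - 1) * N] y) N σ) -
      zJ (zA F L Ω ζ) hζ
        (c N σ - ((fun x : Coch ℓ k F L Ω P => x - Lns.zC ζ hζ x)^[(ℓ - 1) * N] y) N σ)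
  rw [h2, sub_zero]

/-- (iv) -/
theorem TTc.of_isFixedBy (H : LHyp ℓ k F L P ζ) {c : Coch ℓ k F L Ω P}
    (hc : IsTateCocycle ℓ (curveL k F L P) c) (γ : AutO k F L Ω)
    (h : IsFixedBy ℓ (curveL k F L P) c (γ : Ω ≃+* Ω) (toSym P γ).2) :
    TTc (Lns.act γ c - c) := by
  obtain ⟨m, hm, h1⟩ := h
  have hcoc : IsTateCocycle ℓ (curveL k F L P) (Lns.act γ c - c) := by
    rw [sub_eq_add_neg]
    exact tc_add (tc_act hc γ) (tc_neg hc)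
  refine TTc.of_smul H hcoc hm (Trc.tt ⟨tc_smul_nat hcoc m, fun n => ?_⟩)
  obtain ⟨A, hA, hA2⟩ := h1 n
  refine ⟨A, hA, fun σ => ?_⟩
  refine hA2 (conjG γ⁻¹ σ) σ fun x => ?_
  have h2 := conjG_spec γ⁻¹ σ ((γ : Ω ≃+* Ω) x)
  have h3 : ((γ⁻¹ : AutO k F L Ω) : Ω ≃+* Ω) ((γ : Ω ≃+* Ω) x) = x :=
    (γ : Ω ≃+* Ω).symm_apply_apply x
  rw [h3] at h2
  rw [h2]
  exact (γ : Ω ≃+* Ω).apply_symm_apply _

end

end Pool.Agent.Lib.MP_89bcae_ag.Sup.Lns
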