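import Mathlib
import Pool.Agent.Lib.MP_89bcae_ag.Lns.AGlob
import Pool.Agent.Lib.MP_89bcae_ag.Lns.G02
import Pool.Agent.Lib.MP_89bcae_ag.Sup.G11

/-!
# The functions attached to a cocycle

ROW GA02 = the theorem of this file (200 lines; compare `exists_kummer`, `G11_cochain` in `Sup/G11.lean`).
PROOF. As in `G11_cochain`: `vJ (c 1 σ)` is fixed by `Z` (`(1 - Z) v = ℓ`, `ℓ • c 1 σ = c 0 σ = 0`), so by
`G11_exists` it is `ram (e σ)` with `∑_{θ ∈ rts} e σ θ ≡ 0`; by `G11_unique` the values modulo `ℓ` at the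
roots are unique; `σ` fixes the roots (`fix_root`), so `c 1 (σ τ) = c 1 σ + σ (c 1 τ)` gives
`e (σ τ) θ ≡ e σ θ + e τ θ` at the roots; `c 1` is locally constant (`G11_cochain` shows how this gives a
finite set `S` such that `e σ θ ≡ 0` if `σ` fixes the elements of `S`).
For each `i`, apply `G11_exists_z` with `g = D = X`, `θ₀ = tA F L Ω` (the curve of `(X, X)` has the polynomial
`t⁻¹ (x - t)`; `GlobHyp ℓ X X ζ` is easy) and `χ σ = (e σ (rt i) : ZMod ℓ)`: it gives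
`z_i ^ ℓ = aeval (tA F L Ω) (P_i)`, `P_i` monic, `σ z_i = ζ ^ (χ σ).val z_i`.
The product `∏ z_i` is fixed by all `σ`, so `(∏ z_i) ^ (q ^ r)` is in `L` (`exists_pow_mem_L`,
`q = ringExpChar L` prime to `ℓ`) and its `ℓ`-th power is `(∏ P_i(t)) ^ (q ^ r)`: the root multiplicities of
`(∏ P_i) ^ (q ^ r)` are divisible by `ℓ`, so those of `∏ P_i` too (compare `G11_fibre`).
Last: `σ z_i = ζ ^ n(rt i) z_i` implies `n (rt i) ≡ e σ (rt i)`, so `ram n = ram (e σ)` (`ram_congr`).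
-/

open Polynomial IsDedekindDomain

open scoped Classical

namespace Pool.Agent.Lib.MP_89bcae_ag.Sup.Lns

universe u

variable {ι : Type} [Fintype ι] [LinearOrder ι]
  {k F L Ω : Type u} [Field k] [Field F] [Algebra k F] [Field L] [Algebra F[X] L]
  [Field Ω] [Algebra L Ω] [IsAlgClosure k F] [IsFractionRing F[X] L] [IsAlgClosure L Ω]
  [Algebra F Ω] {ℓ : ℕ} {α : ι → k[X]} {ζ : k}

omit [LinearOrder ι] in
private lemma ga2_mem_rts (hG : IsGood ℓ (cOver k F L Ω (arr α))) {θ : Ω} :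
    θ ∈ rts (cOver k F L Ω (arr α)) ↔ ∃ i, θ = rt k F L Ω α i := by
  rw [mem_rts hG.separable.ne_zero]
  exact root_arr

private lemma ga2_sum (H : AHyp ℓ α ζ) (hG : IsGood ℓ (cOver k F L Ω (arr α)))
    {N : Type*} [AddCommMonoid N] (φ : Ω → N) :
    ∑ θ ∈ rts (cOver k F L Ω (arr α)), φ θ = ∑ i, φ (rt k F L Ω α i) := by
  have h1 : rts (cOver k F L Ω (arr α)) = Finset.univ.image (rt k F L Ω α) := by
    ext θ
    rw [ga2_mem_rts hG, Finset.mem_image]
    constructor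
    · rintro ⟨i, rfl⟩
      exact ⟨i, Finset.mem_univ i, rfl⟩
    · rintro ⟨i, -, rfl⟩
      exact ⟨i, rfl⟩
  rw [h1, Finset.sum_image fun i _ j _ hij => rt_injective (F := F) (L := L) H Ω hij]

private lemma ga2_zpow_eq {E : Type u} [Field E] {ζ : E} (hℓ : ℓ ≠ 0) (hζ : IsPrimitiveRoot ζ ℓ)
    (a b : ℤ) : ζ ^ a = ζ ^ b ↔ (a : ZMod ℓ) = b := by
  have h0 : ζ ≠ 0 := hζ.ne_zero hℓ
  rw [ZMod.intCast_eq_intCast_iff_dvd_sub, ← hζ.zpow_eq_one_iff_dvd, zpow_sub₀ h0,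
    div_eq_one_iff_eq (zpow_ne_zero _ h0)]
  exact eq_comm

private lemma ga2_coprime {K : Type*} [Field K] {ℓ : ℕ} (hℓ : ℓ.Prime) (h : (ℓ : K) ≠ 0) :
    ℓ.Coprime (ringExpChar K) := by
  have h1 := ringExpChar.expChar K
  generalize ringExpChar K = q at h1 ⊢
  cases h1 with
  | zero => exact Nat.coprime_one_right ℓ
  | prime hp =>
    rw [Nat.coprime_primes hℓ hp]
    rintro rfl
    exact h (CharP.cast_eq_zero K _)

omit [IsAlgClosure k F] [IsFractionRing F[X] L] [IsAlgClosure L Ω] [Algebra F Ω] in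
private lemma ga2_zA (ζ : k) (σ : Ω ≃ₐ[L] Ω) : σ (zA F L Ω ζ) = zA F L Ω ζ :=
  σ.commutes _

/-- The exponents of the cocycle `v(c 1 σ)`. -/
private lemma ga2_cochain (H : AHyp ℓ α ζ)
    [hG : IsGood ℓ (cOver k F L Ω (arr α))] (hζ : (zA F L Ω ζ) ^ ℓ = 1)
    (hζ' : IsPrimitiveRoot (zA F L Ω ζ) ℓ)
    {c : Coch ℓ k F L Ω (arr α)} (hc : IsTateCocycle ℓ (curveL k F L (arr α)) c) :
    ∃ (e : (Ω ≃ₐ[L] Ω) → Ω → ℤ) (S : Finset Ω),
      (∀ σ, vJ (zA F L Ω ζ) hζ (c 1 σ) = ram (e σ)) ∧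
      (∀ σ, ∑ θ ∈ rts (cOver k F L Ω (arr α)), (e σ θ : ZMod ℓ) = 0) ∧
      (∀ σ τ, ∀ θ ∈ rts (cOver k F L Ω (arr α)),
        (e (σ * τ) θ : ZMod ℓ) = e σ θ + e τ θ) ∧
      (∀ σ, (∀ x ∈ S, σ x = x) → ∀ θ ∈ rts (cOver k F L Ω (arr α)), (e σ θ : ZMod ℓ) = 0) := by
  have h1 : ∀ σ, ∃ e : Ω → ℤ, vJ (zA F L Ω ζ) hζ (c 1 σ) = ram e ∧
      ∑ θ ∈ rts (cOver k F L Ω (arr α)), (e θ : ZMod ℓ) = 0 := by
    intro σ
    apply G11_exists hζ'
    have h2 := vJ_sub_zJ (zA F L Ω ζ) hζ' (c 1 σ)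
    have h3 : ℓ • c 1 σ = 0 := by
      have h4 := hc.smul 0 σ
      rw [hc.zero σ] at h4
      exact h4
    rw [h3, sub_eq_zero] at h2
    exact h2.symm
  choose e he hs using h1
  have hc1 : c 1 1 = 0 := by
    have h2 := hc.cocycle 1 1 1
    rw [mul_one] at h2
    have h3 : push ℓ (curveL k F L (arr α)) ((1 : Ω ≃ₐ[L] Ω) : Ω →ₐ[L] Ω) (c 1 1) = 0 := by
      have h4 := add_left_cancel ((add_zero (c 1 1)).trans h2)
      exact h4.symm
    rw [push_eq, map_one, map_one, symJ_one] at h3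
    exact h3
  have hopen : {σ : Ω ≃ₐ[L] Ω | c 1 σ = 0} ∈ nhds (1 : Ω ≃ₐ[L] Ω) := by
    apply (((hc.locallyConstant 1).isOpen_fiber 0)).mem_nhds
    exact hc1
  obtain ⟨N, hN, hNS⟩ := (krullTopology_mem_nhds_one_iff L Ω _).1 hopen
  obtain ⟨S, hS⟩ := (IntermediateField.essFiniteType_iff (K := N)).1 inferInstance
  refine ⟨e, S, he, hs, ?_, ?_⟩
  · intro σ τ θ hθ
    have h2 : (ram (e (σ * τ)) : Jac ℓ (cOver k F L Ω (arr α))) =
        ram (fun θ => e σ θ + e τ θ) := by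
      rw [← he, hc.cocycle, vJ_add, he, push_eq, vJ_symJ, he]
      · rw [ram_add]
        congr 1
        exact symJ_ram_arr (galA k F σ) (e τ)
      · exact ga2_zA ζ σ
    have h3 := G11_unique hζ' _ _ h2 (by
      rw [hs]
      have h4 : ∀ θ ∈ rts (cOver k F L Ω (arr α)), (((e σ θ + e τ θ : ℤ)) : ZMod ℓ) =
          (e σ θ : ZMod ℓ) + e τ θ := fun θ _ => Int.cast_add _ _
      rw [Finset.sum_congr rfl h4, Finset.sum_add_distrib, hs, hs, add_zero]) θ hθ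
    rw [h3, Int.cast_add]
  · intro σ hσ θ hθ
    have h2 : c 1 σ = 0 := by
      apply hNS
      rw [SetLike.mem_coe, IntermediateField.mem_fixingSubgroup_iff]
      rw [← hS]
      intro x hx
      induction hx using IntermediateField.adjoin_induction with
      | mem x hx => exact hσ x hx
      | algebraMap x => exact σ.commutes x
      | add x y _ _ h1 h2 => rw [map_add, h1, h2]
      | inv x _ h1 => rw [map_inv₀, h1]
      | mul x y _ _ h1 h2 => rw [map_mul, h1, h2]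
    have h3 : (ram (e σ) : Jac ℓ (cOver k F L Ω (arr α))) = ram (fun _ => 0) := by
      rw [← he, h2, (ram_eq_zero_iff (zA F L Ω ζ) hζ' _).2 ⟨0, fun _ _ => by simp⟩]
      exact (AddMonoidHom.mk' (vJ (zA F L Ω ζ) hζ) (vJ_add (zA F L Ω ζ) hζ)).map_zero
    have h4 := G11_unique hζ' _ _ h3 (by rw [hs]; simp) θ hθ
    rw [h4, Int.cast_zero]

/-- The hypotheses for `(X, X)`. -/
private lemma ga2_glob (H : AHyp ℓ α ζ) : GlobHyp ℓ (X : k[X]) (X : k[X]) ζ where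
  prime := H.prime
  ne := H.ne
  zeta := H.zeta
  monic := monic_X
  cop := by rw [natDegree_X]; exact Nat.coprime_one_left ℓ
  sep := by rw [X_comp]; exact separable_X
  pos := by rw [natDegree_X]; exact one_ne_zero

private lemma ga2_t_mem (hF : CompatF F L Ω) :
    tA F L Ω ∈ rts (Sup.cOver k F L Ω (X : k[X]) (X : k[X])) := by
  have h0 : aeval (tA F L Ω) ((X : k[X]).map (algebraMap k F)) ≠ 0 := by
    intro h
    rw [map_X, ← map_zero (aeval (tA F L Ω) : F[X] →ₐ[F] Ω)] at h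
    exact X_ne_zero (tA_injective hF h)
  rw [cOver_eq_locPoly hF, mem_rts (locPoly_ne_zero (monic_X.map _) (by
    rw [natDegree_map, natDegree_X]; exact one_ne_zero) h0), eval_locPoly_eq_zero h0, map_X,
    aeval_X]

/-- The root multiplicities of the product. -/
private lemma ga2_mult (P : ι → F[X]) (hP : ∀ i, (P i).Monic) (s : F) :
    (∏ i, P i).rootMultiplicity s = ∑ i, (P i).rootMultiplicity s := by
  have h0 : ∏ i, P i ≠ 0 := Finset.prod_ne_zero_iff.2 fun i _ => (hP i).ne_zero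
  rw [← count_roots, roots_prod _ _ h0, Multiset.count_bind]
  rw [Finset.sum]
  congr 1
  refine Multiset.map_congr rfl fun i _ => ?_
  rw [count_roots]

/-- The multiplicities of the product are divisible by `ℓ`. -/
private lemma ga2_dvd (hF : CompatF F L Ω) (H : AHyp ℓ α ζ) {P : F[X]} (hP : P.Monic)
    (z : Ω) (hz : z ^ ℓ = aeval (tA F L Ω) P) (hfix : ∀ σ : Ω ≃ₐ[L] Ω, σ z = z) (s : F) :
    ℓ ∣ P.rootMultiplicity s := by
  have hFc : IsAlgClosed F := IsAlgClosure.isAlgClosed k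
  obtain ⟨m, y, hy⟩ := exists_pow_mem_L _ hfix
  generalize hq : ringExpChar L ^ m = q at hy
  have hLne : (ℓ : L) ≠ 0 := by
    have h1 := H.ne
    intro h2
    apply h1
    have h3 : ((algebraMap F[X] L).comp (C.comp (algebraMap k F))) (ℓ : k) = 0 := by
      rw [map_natCast, h2]
    exact (map_eq_zero _).1 h3
  have hcop : ℓ.Coprime q := by
    rw [← hq]
    exact (ga2_coprime H.prime hLne).pow_right m
  by_cases hs : s ∈ P.roots.toFinset
  · have hPt : aeval (tA F L Ω) P = ∏ β ∈ P.roots.toFinset,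
        (tA F L Ω - algebraMap F Ω β) ^ P.rootMultiplicity β := by
      conv_lhs => rw [(IsAlgClosed.splits P).eq_prod_roots_of_monic hP]
      rw [prod_multiset_root_eq_finset_root, map_prod]
      refine Finset.prod_congr rfl fun β _ => ?_
      rw [map_pow, map_sub, aeval_X, aeval_C]
    obtain ⟨p, r, hr, hpr⟩ := IsFractionRing.div_surjective (A := F[X]) y
    have hr0 : r ≠ 0 := nonZeroDivisors.ne_zero hr
    have hfin := dvd_of_prod_eq_pow (tA_injective hF) (ℓ := ℓ)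
      P.roots.toFinset (fun a => ((P.rootMultiplicity a * q : ℕ) : ℤ)) 1
      one_ne_zero p r hr0 (by
        have h2 : (aeval (tA F L Ω) p / aeval (tA F L Ω) r : Ω) = z ^ q := by
          rw [hy, ← hpr, map_div₀, aeval_tA hF, aeval_tA hF]
        rw [h2, ← pow_mul, mul_comm q ℓ, pow_mul, hz, hPt, map_one, one_mul,
          ← Finset.prod_pow]
        refine Finset.prod_congr rfl fun a _ => ?_
        rw [zpow_natCast, pow_mul])
    have h3 := hfin s hs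
    rw [Int.natCast_dvd_natCast] at h3
    exact hcop.dvd_of_dvd_mul_right h3
  · rw [Multiset.mem_toFinset] at hs
    rw [← count_roots, Multiset.count_eq_zero_of_notMem hs]
    exact dvd_zero _

theorem exists_kummer_arr (hF : CompatF F L Ω) (H : AHyp ℓ α ζ)
    [hG : IsGood ℓ (cOver k F L Ω (arr α))] (hζ : (zA F L Ω ζ) ^ ℓ = 1)
    {c : Coch ℓ k F L Ω (arr α)} (hc : IsTateCocycle ℓ (curveL k F L (arr α)) c) :
    ∃ (P : ι → F[X]) (z : ι → Ω), (∀ i, (P i).Monic) ∧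
      (∀ s : F, ℓ ∣ ∑ i, (P i).rootMultiplicity s) ∧
      (∀ i, z i ^ ℓ = aeval (tA F L Ω) (P i)) ∧
      ∀ (σ : Ω ≃ₐ[L] Ω) (n : Ω → ℤ), (∀ i,
        σ (z i) = zA F L Ω ζ ^ n (rt k F L Ω α i) * z i) →
          vJ (zA F L Ω ζ) hζ (c 1 σ) = ram n := by
  have hp : Fact ℓ.Prime := ⟨H.prime⟩
  have hζ' : IsPrimitiveRoot (zA F L Ω ζ) ℓ := zA_primitive (ga2_glob H)
  have hζ0 : zA F L Ω ζ ≠ 0 := hζ'.ne_zero H.prime.ne_zero
  obtain ⟨e, S, he, hs, hcoc, hloc⟩ := ga2_cochain H hζ hζ' hc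
  have hΩ : IsAlgClosed Ω := IsAlgClosure.isAlgClosed L
  have hG' : IsGood ℓ (Sup.cOver k F L Ω (X : k[X]) (X : k[X])) := isGood_cOver (ga2_glob H)
  have hmem : ∀ i, rt k F L Ω α i ∈ rts (cOver k F L Ω (arr α)) :=
    fun i => (ga2_mem_rts hG).2 ⟨i, rfl⟩
  have hsum : ∀ σ, ∑ i, (e σ (rt k F L Ω α i) : ZMod ℓ) = 0 := by
    intro σ
    have h1 := hs σ
    rw [ga2_sum H hG] at h1
    exact h1
  have hex : ∀ i, ∃ (z : Ω) (P : F[X]), z ≠ 0 ∧ P.Monic ∧ z ^ ℓ = aeval (tA F L Ω) P ∧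
      ∀ σ : Ω ≃ₐ[L] Ω, σ (tA F L Ω) = tA F L Ω →
        σ z = zA F L Ω ζ ^ ((e σ (rt k F L Ω α i) : ZMod ℓ)).val * z := by
    intro i
    exact G11_exists_z hF (ga2_glob H) (ga2_t_mem hF) (fun σ => (e σ (rt k F L Ω α i) : ZMod ℓ))
      (fun σ τ _ _ => hcoc σ τ _ (hmem i)) S (fun σ _ hσ => hloc σ hσ _ (hmem i))
  choose z P hz0 hP hzP hzσ using hex
  have ht : ∀ σ : Ω ≃ₐ[L] Ω, σ (tA F L Ω) = tA F L Ω := fun σ => σ.commutes _
  refine ⟨P, z, hP, ?_, hzP, ?_⟩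
  · intro s
    rw [← ga2_mult P hP s]
    refine ga2_dvd hF H (monic_prod_of_monic _ _ fun i _ => hP i) (∏ i, z i) ?_ ?_ s
    · rw [← Finset.prod_pow, map_prod]
      exact Finset.prod_congr rfl fun i _ => hzP i
    · intro σ
      rw [map_prod, Finset.prod_congr rfl fun i _ => hzσ i σ (ht σ), Finset.prod_mul_distrib]
      have h1 : ∏ i, zA F L Ω ζ ^ ((e σ (rt k F L Ω α i) : ZMod ℓ)).val = 1 := by
        rw [Finset.prod_pow_eq_pow_sum, hζ'.pow_eq_one_iff_dvd, ← ZMod.natCast_eq_zero_iff]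
        push_cast
        rw [← hsum σ]
        refine Finset.sum_congr rfl fun i _ => ?_
        rw [ZMod.natCast_zmod_val]
      rw [h1, one_mul]
  · intro σ n hn
    rw [he σ]
    apply ram_congr
    intro θ hθ
    obtain ⟨i, rfl⟩ := root_arr.1 hθ
    have h1 := hn i
    rw [hzσ i σ (ht σ)] at h1
    have h3 := mul_right_cancel₀ (hz0 i) h1
    rw [← zpow_natCast, ga2_zpow_eq H.prime.ne_zero hζ'] at h3
    push_cast at h3
    rw [ZMod.natCast_zmod_val, ZMod.intCast_eq_intCast_iff_dvd_sub] at h3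
    rw [← dvd_neg, neg_sub]
    exact h3

end Pool.Agent.Lib.MP_89bcae_ag.Sup.Lns
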