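import Mathlib
import Pool.Agent.Lib.MP_89bcae_ag.Lns.GA03
import Pool.Agent.Lib.MP_89bcae_ag.Sup.U01

/-!
# The ramification points and the torsion over `F(t)`
-/

open Polynomial IsDedekindDomain

open scoped Classical

namespace Pool.Agent.Lib.MP_89bcae_ag.Sup.Lns

universe u

set_option linter.unusedSectionVars false

/-- The exponents of the ramification points. -/
noncomputable def cutE {ι : Type} [Fintype ι] {F : Type u} [Field F] (a : ι → F[X]) (b : ι → ℤ)
    (i : ι) (s : F) : ℤ :=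
  ∑ j ∈ Finset.univ.filter (fun j => (a j).eval s = (a i).eval s), (b j - b i)

section

variable {ι : Type} [Fintype ι] [LinearOrder ι] {F : Type u} [Field F] {a : ι → F[X]}

lemma cutE_node (hg : AGeom a) (b : ι → ℤ) {i j : ι} (hij : i ≠ j) {s : F}
    (hs : (a i).eval s = (a j).eval s) : cutE a b i s = b j - b i := by
  unfold cutE
  have h1 : Finset.univ.filter (fun j => (a j).eval s = (a i).eval s) = {i, j} := by
    ext l
    rw [Finset.mem_filter, Finset.mem_insert, Finset.mem_singleton]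
    constructor
    · rintro ⟨-, hl⟩
      by_contra hcon
      rw [not_or] at hcon
      exact hg.third hij hcon.1 hcon.2 hs hl
    · rintro (rfl | rfl)
      · exact ⟨Finset.mem_univ _, rfl⟩
      · exact ⟨Finset.mem_univ _, hs.symm⟩
  rw [h1, Finset.sum_pair hij, sub_self, zero_add]

omit [LinearOrder ι] in
lemma cutE_other (b : ι → ℤ) {l : ι} {s : F}
    (hl : ∀ j, j ≠ l → (a j).eval s ≠ (a l).eval s) : cutE a b l s = 0 := by
  unfold cutE
  refine Finset.sum_eq_zero fun j hj => ?_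
  rw [Finset.mem_filter] at hj
  by_cases h : j = l
  · rw [h, sub_self]
  · exact absurd hj.2 (hl j h)

omit [LinearOrder ι] in
lemma cutE_sum (b : ι → ℤ) (s r : F) :
    ∑ i ∈ Finset.univ.filter (fun i => (a i).eval s = r), cutE a b i s = 0 := by
  have h1 : ∀ i ∈ Finset.univ.filter (fun i => (a i).eval s = r), cutE a b i s =
      ∑ j ∈ Finset.univ.filter (fun i => (a i).eval s = r), (b j - b i) := by
    intro i hi
    rw [Finset.mem_filter] at hi
    unfold cutE
    rw [hi.2]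
  rw [Finset.sum_congr rfl h1]
  have h2 : ∑ i ∈ Finset.univ.filter (fun i => (a i).eval s = r),
      ∑ j ∈ Finset.univ.filter (fun i => (a i).eval s = r), (b j - b i) =
      ∑ i ∈ Finset.univ.filter (fun i => (a i).eval s = r),
      ∑ j ∈ Finset.univ.filter (fun i => (a i).eval s = r), (b i - b j) :=
    Finset.sum_comm
  have h3 : ∑ i ∈ Finset.univ.filter (fun i => (a i).eval s = r),
      ∑ j ∈ Finset.univ.filter (fun i => (a i).eval s = r), (b i - b j) =
      -∑ i ∈ Finset.univ.filter (fun i => (a i).eval s = r),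
      ∑ j ∈ Finset.univ.filter (fun i => (a i).eval s = r), (b j - b i) := by
    rw [← Finset.sum_neg_distrib]
    refine Finset.sum_congr rfl fun i _ => ?_
    rw [← Finset.sum_neg_distrib]
    exact Finset.sum_congr rfl fun j _ => (neg_sub _ _).symm
  omega

end

section

variable {ι : Type} [Fintype ι] [DecidableEq ι] {E : Type u} [Field E] {ℓ : ℕ} {f : E[X]}

/-- The values of the functions attached to the ramification points. -/
lemma uval_ramDiv_prod [hG : IsGood ℓ f] {A : ι → E} (hf : f = ∏ i, (X - C (A i)))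
    (hA : Function.Injective A) (b : E → ℤ) (i : ι) :
    uval (ramDiv b : Pt ℓ f →₀ ℤ) (A i) =
      ∏ j ∈ Finset.univ.erase i, (A i - A j) ^ (b (A j) - b (A i)) := by
  have h0 : f.eval (A i) = 0 := by
    rw [hf, eval_prod]
    exact Finset.prod_eq_zero (Finset.mem_univ i) (by rw [eval_sub, eval_X, eval_C, sub_self])
  have hne : ∀ j ∈ Finset.univ.erase i, A i - A j ≠ 0 := by
    intro j hj h
    exact (Finset.mem_erase.1 hj).1 (hA (sub_eq_zero.1 h)).symm
  rw [uval_ramDiv b h0]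
  have hroots : f.roots.toFinset = Finset.univ.image A := by
    rw [hf]
    ext x
    rw [Multiset.mem_toFinset, mem_roots (Finset.prod_ne_zero_iff.2 fun i _ => X_sub_C_ne_zero _),
      IsRoot.def, eval_prod, Finset.prod_eq_zero_iff, Finset.mem_image]
    constructor
    · rintro ⟨j, -, hj⟩
      rw [eval_sub, eval_X, eval_C, sub_eq_zero] at hj
      exact ⟨j, Finset.mem_univ _, hj.symm⟩
    · rintro ⟨j, -, rfl⟩
      exact ⟨j, Finset.mem_univ _, by rw [eval_sub, eval_X, eval_C, sub_self]⟩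
  have herase : (Finset.univ.image A).erase (A i) = (Finset.univ.erase i).image A := by
    ext x
    rw [Finset.mem_erase, Finset.mem_image, Finset.mem_image]
    constructor
    · rintro ⟨h1, j, -, rfl⟩
      exact ⟨j, Finset.mem_erase.2 ⟨fun h => h1 (by rw [h]), Finset.mem_univ _⟩, rfl⟩
    · rintro ⟨j, hj, rfl⟩
      exact ⟨fun h => (Finset.mem_erase.1 hj).1 (hA h), j, Finset.mem_univ _, rfl⟩
  have hder : (derivative f).eval (A i) = ∏ j ∈ Finset.univ.erase i, (A i - A j) := by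
    rw [hf, derivative_prod_finset, eval_finset_sum, Finset.sum_eq_single i]
    · rw [derivative_sub, derivative_X, derivative_C, sub_zero, mul_one, eval_prod]
      refine Finset.prod_congr rfl fun j _ => ?_
      rw [eval_sub, eval_X, eval_C]
    · intro j _ hj
      rw [eval_mul, eval_prod, Finset.prod_eq_zero (i := i), zero_mul]
      · exact Finset.mem_erase.2 ⟨hj.symm, Finset.mem_univ _⟩
      · rw [eval_sub, eval_X, eval_C, sub_self]
    · intro h
      exact absurd (Finset.mem_univ i) h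
  rw [hroots, herase, Finset.prod_image fun x _ y _ h => hA h, hder, inv_zpow,
    ← Finset.prod_zpow, ← Finset.prod_inv_distrib, ← Finset.prod_mul_distrib]
  refine Finset.prod_congr rfl fun j hj => ?_
  rw [zpow_sub₀ (hne j hj), div_eq_inv_mul]

end

variable {ι : Type} [Fintype ι] [LinearOrder ι]
  {k F L Ω : Type u} [Field k] [Field F] [Algebra k F] [Field L] [Algebra F[X] L]
  [Field Ω] [Algebra L Ω] [IsAlgClosure k F] [IsFractionRing F[X] L] [IsAlgClosure L Ω]
  [Algebra F Ω] {ℓ : ℕ} {α : ι → k[X]} {ζ : k}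
  [hG : IsGood ℓ (cOver k F L Ω (arr α))] {hζ : (zA F L Ω ζ) ^ ℓ = 1}

private lemma ga6_sub (hF : CompatF F L Ω) (H : AHyp ℓ α ζ) {i j : ι} (hij : i ≠ j) :
    ∃ d : F, d ≠ 0 ∧ rt k F L Ω α i - rt k F L Ω α j = algebraMap F Ω d *
      ∏ s ∈ (SS (aF F α)).filter (fun s => (aF F α i).eval s = (aF F α j).eval s),
        (tA F L Ω - algebraMap F Ω s) := by
  have hFc : IsAlgClosed F := IsAlgClosure.isAlgClosed k
  have hg : AGeom (aF F α) := H.geomF
  refine ⟨(aF F α i - aF F α j).leadingCoeff, leadingCoeff_ne_zero.2 (hg.ne hij), ?_⟩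
  rw [rt_eq hF, rt_eq hF, ← map_sub]
  conv_lhs => rw [hg.sub_eq hij]
  rw [map_mul, aeval_C, map_prod]
  congr 1
  refine Finset.prod_congr rfl fun s _ => ?_
  rw [map_sub, aeval_X, aeval_C]

private lemma ga6_uval (hF : CompatF F L Ω) (H : AHyp ℓ α ζ) (b : Ω → ℤ) (i : ι) :
    ∃ d : F, d ≠ 0 ∧ uval (ramDiv b : Pt ℓ (cOver k F L Ω (arr α)) →₀ ℤ) (rt k F L Ω α i) =
      algebraMap F Ω d *
        TP (aF F α) (tA F L Ω) (cutE (aF F α) (fun j => b (rt k F L Ω α j)) i) := by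
  have hf : cOver k F L Ω (arr α) = ∏ i, (X - C (rt k F L Ω α i)) := by
    rw [cOver_eq]
    unfold arr
    rw [Polynomial.map_prod]
    refine Finset.prod_congr rfl fun i _ => ?_
    rw [Polynomial.map_sub, map_X, map_C]
    rfl
  rw [uval_ramDiv_prod hf (rt_injective (F := F) (L := L) H Ω) b i]
  have h1 : ∀ j, ∃ d : F, d ≠ 0 ∧ (j ∈ Finset.univ.erase i →
      (rt k F L Ω α i - rt k F L Ω α j) ^ (b (rt k F L Ω α j) - b (rt k F L Ω α i)) =
        algebraMap F Ω d *
      ∏ s ∈ (SS (aF F α)).filter (fun s => (aF F α i).eval s = (aF F α j).eval s),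
        (tA F L Ω - algebraMap F Ω s) ^ (b (rt k F L Ω α j) - b (rt k F L Ω α i))) := by
    intro j
    by_cases hj : j ∈ Finset.univ.erase i
    · obtain ⟨d, hd, hd'⟩ := ga6_sub (ℓ := ℓ) hF H (Finset.mem_erase.1 hj).1.symm
      refine ⟨d ^ (b (rt k F L Ω α j) - b (rt k F L Ω α i)), zpow_ne_zero _ hd, fun _ => ?_⟩
      rw [hd', mul_zpow, map_zpow₀, Finset.prod_zpow]
    · exact ⟨1, one_ne_zero, fun h => absurd h hj⟩
  choose d hd0 hd using h1
  refine ⟨∏ j ∈ Finset.univ.erase i, d j, Finset.prod_ne_zero_iff.2 fun j _ => hd0 j, ?_⟩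
  rw [Finset.prod_congr rfl hd, Finset.prod_mul_distrib, map_prod]
  congr 1
  unfold TP cutE
  have h2 : ∀ j ∈ Finset.univ.erase i,
      ∏ s ∈ (SS (aF F α)).filter (fun s => (aF F α i).eval s = (aF F α j).eval s),
        (tA F L Ω - algebraMap F Ω s) ^ (b (rt k F L Ω α j) - b (rt k F L Ω α i)) =
      ∏ s ∈ SS (aF F α), if (aF F α i).eval s = (aF F α j).eval s then
        (tA F L Ω - algebraMap F Ω s) ^ (b (rt k F L Ω α j) - b (rt k F L Ω α i)) else 1 := by
    intro j _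
    rw [Finset.prod_filter]
  rw [Finset.prod_congr rfl h2, Finset.prod_comm]
  refine Finset.prod_congr rfl fun s _ => ?_
  have ht := t_sub_ne hF s
  have h3 : ∀ (S : Finset ι) (m : ι → ℤ), ∏ j ∈ S, (tA F L Ω - algebraMap F Ω s) ^ m j =
      (tA F L Ω - algebraMap F Ω s) ^ ∑ j ∈ S, m j := by
    intro S m
    induction S using Finset.induction_on with
    | empty => simp
    | insert a T ha ih => rw [Finset.prod_insert ha, Finset.sum_insert ha, zpow_add₀ ht, ih]
  rw [← Finset.prod_filter, h3]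
  congr 1
  rw [← Finset.add_sum_erase (Finset.univ.filter
    (fun j => (aF F α j).eval s = (aF F α i).eval s)) _
    (Finset.mem_filter.2 ⟨Finset.mem_univ i, rfl⟩), sub_self, zero_add]
  refine Finset.sum_congr ?_ fun _ _ => rfl
  ext j
  rw [Finset.mem_filter, Finset.mem_erase, Finset.mem_erase, Finset.mem_filter]
  exact ⟨fun h => ⟨h.1.1, h.1.2, h.2.symm⟩, fun h => ⟨⟨h.1, h.2.1⟩, h.2.2.symm⟩⟩

/-- The functions attached to a ramification point. -/
theorem kummer_ram (hF : CompatF F L Ω) (H : AHyp ℓ α ζ) (b : Ω → ℤ)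
    (B : JacOver ℓ (curveL k F L (arr α)) Ω) (hB : B - zJ (zA F L Ω ζ) hζ B = ram b) :
    ∃ z : ι → Ω, (∀ i, z i ^ ℓ = TP (aF F α) (tA F L Ω)
        (cutE (aF F α) (fun j => b (rt k F L Ω α j)) i)) ∧
      ∀ (σ : Ω ≃ₐ[L] Ω) (n : Ω → ℤ),
        (∀ i, σ (z i) = zA F L Ω ζ ^ n (rt k F L Ω α i) * z i) →
          symJ (toSym (arr α) (galA k F σ)) B - B = ram n := by
  have hFc : IsAlgClosed F := IsAlgClosure.isAlgClosed k
  have hprim : IsPrimitiveRoot (zA F L Ω ζ) ℓ := zA_prim H.lhyp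
  obtain ⟨z, hz, hk⟩ := kummer_formula (zA F L Ω ζ) hprim B (ramDiv b) hB
  have h1 : ∀ i, ∃ d : F, d ≠ 0 ∧ z (rt k F L Ω α i) ^ ℓ = algebraMap F Ω d ^ ℓ *
      TP (aF F α) (tA F L Ω) (cutE (aF F α) (fun j => b (rt k F L Ω α j)) i) := by
    intro i
    obtain ⟨d, hd, hd'⟩ := ga6_uval hF H b i
    obtain ⟨d', hd''⟩ := IsAlgClosed.exists_pow_nat_eq
      (((-1) ^ (ℓ + 1)) ^ atR (ramDiv b : Pt ℓ (cOver k F L Ω (arr α)) →₀ ℤ)
        (rt k F L Ω α i) * d : F) H.prime.pos
    have hne : (((-1) ^ (ℓ + 1)) ^ atR (ramDiv b : Pt ℓ (cOver k F L Ω (arr α)) →₀ ℤ)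
        (rt k F L Ω α i) * d : F) ≠ 0 :=
      mul_ne_zero (zpow_ne_zero _ (pow_ne_zero _ (neg_ne_zero.2 one_ne_zero))) hd
    refine ⟨d', ?_, ?_⟩
    · rintro rfl
      rw [zero_pow H.prime.ne_zero] at hd''
      exact hne hd''.symm
    · rw [(hz _ (root_rt i)).2, hd', ← map_pow, hd'', map_mul, map_zpow₀, map_pow, map_neg,
        map_one, mul_assoc]
  choose d hd0 hd using h1
  refine ⟨fun i => z (rt k F L Ω α i) / algebraMap F Ω (d i), fun i => ?_, fun σ n hn => ?_⟩
  · rw [div_pow, hd i, mul_div_cancel_left₀]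
    exact pow_ne_zero _ ((_root_.map_ne_zero _).2 (hd0 i))
  · refine hk (toSym (arr α) (galA k F σ)) (zA_fixed ζ (galA k F σ)) ?_ n ?_
    · rw [mapDomain_sym_ramDiv]
      apply ramDiv_congr
      intro θ hθ
      have h2 : (((toSym (arr α) (galA k F σ))⁻¹ : Sym (cOver k F L Ω (arr α))) : Ω ≃+* Ω) θ =
          θ := by
        have h3 : ((toSym (arr α) (galA k F σ))⁻¹ : Sym (cOver k F L Ω (arr α))) =
            toSym (arr α) (galA k F σ)⁻¹ := by
          rw [map_inv]
        rw [h3]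
        exact fix_root (galA k F σ)⁻¹ hθ
      rw [h2]
    · intro θ hθ
      obtain ⟨i, rfl⟩ := root_arr.1 hθ
      have h2 : ((toSym (arr α) (galA k F σ) : Sym (cOver k F L Ω (arr α))) : Ω ≃+* Ω)
          (rt k F L Ω α i) = rt k F L Ω α i := fix_rt (galA k F σ) i
      rw [h2]
      have h3 := hn i
      rw [map_div₀, const_fixed hF, div_eq_iff ((_root_.map_ne_zero _).2 (hd0 i)), mul_assoc,
        div_mul_cancel₀ _ ((_root_.map_ne_zero _).2 (hd0 i))] at h3
      exact h3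

lemma natCast_L_ne {ι : Type} [Fintype ι] [LinearOrder ι] {k : Type u} (F : Type u)
    {L : Type u} [Field k] [Field F] [Algebra k F] [Field L] [Algebra F[X] L] {ℓ : ℕ}
    {α : ι → k[X]} {ζ : k} (H : AHyp ℓ α ζ) : (ℓ : L) ≠ 0 := by
  intro h0
  apply H.ne
  have h1 : Function.Injective ((base k F L L).comp C) := RingHom.injective _
  apply h1
  rw [map_natCast, h0, map_zero]

/-- A fixed point `B` with `(1 - Z) B = ram b` is fixed by `Z`. -/
theorem ram_eq_zero_of_fixed (hF : CompatF F L Ω) (H : AHyp ℓ α ζ) (b : Ω → ℤ)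
    (B : JacOver ℓ (curveL k F L (arr α)) Ω) (hB : B - zJ (zA F L Ω ζ) hζ B = ram b)
    (hfix : ∀ σ : Ω ≃ₐ[L] Ω, symJ (toSym (arr α) (galA k F σ)) B = B) :
    (ram b : JacOver ℓ (curveL k F L (arr α)) Ω) = 0 := by
  have hFc : IsAlgClosed F := IsAlgClosure.isAlgClosed k
  have hg : AGeom (aF F α) := H.geomF
  have hprim : IsPrimitiveRoot (zA F L Ω ζ) ℓ := zA_prim H.lhyp
  have hℓ0 := H.prime.ne_zero
  obtain ⟨z, hz, hk⟩ := kummer_ram hF H b B hB
  have hz0 : ∀ i, z i ≠ 0 := fun i => z_ne hF H.prime (hz i)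
  have hfix2 : ∀ (i j : ι) (σ : Ω ≃ₐ[L] Ω), σ (z i / z j) = z i / z j := by
    intro i j σ
    obtain ⟨n, hn⟩ := exists_n_gal hF H hz σ
    have h1 := hk σ n hn
    rw [hfix σ, sub_self] at h1
    obtain ⟨c, hc⟩ := (ram_eq_zero_iff (zA F L Ω ζ) hprim _).1 h1.symm
    have h2 := hc _ (root_rt (α := α) (k := k) (F := F) (L := L) (A := Ω) i)
    have h3 := hc _ (root_rt (α := α) (k := k) (F := F) (L := L) (A := Ω) j)
    have h4 : zA F L Ω ζ ^ n (rt k F L Ω α i) = zA F L Ω ζ ^ n (rt k F L Ω α j) := by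
      rw [zpow_eq_iff hℓ0 hprim]
      have h5 := dvd_sub h2 h3
      have h6 : n (rt k F L Ω α i) - c - (n (rt k F L Ω α j) - c) =
          n (rt k F L Ω α i) - n (rt k F L Ω α j) := by ring
      rwa [h6] at h5
    rw [map_div₀, hn i, hn j, h4, mul_div_mul_left]
    exact zpow_ne_zero _ (hprim.ne_zero hℓ0)
  -- comparison of the exponents of two functions
  have hd : ∀ i j, ∀ s ∈ SS (aF F α), (ℓ : ℤ) ∣
      cutE (aF F α) (fun j => b (rt k F L Ω α j)) i s -
        cutE (aF F α) (fun j => b (rt k F L Ω α j)) j s := by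
    intro i j
    refine dvd_of_fixed hF H.prime (natCast_L_ne F H) (c := 1) one_ne_zero
      (x := z i / z j)
      (m := fun s => cutE (aF F α) (fun j => b (rt k F L Ω α j)) i s -
        cutE (aF F α) (fun j => b (rt k F L Ω α j)) j s) ?_ (hfix2 i j)
    rw [map_one, one_mul, TP_sub hF, div_pow, hz, hz]
  have hconst : ∀ i j, (ℓ : ℤ) ∣ b (rt k F L Ω α i) - b (rt k F L Ω α j) := by
    intro i j
    by_cases hij : i = j
    · rw [hij, sub_self]
      exact dvd_zero _
    obtain ⟨s, hs⟩ := hg.exists_node hij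
    have hS := mem_SS_of_eq hg hij hs
    by_cases h3 : ∃ l, l ≠ i ∧ l ≠ j
    · obtain ⟨l, hli, hlj⟩ := h3
      have h4 := hd j l s hS
      rw [cutE_node hg _ (Ne.symm hij) hs.symm, cutE_other, sub_zero] at h4
      · exact h4
      · intro l' hl'
        intro h5
        rcases hg.pair hij hl' hs h5 with h6 | h6
        · exact hlj h6.2
        · exact hli h6.2
    · -- only two lines: `ℓ` is odd
      push Not at h3
      have hcard : Fintype.card ι = 2 := by
        have h5 : (Finset.univ : Finset ι) = {i, j} := by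
          ext l
          rw [Finset.mem_insert, Finset.mem_singleton]
          refine ⟨fun _ => ?_, fun _ => Finset.mem_univ _⟩
          by_cases h6 : l = i
          · exact Or.inl h6
          · exact Or.inr (h3 l h6)
        rw [← Finset.card_univ, h5, Finset.card_pair hij]
      have h2ℓ : ℓ ≠ 2 := by
        intro h2
        have h5 := H.cop
        rw [hcard, h2] at h5
        norm_num at h5
      have h4 := hd j i s hS
      rw [cutE_node hg _ (Ne.symm hij) hs.symm, cutE_node hg _ hij hs] at h4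
      have h5 : b (rt k F L Ω α i) - b (rt k F L Ω α j) -
          (b (rt k F L Ω α j) - b (rt k F L Ω α i)) =
            2 * (b (rt k F L Ω α i) - b (rt k F L Ω α j)) := by ring
      rw [h5] at h4
      have h6 : IsCoprime (ℓ : ℤ) (2 : ℤ) := by
        have h7 : ((2 : ℕ) : ℤ) = 2 := rfl
        rw [← h7, Nat.isCoprime_iff_coprime]
        exact (Nat.coprime_primes H.prime Nat.prime_two).2 h2ℓ
      exact h6.dvd_of_dvd_mul_left h4
  by_cases hne : Nonempty ι
  · obtain ⟨i₀⟩ := hne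
    rw [ram_eq_zero_iff (zA F L Ω ζ) hprim]
    refine ⟨b (rt k F L Ω α i₀), fun θ hθ => ?_⟩
    obtain ⟨i, rfl⟩ := root_arr.1 hθ
    exact hconst i i₀
  · rw [ram_eq_zero_iff (zA F L Ω ζ) hprim]
    refine ⟨0, fun θ hθ => ?_⟩
    obtain ⟨i, rfl⟩ := root_arr.1 hθ
    exact absurd ⟨i⟩ hne

/-- The torsion points over `L` are the ramification points. -/
theorem torsRam (hF : CompatF F L Ω) (H : AHyp ℓ α ζ) : TorsRam ℓ k F L Ω (arr α) := by
  have hprim : IsPrimitiveRoot (zA F L Ω ζ) ℓ := zA_prim H.lhyp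
  intro n Q hn hfix
  have h1 := iterate_eq_zero_of_smul (zA F L Ω ζ) hprim n Q hn
  -- descend on the power of `1 - Z`
  have key : ∀ N : ℕ, ∀ Q : JacOver ℓ (curveL k F L (arr α)) Ω,
      (∀ σ : Ω ≃ₐ[L] Ω, symJ (toSym (arr α) (galA k F σ)) Q = Q) →
      (fun x => x - zJ (zA F L Ω ζ) hprim.pow_eq_one x)^[N] Q = 0 →
      Q - zJ (zA F L Ω ζ) hprim.pow_eq_one Q = 0 := by
    intro N
    induction N with
    | zero =>
      intro Q _ h
      rw [Function.iterate_zero, id_eq] at h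
      rw [h, map_zero, sub_zero]
    | succ N ih =>
      intro Q hQ h
      rw [Function.iterate_succ_apply] at h
      have h2 : ∀ σ : Ω ≃ₐ[L] Ω, symJ (toSym (arr α) (galA k F σ))
          (Q - zJ (zA F L Ω ζ) hprim.pow_eq_one Q) =
            Q - zJ (zA F L Ω ζ) hprim.pow_eq_one Q := by
        intro σ
        rw [map_sub, ← zJ_symJ _ _ _ (zA_fixed ζ (galA k F σ)), hQ σ]
      have h3 := ih _ h2 h
      rw [sub_eq_zero] at h3
      obtain ⟨b, hb⟩ := exists_ram_of_zJ_eq (zA F L Ω ζ) hprim _ h3.symm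
      rw [hb]
      exact ram_eq_zero_of_fixed hF H b Q hb hQ
  have h2 := key _ Q hfix h1
  rw [sub_eq_zero] at h2
  exact exists_ram_of_zJ_eq (zA F L Ω ζ) hprim _ h2.symm

variable {c : Coch ℓ k F L Ω (arr α)} {e : ι → F → ℤ}

/-- The exponents of a class which comes from a ramification point. -/
lemma HasExp.of_ram (hF : CompatF F L Ω) (H : AHyp ℓ α ζ) (b : Ω → ℤ)
    (B : JacOver ℓ (curveL k F L (arr α)) Ω) (hB : B - zJ (zA F L Ω ζ) hζ B = ram b)
    (hc : ∀ σ : Ω ≃ₐ[L] Ω, vJ (zA F L Ω ζ) hζ (c 1 σ) =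
      symJ (toSym (arr α) (galA k F σ)) B - B) :
    HasExp hζ c (cutE (aF F α) (fun j => b (rt k F L Ω α j))) := by
  obtain ⟨z, hz, hk⟩ := kummer_ram hF H b B hB
  refine ⟨fun s _ r => ?_, z, hz, fun σ n hn => ?_⟩
  · rw [cutE_sum]
    exact dvd_zero _
  · rw [hc σ]
    exact hk σ n hn

/-- The exponents of the torsion classes. -/
theorem HasExp.cut_of_TTc (hF : CompatF F L Ω) (H : AHyp ℓ α ζ) (h : HasExp hζ c e)
    (hc : TTc c) : ∃ b : ι → ℤ, ∀ s ∈ SS (aF F α), ∀ i,
      (ℓ : ℤ) ∣ e i s - cutE (aF F α) b i s := by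
  have hprim : IsPrimitiveRoot (zA F L Ω ζ) ℓ := zA_prim H.lhyp
  obtain ⟨m, A, hA, hcA⟩ := hc.exists_coboundary 1
  have h1 : ∀ σ : Ω ≃ₐ[L] Ω, vJ (zA F L Ω ζ) hζ (c 1 σ) =
      symJ (toSym (arr α) (galA k F σ)) (vJ (zA F L Ω ζ) hζ A) - vJ (zA F L Ω ζ) hζ A := by
    intro σ
    rw [hcA σ, push_eq, vJ_sub, vJ_symJ _ _ _ (zA_fixed ζ (galA k F σ))]
  have h2 : vJ (zA F L Ω ζ) hζ A - zJ (zA F L Ω ζ) hζ (vJ (zA F L Ω ζ) hζ A) = ℓ • A :=
    vJ_sub_zJ _ hprim _
  have h3 : ∀ σ : Ω ≃ₐ[L] Ω, symJ (toSym (arr α) (galA k F σ)) (ℓ • A) = ℓ • A := by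
    intro σ
    have h4 : ℓ • c 1 σ = 0 := by
      rw [hc.1.smul, hc.1.zero]
    rw [hcA σ, push_eq, smul_sub, sub_eq_zero] at h4
    rw [map_nsmul]
    exact h4
  obtain ⟨b, hb⟩ := torsRam hF H m (ℓ • A) (by
    rw [← mul_nsmul', ← pow_succ, add_comm m 1] at *
    exact hA) h3
  have h5 := HasExp.of_ram (c := c) hF H b (vJ (zA F L Ω ζ) hζ A) (h2.trans hb) h1
  exact ⟨_, h.unique hF H h5⟩

end Pool.Agent.Lib.MP_89bcae_ag.Sup.Lns
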