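import Mathlib
import Pool.Agent.Lib.MP_89bcae_ag.Lns.ABase
import Pool.Agent.Lib.MP_89bcae_ag.Sup.R19
import Pool.Agent.Lib.MP_89bcae_ag.Sup.R20
import Pool.Agent.Lib.MP_89bcae_ag.Sup.R21
import Pool.Agent.Lib.MP_89bcae_ag.Sup.L03

/-!
# Local exponents of the invariant points of the Jacobian

ROW LA02 = the lemmas of this file (formal, 200 lines).
`Γ` is a group of automorphisms which fixes the roots of `f`, `ϖ` an element (an `ℓ`-th root of `t - s`)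
with `σ ϖ = ζ^j ϖ` for `σ` in `Γ`. `LE Γ ζ ϖ x w` : there is `Q` with `(1 - Z) Q = x` and
`σ Q - Q = ram (j w)` for all `σ` in `Γ`, where `σ ϖ = ζ^j ϖ`.
PROOFS.
`LE.fixed`: apply `1 - Z` to `σ Q - Q = ram ..` (`zJ_ram`, `zJ_symJ`).
`LE.add`, `LE.neg`, `LE.sub`: add the points `Q` (`ram_add`, ...).
`LE.of_fixed`: `Q = x'`, `ram 0 = 0`.
`LE.any`: if `(1 - Z) Q = (1 - Z) Q'` then `Q' = Q + ram b` (`exists_ram_of_zJ_eq`) and `σ` fixes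
`ram b` (`symJ_ram`, `ram_congr`; the roots are fixed).
`LE.exists_fixed`: if `w` is constant modulo `ℓ` then `ram (j w) = 0` (`ram_eq_zero_iff`) so `Q` is fixed.
`LE.unique`: by `LE.any` there is one `Q` for both; take `σ ϖ = ζ ϖ`, `j = 1`: `ram w = ram w'`, then
`ram_sub`, `ram_eq_zero_iff`.
`LE.act`: `Q ↦ u Q`; `σ u Q - u Q = u (u⁻¹ σ u Q - Q)`, and `(u⁻¹ σ u) ϖ = ζ^j ϖ` since `u ϖ = ζ^c ϖ`,
`u ζ = ζ`, `σ ζ = ζ`; `u ram = ram` since `u` fixes the roots.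
-/

open Polynomial

open scoped Classical

namespace Pool.Agent.Lib.MP_89bcae_ag.Sup.Lns

universe u

variable {M : Type u} [Field M] {ℓ : ℕ} {f : M[X]} [hG : IsGood ℓ f]

/-- The assumptions on `Γ`, `ζ`, `ϖ`. -/
structure LECtx (ℓ : ℕ) {f : M[X]} (Γ : Subgroup (Sym f)) (ζ ϖ : M) : Prop where
  zeta : IsPrimitiveRoot ζ ℓ
  ne : ϖ ≠ 0
  fixζ : ∀ σ ∈ Γ, (σ : M ≃+* M) ζ = ζ
  fixr : ∀ σ ∈ Γ, ∀ θ, f.eval θ = 0 → (σ : M ≃+* M) θ = θ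
  kum : ∀ σ ∈ Γ, ∃ j : ℤ, (σ : M ≃+* M) ϖ = ζ ^ j * ϖ
  tame : ∃ σ ∈ Γ, (σ : M ≃+* M) ϖ = ζ * ϖ

/-- `w` is a local exponent of the point `x`. -/
def LE (Γ : Subgroup (Sym f)) {ζ : M} (hζ : ζ ^ ℓ = 1) (ϖ : M) (x : Jac ℓ f) (w : M → ℤ) : Prop :=
  ∃ Q : Jac ℓ f, Q - zJ ζ hζ Q = x ∧ ∀ σ ∈ Γ, ∀ j : ℤ, (σ : M ≃+* M) ϖ = ζ ^ j * ϖ →
    symJ σ Q - Q = ram fun θ => j * w θ

variable {Γ : Subgroup (Sym f)} {ζ ϖ : M} {hζ : ζ ^ ℓ = 1} {x y : Jac ℓ f} {w w' : M → ℤ}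

private lemma la02_symJ_mul (σ τ : Sym f) (Q : Jac ℓ f) :
    symJ (σ * τ) Q = symJ σ (symJ τ Q) := by
  obtain ⟨D, rfl⟩ := cl_surjective Q
  rw [symJ_cl, symJ_cl, symJ_cl, ← Finsupp.mapDomain_comp]
  rfl

private lemma la02_ram_zero : (ram (fun _ => 0) : Jac ℓ f) = 0 := by
  have h := ram_sub (ℓ := ℓ) (f := f) (fun _ => 0) (fun _ => 0)
  simpa only [sub_self] using h

private lemma la02_ram_neg (e : M → ℤ) : (ram (fun θ => -e θ) : Jac ℓ f) = -ram e := by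
  have h := ram_sub (ℓ := ℓ) (f := f) (fun _ => 0) e
  rw [la02_ram_zero, zero_sub] at h
  rw [← h]
  congr 1
  funext θ
  ring

private lemma la02_symJ_ram (u : Sym f)
    (hur : ∀ θ, f.eval θ = 0 → (u : M ≃+* M) θ = θ) (e : M → ℤ) :
    symJ u (ram e : Jac ℓ f) = ram e := by
  rw [symJ_ram]
  refine ram_congr _ _ fun θ hθ => ?_
  have h1 : ((u⁻¹ : Sym f) : M ≃+* M) θ = θ := by
    have h2 : ((u⁻¹ : Sym f) : M ≃+* M) ((u : M ≃+* M) θ) = θ := by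
      rw [Subgroup.coe_inv]
      exact (u : M ≃+* M).symm_apply_apply θ
    rwa [hur θ hθ] at h2
  rw [h1, sub_self]
  exact dvd_zero _

lemma LE.fixed (hc : LECtx ℓ Γ ζ ϖ) (h : LE Γ hζ ϖ x w) {σ : Sym f} (hσ : σ ∈ Γ) :
    symJ σ x = x := by
  obtain ⟨Q, hQ, hQ'⟩ := h
  obtain ⟨j, hj⟩ := hc.kum σ hσ
  have h1 := hQ' σ hσ j hj
  have h2 : symJ σ Q = Q + ram (fun θ => j * w θ) := by rw [← h1]; abel
  rw [← hQ, map_sub, ← zJ_symJ ζ hζ σ (hc.fixζ σ hσ), h2, map_add, zJ_ram]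
  abel

lemma LE.congr (h : LE Γ hζ ϖ x w) (hw : ∀ θ, f.eval θ = 0 → (ℓ : ℤ) ∣ w' θ - w θ) :
    LE Γ hζ ϖ x w' := by
  obtain ⟨Q, hQ, hQ'⟩ := h
  refine ⟨Q, hQ, fun σ hσ j hj => ?_⟩
  rw [hQ' σ hσ j hj]
  refine ram_congr _ _ fun θ hθ => ?_
  have h1 := (hw θ hθ).mul_left (-j)
  have h2 : -j * (w' θ - w θ) = j * w θ - j * w' θ := by ring
  rwa [h2] at h1

lemma LE.add (h : LE Γ hζ ϖ x w) (h' : LE Γ hζ ϖ y w') :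
    LE Γ hζ ϖ (x + y) (fun θ => w θ + w' θ) := by
  obtain ⟨Q, hQ, hQ'⟩ := h
  obtain ⟨R, hR, hR'⟩ := h'
  refine ⟨Q + R, ?_, fun σ hσ j hj => ?_⟩
  · rw [← hQ, ← hR, map_add]
    abel
  · have h1 : (fun θ => j * (w θ + w' θ)) = fun θ => j * w θ + j * w' θ := by
      funext θ
      ring
    rw [h1, ram_add, ← hQ' σ hσ j hj, ← hR' σ hσ j hj, map_add]
    abel

lemma LE.neg (h : LE Γ hζ ϖ x w) : LE Γ hζ ϖ (-x) (fun θ => -w θ) := by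
  obtain ⟨Q, hQ, hQ'⟩ := h
  refine ⟨-Q, ?_, fun σ hσ j hj => ?_⟩
  · rw [← hQ, map_neg]
    abel
  · have h1 : (fun θ => j * (-w θ)) = fun θ => -(j * w θ) := by
      funext θ
      ring
    rw [h1, la02_ram_neg, ← hQ' σ hσ j hj, map_neg]
    abel

lemma LE.sub (h : LE Γ hζ ϖ x w) (h' : LE Γ hζ ϖ y w') :
    LE Γ hζ ϖ (x - y) (fun θ => w θ - w' θ) := by
  have h1 := h.add h'.neg
  rw [← sub_eq_add_neg] at h1
  simpa only [← sub_eq_add_neg] using h1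

lemma LE.of_fixed {x' : Jac ℓ f} (hx : ∀ σ ∈ Γ, symJ σ x' = x') :
    LE Γ hζ ϖ (x' - zJ ζ hζ x') (fun _ => 0) := by
  refine ⟨x', rfl, fun σ hσ j _ => ?_⟩
  rw [hx σ hσ, sub_self]
  simp only [mul_zero]
  exact la02_ram_zero.symm

/-- The definition does not depend on the choice of `Q`. -/
lemma LE.any (hc : LECtx ℓ Γ ζ ϖ) (h : LE Γ hζ ϖ x w) {Q : Jac ℓ f} (hQ : Q - zJ ζ hζ Q = x) :
    ∀ σ ∈ Γ, ∀ j : ℤ, (σ : M ≃+* M) ϖ = ζ ^ j * ϖ → symJ σ Q - Q = ram fun θ => j * w θ := by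
  obtain ⟨R, hR, hR'⟩ := h
  intro σ hσ j hj
  have h1 : zJ ζ hc.zeta.pow_eq_one (Q - R) = Q - R := by
    have h2 : Q - zJ ζ hζ Q = R - zJ ζ hζ R := by rw [hQ, hR]
    have h3 : zJ ζ hζ (Q - R) = Q - R := by
      rw [map_sub]
      have h4 : zJ ζ hζ Q - zJ ζ hζ R = Q - R - ((Q - zJ ζ hζ Q) - (R - zJ ζ hζ R)) := by abel
      rw [h4, h2, sub_self, sub_zero]
    exact h3
  obtain ⟨b, hb⟩ := exists_ram_of_zJ_eq ζ hc.zeta (Q - R) h1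
  have h5 : Q = R + ram b := by rw [← hb]; abel
  rw [h5, map_add, la02_symJ_ram σ (hc.fixr σ hσ), ← hR' σ hσ j hj]
  abel

lemma LE.exists_fixed (hc : LECtx ℓ Γ ζ ϖ) (h : LE Γ hζ ϖ x w) {c : ℤ}
    (hw : ∀ θ, f.eval θ = 0 → (ℓ : ℤ) ∣ w θ - c) :
    ∃ x' : Jac ℓ f, x' - zJ ζ hζ x' = x ∧ ∀ σ ∈ Γ, symJ σ x' = x' := by
  obtain ⟨Q, hQ, hQ'⟩ := h
  refine ⟨Q, hQ, fun σ hσ => ?_⟩
  obtain ⟨j, hj⟩ := hc.kum σ hσ
  have h1 : (ram (fun θ => j * w θ) : Jac ℓ f) = 0 := by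
    rw [ram_eq_zero_iff ζ hc.zeta]
    refine ⟨j * c, fun θ hθ => ?_⟩
    rw [← mul_sub]
    exact (hw θ hθ).mul_left j
  have h2 := hQ' σ hσ j hj
  rw [h1, sub_eq_zero] at h2
  exact h2

lemma LE.unique (hc : LECtx ℓ Γ ζ ϖ) (h : LE Γ hζ ϖ x w) (h' : LE Γ hζ ϖ x w') :
    ∃ c : ℤ, ∀ θ, f.eval θ = 0 → (ℓ : ℤ) ∣ w θ - w' θ - c := by
  obtain ⟨Q, hQ, hQ'⟩ := h
  have h1 := h'.any hc hQ
  obtain ⟨σ, hσ, hσ'⟩ := hc.tame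
  have h2 : (σ : M ≃+* M) ϖ = ζ ^ (1 : ℤ) * ϖ := by rw [zpow_one, hσ']
  have h3 := (hQ' σ hσ 1 h2).symm.trans (h1 σ hσ 1 h2)
  simp only [one_mul] at h3
  have h4 : (ram (fun θ => w θ - w' θ) : Jac ℓ f) = 0 := by
    rw [ram_sub]
    exact sub_eq_zero.2 h3
  exact (ram_eq_zero_iff ζ hc.zeta _).1 h4

/-- With the normalisation that the sum over the roots is divisible by `ℓ`. -/
lemma LE.unique_sum (hc : LECtx ℓ Γ ζ ϖ) (h : LE Γ hζ ϖ x w) (h' : LE Γ hζ ϖ x w')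
    (hs : (ℓ : ℤ) ∣ ∑ θ ∈ rts f, w θ) (hs' : (ℓ : ℤ) ∣ ∑ θ ∈ rts f, w' θ) :
    ∀ θ, f.eval θ = 0 → (ℓ : ℤ) ∣ w θ - w' θ := by
  obtain ⟨c, hcc⟩ := h.unique hc h'
  have hf0 : f ≠ 0 := hG.separable.ne_zero
  have h1 : (ℓ : ℤ) ∣ ∑ θ ∈ rts f, (w θ - w' θ - c) :=
    Finset.dvd_sum fun θ hθ => hcc θ ((mem_rts hf0).1 hθ)
  have hcard : (rts f).card = f.natDegree := by
    have := hG.alg
    unfold rts
    rw [Multiset.toFinset_card_of_nodup (nodup_roots hG.separable),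
      IsAlgClosed.card_roots_eq_natDegree]
  rw [Finset.sum_sub_distrib, Finset.sum_sub_distrib, Finset.sum_const, hcard,
    nsmul_eq_mul] at h1
  have h2 : (ℓ : ℤ) ∣ (f.natDegree : ℤ) * c := by
    have h3 := dvd_sub (dvd_sub hs hs') h1
    rwa [sub_sub_cancel] at h3
  have h5 : IsCoprime (ℓ : ℤ) (f.natDegree : ℤ) :=
    (Nat.isCoprime_iff_coprime.mpr hG.coprime).symm
  have h6 : (ℓ : ℤ) ∣ c := h5.dvd_of_dvd_mul_left h2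
  intro θ hθ
  have h7 := dvd_add (hcc θ hθ) h6
  rwa [sub_add_cancel] at h7

lemma LE.act (hc : LECtx ℓ Γ ζ ϖ) (h : LE Γ hζ ϖ x w) (u : Sym f)
    (hu : ∀ σ ∈ Γ, u⁻¹ * σ * u ∈ Γ) (huζ : (u : M ≃+* M) ζ = ζ)
    (hur : ∀ θ, f.eval θ = 0 → (u : M ≃+* M) θ = θ)
    (huϖ : ∃ c : ℤ, (u : M ≃+* M) ϖ = ζ ^ c * ϖ) :
    LE Γ hζ ϖ (symJ u x) w := by
  obtain ⟨Q, hQ, hQ'⟩ := h
  obtain ⟨c, hcu⟩ := huϖ
  have hz0 : ζ ≠ 0 := hc.zeta.ne_zero hG.prime.ne_zero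
  refine ⟨symJ u Q, ?_, fun σ hσ j hj => ?_⟩
  · rw [zJ_symJ ζ hζ u huζ, ← map_sub, hQ]
  · have h1 : ((u⁻¹ * σ * u : Sym f) : M ≃+* M) ϖ = ζ ^ j * ϖ := by
      have h2 : ((u⁻¹ * σ * u : Sym f) : M ≃+* M) ϖ =
          (u : M ≃+* M).symm ((σ : M ≃+* M) ((u : M ≃+* M) ϖ)) := rfl
      rw [h2, RingEquiv.symm_apply_eq, hcu, map_mul, map_zpow₀, hc.fixζ σ hσ, hj, map_mul,
        map_zpow₀, huζ, hcu]
      ring
    have h3 := hQ' _ (hu σ hσ) j h1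
    have h4 := congrArg (symJ u) h3
    rw [la02_symJ_ram u hur, map_sub, ← la02_symJ_mul] at h4
    have h5 : u * (u⁻¹ * σ * u) = σ * u := by group
    rw [h5, la02_symJ_mul] at h4
    exact h4

end Pool.Agent.Lib.MP_89bcae_ag.Sup.Lns
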