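import Mathlib
import Pool.Agent.Lib.MP_89bcae_ag.Lns.LA01
import Pool.Agent.Lib.MP_89bcae_ag.Lns.LA02

/-!
# Local exponents at a place `t = s`: existence, ramification points, functions

ROW LA03 = the lemmas of this file (300 lines).
PROOFS. `leCtx`: as in `Sup/L08.lean` (`exists_tame`): if no element of `Γ` moves `ϖ` by `ζ` then all fix it
(the `j` form a subgroup of `ℤ/ℓ`), so `v ϖ` is in `v(t-s)^ℤ[1/p]` (`LocGrp.disc`) while
`v ϖ ^ ℓ = v (t - s)`, and `p` is prime to `ℓ`. The roots are fixed since they are values of polynomials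
over `F` at `t`.
`exists_LE`: `exists_stable` gives `D` fixed by `Γ` with `cl D = x`; `exists_sub_zJ` gives `Q` with
`(1 - Z) Q = x`; `kummer_formula` gives `z` with `z_θ ^ ℓ = ± uval D θ`. Since `uval D θ` is fixed by `Γ`
(`sym_uval`, the roots are fixed), `v (uval D θ)^(p^m) = v(t-s)^k`; choose the integer `w θ` with
`w θ * p ^ m ≡ k` modulo `ℓ`; then `z_θ / ϖ ^ (w θ)` is fixed by `Γ` (`LocCtx.root_fixed_of_val`,
`Sup/L02.lean`, applied to the fixed element `t - s` in the place of `π'` ... its `ℓ`-th power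
`± uval D θ / (t-s)^(w θ)` is fixed and has its value in `v(t-s) ^ (ℓ ℤ[1/p])`), so `σ z_θ = ζ^(j w θ) z_θ`
if `σ ϖ = ζ^j ϖ`. The sums: `val_uval_line` and `Val.dvd_of_zpow`.
`LE.sum_dvd`: compare with `exists_LE` by `LE.unique`: `w = w' + c`, the sum over all `i` gives
`(card ι) c ≡ 0` and `card ι` is prime to `ℓ` (`IsGood.coprime`, `lineP_natDegree`).
`LE_ram`: `kummer_formula` with `D = ramDiv b` (`mapDomain_sym_ramDiv`, the roots are fixed), `uval_ramDiv`,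
`derivative_lineP`, `v_line_sub`, `v_line_node`: `v (uval (ramDiv b) (A i)) = v(t-s)^(b_j - b_i)`, ..., then
as in `exists_LE`.
`LE_of_kummer`: `z i / ϖ ^ e i` has an `ℓ`-th power which is fixed with value `1`, so it is fixed
(`LocCtx.root_of_unit_fixed`).
-/

open Polynomial

open scoped Classical

namespace Pool.Agent.Lib.MP_89bcae_ag.Sup.Lns

universe u

variable {ι : Type} [Fintype ι] [LinearOrder ι] {F M : Type u} [Field F] [Field M] [Algebra F M]
  {v : AbsoluteValue M ℝ} {s : F} {t : M} {a : ι → F[X]} {ℓ p : ℕ} [hG : IsGood ℓ (lineP a t)]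
  {ζ : F} {Γ : Subgroup (Sym (lineP a t))} {ϖ : M}

omit [Fintype ι] [LinearOrder ι] in
private lemma la3_aeval (τ : M ≃+* M) (hc : ∀ c : F, τ (algebraMap F M c) = algebraMap F M c)
    (ht : τ t = t) (D : F[X]) : τ (aeval t D) = aeval t D := by
  have h3 : τ (aeval t D) = aeval (τ t) D := by
    rw [aeval_def, aeval_def]
    have h4 := hom_eval₂ D (algebraMap F M) (τ : M →+* M) t
    have h5 : (τ : M →+* M).comp (algebraMap F M) = algebraMap F M := RingHom.ext hc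
    rw [h5] at h4
    exact h4
  rw [h3, ht]

private lemma la3_pow (τ : M ≃+* M) {δ z : M} (hτ : τ δ = z * δ) (hz : τ z = z) (n : ℕ) :
    (τ ^ n) δ = z ^ n * δ := by
  induction n with
  | zero => simp
  | succ n ih =>
    rw [pow_succ', RingAut.mul_apply, ih, map_mul, map_pow, hz, hτ]
    ring

omit [LinearOrder ι] hG in
private lemma la3_root (hΓ : LocGrp p F v t (v (t - algebraMap F M s)) Γ)
    {σ : Sym (lineP a t)} (hσ : σ ∈ Γ) (i : ι) :
    (σ : M ≃+* M) (aeval t (a i)) = aeval t (a i) :=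
  la3_aeval _ (hΓ.fix σ hσ) (hΓ.fixt σ hσ) _

omit [LinearOrder ι] hG in
private lemma la3_fixr (hΓ : LocGrp p F v t (v (t - algebraMap F M s)) Γ)
    {σ : Sym (lineP a t)} (hσ : σ ∈ Γ) {θ : M} (hθ : (lineP a t).eval θ = 0) :
    (σ : M ≃+* M) θ = θ := by
  obtain ⟨i, rfl⟩ := eval_lineP_eq_zero.1 hθ
  exact la3_root hΓ hσ i

/-- from a fixed quotient to the exponent -/
private lemma la3_exp (σ : M ≃+* M) {z z1 : M} (hϖ0 : ϖ ≠ 0) {j w : ℤ}
    (hσϖ : σ ϖ = z1 ^ j * ϖ) (hz : σ (z / ϖ ^ w) = z / ϖ ^ w) :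
    σ z = z1 ^ (j * w) * z := by
  have h1 : z = z / ϖ ^ w * ϖ ^ w := by
    rw [div_mul_cancel₀ _ (zpow_ne_zero _ hϖ0)]
  conv_lhs => rw [h1]
  rw [map_mul, hz, map_zpow₀, hσϖ, mul_zpow, ← zpow_mul]
  have h2 : z / ϖ ^ w * (z1 ^ (j * w) * ϖ ^ w) = z1 ^ (j * w) * (z / ϖ ^ w * ϖ ^ w) := by ring
  rw [h2, ← h1]

private lemma la3_div_pow (z : M) (w : ℤ) (ℓ : ℕ) :
    (z / ϖ ^ w) ^ ℓ = z ^ ℓ / (ϖ ^ ℓ) ^ w := by
  rw [div_pow, ← zpow_natCast (ϖ ^ w), ← zpow_mul, mul_comm w, zpow_mul, zpow_natCast]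

/-- the choice of the exponent -/
private lemma la3_choice {x y : ℝ} (hp : p.Coprime ℓ) (hy : 0 < y)
    (hx : Val p y x) : ∃ w : ℤ, Val p (y ^ ℓ) (x / y ^ w) := by
  obtain ⟨m, k, hk⟩ := hx
  have hco : IsCoprime ((p ^ m : ℕ) : ℤ) (ℓ : ℤ) :=
    Nat.isCoprime_iff_coprime.2 (Nat.Coprime.pow_left m hp)
  obtain ⟨u, q, huq⟩ := hco
  refine ⟨k * u, m, k * q, ?_⟩
  rw [div_pow, hk, ← zpow_natCast (y ^ (k * u)), ← zpow_mul, ← zpow_sub₀ hy.ne',
    ← zpow_natCast y ℓ, ← zpow_mul]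
  congr 1
  linear_combination (-k) * huq

omit [LinearOrder ι] hG in
private lemma la3_pos (h : LocCtx v s t) : 0 < v (t - algebraMap F M s) :=
  v.pos (sub_ne_zero.2 h.ne)

omit [LinearOrder ι] hG in
private lemma la3_fixts (hΓ : LocGrp p F v t (v (t - algebraMap F M s)) Γ)
    {σ : Sym (lineP a t)} (hσ : σ ∈ Γ) :
    (σ : M ≃+* M) (t - algebraMap F M s) = t - algebraMap F M s := by
  rw [map_sub, hΓ.fixt σ hσ, hΓ.fix σ hσ]

omit [LinearOrder ι] in
/-- The exponents of an `ℓ`-th root of a fixed element. -/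
private lemma la3_key (h : LocCtx v s t) (hp : p.Coprime ℓ) (hζ : IsPrimitiveRoot ζ ℓ)
    (hΓ : LocGrp p F v t (v (t - algebraMap F M s)) Γ) (hϖ : ϖ ^ ℓ = t - algebraMap F M s)
    {σ : Sym (lineP a t)} (hσ : σ ∈ Γ) {z : M} (hz0 : z ≠ 0)
    (hz : (σ : M ≃+* M) (z ^ ℓ) = z ^ ℓ) {w : ℤ}
    (hw : Val p (v (t - algebraMap F M s) ^ ℓ) (v (z ^ ℓ) / v (t - algebraMap F M s) ^ w))
    {j : ℤ} (hj : (σ : M ≃+* M) ϖ = algebraMap F M ζ ^ j * ϖ) :
    (σ : M ≃+* M) z = algebraMap F M ζ ^ (j * w) * z := by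
  have hℓ := hG.prime
  have hts : t - algebraMap F M s ≠ 0 := sub_ne_zero.2 h.ne
  have hϖ0 : ϖ ≠ 0 := by
    rintro rfl
    apply hts
    rw [← hϖ, zero_pow hℓ.ne_zero]
  refine la3_exp (σ : M ≃+* M) hϖ0 hj ?_
  refine h.root_fixed_of_val (π' := t - algebraMap F M s) hℓ.ne_zero hp hζ (σ : M ≃+* M)
    (hΓ.inv σ hσ) (hΓ.fix σ hσ) (div_ne_zero hz0 (zpow_ne_zero _ hϖ0)) hts
    (la3_fixts hΓ hσ) ?_ ?_
  · rw [la3_div_pow, hϖ, map_div₀, hz, map_zpow₀, la3_fixts hΓ hσ]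
  · rw [la3_div_pow, hϖ, map_div₀, map_zpow₀]
    exact hw

private lemma la3_sgn (n : ℤ) (ℓ : ℕ) : v (((-1 : M) ^ (ℓ + 1)) ^ n) = 1 := by
  rw [map_zpow₀, map_pow, AbsoluteValue.map_neg, map_one, one_pow, one_zpow]

/-- The local exponent from a stable divisor. -/
private lemma la3_LE (h : LocCtx v s t) (hp : p.Coprime ℓ) (hζ : IsPrimitiveRoot ζ ℓ)
    (hζ' : IsPrimitiveRoot (algebraMap F M ζ) ℓ)
    (hΓ : LocGrp p F v t (v (t - algebraMap F M s)) Γ) (hϖ : ϖ ^ ℓ = t - algebraMap F M s)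
    (D : Pt ℓ (lineP a t) →₀ ℤ) (hD : ∀ σ ∈ Γ, D.mapDomain (Pt.sym σ) = D) (w : M → ℤ)
    (hw : ∀ θ, (lineP a t).eval θ = 0 → Val p (v (t - algebraMap F M s) ^ ℓ)
      (v (uval D θ) / v (t - algebraMap F M s) ^ w θ)) :
    LE Γ hζ'.pow_eq_one ϖ (cl D) w := by
  obtain ⟨Q, hQ⟩ := exists_sub_zJ (algebraMap F M ζ) hζ' (cl D)
  obtain ⟨z, hz, hkum⟩ := kummer_formula (algebraMap F M ζ) hζ' Q D hQ
  refine ⟨Q, hQ, fun σ hσ j hj => ?_⟩
  refine hkum σ (hΓ.fix σ hσ ζ) (hD σ hσ) _ fun θ hθ => ?_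
  obtain ⟨hz0, hzℓ⟩ := hz θ hθ
  rw [la3_fixr hΓ hσ hθ]
  refine la3_key h hp hζ hΓ hϖ hσ hz0 ?_ ?_ hj
  · rw [hzℓ, map_mul, sym_uval σ D (hD σ hσ), la3_fixr hΓ hσ hθ, map_zpow₀, map_pow, map_neg,
      map_one]
  · rw [hzℓ, map_mul, la3_sgn, one_mul]
    exact hw θ hθ


private lemma la3_erase {κ N : Type*} [DecidableEq κ] [CommMonoid N] (S : Finset κ) (x : κ) (g : κ → N) :
    ∏ y ∈ S.erase x, g y = ∏ y ∈ S, if y = x then 1 else g y := by
  rw [← Finset.prod_erase S (a := x) (f := fun y => if y = x then 1 else g y) (if_pos rfl)]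
  exact Finset.prod_congr rfl fun y hy => (if_neg (Finset.ne_of_mem_erase hy)).symm

private lemma la3_prod {x : ℝ} (hx : x ≠ 0) {κ : Type*} (S : Finset κ) (g : κ → ℤ) :
    ∏ i ∈ S, x ^ g i = x ^ ∑ i ∈ S, g i := by
  induction S using Finset.induction_on with
  | empty => simp
  | insert i S hi ih => rw [Finset.prod_insert hi, Finset.sum_insert hi, zpow_add₀ hx, ih]

lemma leCtx (h : LocCtx v s t) (hp : p.Coprime ℓ) (hζ : IsPrimitiveRoot ζ ℓ)
    (hζ' : IsPrimitiveRoot (algebraMap F M ζ) ℓ)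
    (hΓ : LocGrp p F v t (v (t - algebraMap F M s)) Γ) (hϖ : ϖ ^ ℓ = t - algebraMap F M s) :
    LECtx ℓ Γ (algebraMap F M ζ) ϖ := by
  have hℓ := hG.prime
  have hts : t - algebraMap F M s ≠ 0 := sub_ne_zero.2 h.ne
  have hϖ0 : ϖ ≠ 0 := by
    rintro rfl
    apply hts
    rw [← hϖ, zero_pow hℓ.ne_zero]
  have hvϖ : v ϖ ^ ℓ = v (t - algebraMap F M s) := by rw [← map_pow, hϖ]
  have hv0 : 0 < v ϖ := v.pos hϖ0
  have hv1 : v ϖ < 1 := by
    by_contra hcon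
    push Not at hcon
    have h1 : 1 ≤ v ϖ ^ ℓ := one_le_pow₀ hcon
    rw [hvϖ] at h1
    exact absurd h.lt_one (not_lt.mpr h1)
  have hval : ∀ τ ∈ Γ, ∃ j < ℓ, (τ : M ≃+* M) ϖ = algebraMap F M ζ ^ j * ϖ := by
    intro τ hτ
    have h1 : ((τ : M ≃+* M) ϖ) ^ ℓ = ϖ ^ ℓ := by
      rw [← map_pow, hϖ]
      exact la3_fixts hΓ hτ
    have h3 : ((τ : M ≃+* M) ϖ / ϖ) ^ ℓ = 1 := by
      rw [div_pow, h1, div_self (pow_ne_zero ℓ hϖ0)]
    have : NeZero ℓ := ⟨hℓ.ne_zero⟩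
    obtain ⟨j, hj, hj'⟩ := hζ'.eq_pow_of_pow_eq_one h3
    exact ⟨j, hj, by rw [hj', div_mul_cancel₀ _ hϖ0]⟩
  refine ⟨hζ', hϖ0, fun σ hσ => hΓ.fix σ hσ ζ, fun σ hσ θ hθ => la3_fixr hΓ hσ hθ,
    fun σ hσ => ?_, ?_⟩
  · obtain ⟨j, -, hj⟩ := hval σ hσ
    exact ⟨j, by rw [zpow_natCast]; exact hj⟩
  · obtain ⟨τ, hτ, j, hj, hj0, hτj⟩ : ∃ τ ∈ Γ, ∃ j < ℓ, j ≠ 0 ∧
        (τ : M ≃+* M) ϖ = algebraMap F M ζ ^ j * ϖ := by
      by_contra hcon
      push Not at hcon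
      have h1 : ∀ σ ∈ Γ, (σ : M ≃+* M) ϖ = ϖ := by
        intro σ hσ
        obtain ⟨j, hj, hj'⟩ := hval σ hσ
        by_cases hj0 : j = 0
        · rw [hj', hj0, pow_zero, one_mul]
        · exact absurd hj' (hcon σ hσ j hj hj0)
      have h3 := hΓ.disc ϖ hϖ0 h1
      rw [← hvϖ] at h3
      have h4 := Val.dvd_of_zpow hp hv0 hv1 1 (by rw [zpow_one]; exact h3)
      have h5 : (ℓ : ℤ) ≤ 1 := Int.le_of_dvd one_pos h4
      have h6 := hℓ.one_lt
      omega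
    have hcop : Nat.Coprime j ℓ :=
      Nat.Coprime.symm ((Nat.Prime.coprime_iff_not_dvd hℓ).mpr
        (fun h0 => absurd (Nat.le_of_dvd (Nat.pos_of_ne_zero hj0) h0) (not_le.mpr hj)))
    obtain ⟨i, -, hi⟩ := Nat.exists_mul_mod_eq_one_of_coprime hcop hℓ.one_lt
    refine ⟨τ ^ i, Subgroup.pow_mem _ hτ i, ?_⟩
    have h1 : ((τ ^ i : Sym (lineP a t)) : M ≃+* M) = (τ : M ≃+* M) ^ i := rfl
    rw [h1, la3_pow (τ : M ≃+* M) hτj (by rw [map_pow, hΓ.fix τ hτ]), ← pow_mul]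
    congr 1
    rw [← Nat.div_add_mod (j * i) ℓ, hi, pow_add, pow_mul, hζ'.pow_eq_one, one_pow, one_mul,
      pow_one]

/-- Every invariant point has a local exponent, whose sum over each class of roots is divisible
by `ℓ`. -/
theorem exists_LE (h : LocCtx v s t) (hp : p.Coprime ℓ) (hζ : IsPrimitiveRoot ζ ℓ)
    (hζ' : IsPrimitiveRoot (algebraMap F M ζ) ℓ)
    (hΓ : LocGrp p F v t (v (t - algebraMap F M s)) Γ) (hϖ : ϖ ^ ℓ = t - algebraMap F M s)
    (x : Jac ℓ (lineP a t)) (hx : ∀ σ ∈ Γ, symJ σ x = x) :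
    ∃ w : M → ℤ, LE Γ hζ'.pow_eq_one ϖ x w ∧
      ∀ r : F, (ℓ : ℤ) ∣ ∑ i ∈ Finset.univ.filter (fun i => (a i).eval s = r),
        w (aeval t (a i)) := by
  have hℓ := hG.prime
  have hv0 := la3_pos h
  have hv1 := h.lt_one
  obtain ⟨D, hD, hDσ⟩ := exists_stable (algebraMap F M ζ) hζ' (Γ : Set (Sym (lineP a t))) x hx
  have hch : ∀ θ : M, ∃ w : ℤ, (lineP a t).eval θ = 0 →
      Val p (v (t - algebraMap F M s) ^ ℓ) (v (uval D θ) / v (t - algebraMap F M s) ^ w) := by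
    intro θ
    by_cases hθ : (lineP a t).eval θ = 0
    · have h1 := hΓ.disc (uval D θ) (uval_ne_zero D hθ) (fun σ hσ => by
        rw [sym_uval σ D (hDσ σ hσ), la3_fixr hΓ hσ hθ])
      obtain ⟨w, hw⟩ := la3_choice hp hv0 h1
      exact ⟨w, fun _ => hw⟩
    · exact ⟨0, fun h0 => absurd h0 hθ⟩
  choose w hw using hch
  refine ⟨w, ?_, fun r => ?_⟩
  · have h1 := la3_LE h hp hζ hζ' hΓ hϖ D hDσ w hw
    rw [hD] at h1
    exact h1
  · have h1 := val_uval_line h hΓ D hDσ r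
    have h2 : Val p (v (t - algebraMap F M s) ^ ℓ)
        (∏ i ∈ Finset.univ.filter (fun i => (a i).eval s = r),
          (v (uval D (aeval t (a i))) / v (t - algebraMap F M s) ^ w (aeval t (a i)))) :=
      Val.prod _ _ fun i _ => hw _ (root_lineP i)
    have h3 := h1.mul h2.inv
    have h4 : (∏ i ∈ Finset.univ.filter (fun i => (a i).eval s = r),
        v (uval D (aeval t (a i)))) *
        (∏ i ∈ Finset.univ.filter (fun i => (a i).eval s = r),
          (v (uval D (aeval t (a i))) / v (t - algebraMap F M s) ^ w (aeval t (a i))))⁻¹ =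
        v (t - algebraMap F M s) ^ (∑ i ∈ Finset.univ.filter (fun i => (a i).eval s = r),
          w (aeval t (a i))) := by
      rw [Finset.prod_div_distrib, inv_div, mul_div_assoc', mul_comm, mul_div_cancel_right₀]
      · exact la3_prod hv0.ne' _ _
      · exact Finset.prod_ne_zero_iff.2 fun i _ =>
          v.ne_zero (uval_ne_zero D (root_lineP i))
    rw [h4] at h3
    exact Val.dvd_of_zpow hp hv0 hv1 _ h3

theorem LE.sum_dvd (h : LocCtx v s t) (hp : p.Coprime ℓ) (hζ : IsPrimitiveRoot ζ ℓ)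
    (hζ' : IsPrimitiveRoot (algebraMap F M ζ) ℓ)
    (hΓ : LocGrp p F v t (v (t - algebraMap F M s)) Γ) (hϖ : ϖ ^ ℓ = t - algebraMap F M s)
    {x : Jac ℓ (lineP a t)} {w : M → ℤ} (hx : LE Γ hζ'.pow_eq_one ϖ x w)
    (hsum : (ℓ : ℤ) ∣ ∑ i, w (aeval t (a i))) (r : F) :
    (ℓ : ℤ) ∣ ∑ i ∈ Finset.univ.filter (fun i => (a i).eval s = r), w (aeval t (a i)) := by
  have hℓ := hG.prime
  have hc := leCtx (a := a) h hp hζ hζ' hΓ hϖ
  obtain ⟨w', hw', hs'⟩ := exists_LE h hp hζ hζ' hΓ hϖ x (fun σ hσ => hx.fixed hc hσ)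
  obtain ⟨c, hcc⟩ := hx.unique hc hw'
  have hall : (ℓ : ℤ) ∣ ∑ i, w' (aeval t (a i)) := by
    have h1 := Finset.sum_fiberwise_of_maps_to (s := (Finset.univ : Finset ι))
      (t := Finset.univ.image fun i => (a i).eval s) (g := fun i => (a i).eval s)
      (fun i hi => Finset.mem_image_of_mem _ hi) (fun i => w' (aeval t (a i)))
    rw [← h1]
    exact Finset.dvd_sum fun r _ => hs' r
  have hd : (ℓ : ℤ) ∣ (Fintype.card ι : ℤ) * c := by
    have h1 : (ℓ : ℤ) ∣ ∑ i, (w (aeval t (a i)) - w' (aeval t (a i)) - c) :=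
      Finset.dvd_sum fun i _ => hcc _ (root_lineP i)
    rw [Finset.sum_sub_distrib, Finset.sum_sub_distrib, Finset.sum_const, Finset.card_univ,
      nsmul_eq_mul] at h1
    have h2 := dvd_sub (dvd_sub hsum hall) h1
    simpa using h2
  have hc0 : (ℓ : ℤ) ∣ c := by
    have hco : IsCoprime (ℓ : ℤ) (Fintype.card ι : ℤ) := by
      have h1 := hG.coprime
      rw [lineP_natDegree] at h1
      exact (Nat.isCoprime_iff_coprime.2 h1).symm
    exact hco.dvd_of_dvd_mul_left hd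
  have h1 : (ℓ : ℤ) ∣ ∑ i ∈ Finset.univ.filter (fun i => (a i).eval s = r),
      (w (aeval t (a i)) - w' (aeval t (a i))) := by
    refine Finset.dvd_sum fun i _ => ?_
    have h2 := dvd_add (hcc _ (root_lineP (a := a) (t := t) i)) hc0
    rwa [sub_add_cancel] at h2
  rw [Finset.sum_sub_distrib] at h1
  have h2 := dvd_add h1 (hs' r)
  rwa [sub_add_cancel] at h2

/-- The local exponents of the ramification points at a root `s` of `a_i - a_j`. -/
theorem LE_ram (hg : AGeom a) (h : LocCtx v s t) (hp : p.Coprime ℓ) (hζ : IsPrimitiveRoot ζ ℓ)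
    (hζ' : IsPrimitiveRoot (algebraMap F M ζ) ℓ)
    (hΓ : LocGrp p F v t (v (t - algebraMap F M s)) Γ) (hϖ : ϖ ^ ℓ = t - algebraMap F M s)
    {i j : ι} (hij : i ≠ j) (hs : (a i).eval s = (a j).eval s) (b w : M → ℤ)
    (hi : w (aeval t (a i)) = b (aeval t (a j)) - b (aeval t (a i)))
    (hj : w (aeval t (a j)) = b (aeval t (a i)) - b (aeval t (a j)))
    (hl : ∀ l, l ≠ i → l ≠ j → w (aeval t (a l)) = 0) :
    LE Γ hζ'.pow_eq_one ϖ (ram b) w := by
  have hℓ := hG.prime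
  have hv0 := la3_pos h
  have hsep : (lineP a t).Separable := IsGood.separable ℓ
  have hD : ∀ σ ∈ Γ, (ramDiv b : Pt ℓ (lineP a t) →₀ ℤ).mapDomain (Pt.sym σ) = ramDiv b := by
    intro σ hσ
    rw [mapDomain_sym_ramDiv]
    refine ramDiv_congr _ _ fun θ hθ => ?_
    rw [la3_fixr hΓ (Γ.inv_mem hσ) hθ]
  have hval : ∀ m : ι, v (uval (ramDiv b : Pt ℓ (lineP a t) →₀ ℤ) (aeval t (a m))) =
      ∏ l ∈ Finset.univ.erase m, v (aeval t (a m) - aeval t (a l)) ^
        (b (aeval t (a l)) - b (aeval t (a m))) := by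
    intro m
    have hne : ∀ l ∈ Finset.univ.erase m, v (aeval t (a m) - aeval t (a l)) ≠ 0 := by
      intro l hl
      refine v.ne_zero (sub_ne_zero.2 fun h0 => (Finset.ne_of_mem_erase hl) ?_)
      exact (lineP_injective hsep h0).symm
    rw [uval_ramDiv b (root_lineP m), derivative_lineP, map_mul, map_zpow₀, map_inv₀, map_prod,
      ← Finset.prod_inv_distrib, ← Finset.prod_zpow]
    have h1 : ∏ θ' ∈ (lineP a t).roots.toFinset.erase (aeval t (a m)),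
        (aeval t (a m) - θ') ^ b θ' = ∏ l ∈ Finset.univ.erase m,
          (aeval t (a m) - aeval t (a l)) ^ b (aeval t (a l)) := by
      have h2 := prod_rts_lineP (a := a) (t := t) hsep
        (fun θ' => if θ' = aeval t (a m) then 1 else (aeval t (a m) - θ') ^ b θ')
      have h3 : ∏ θ' ∈ (lineP a t).roots.toFinset.erase (aeval t (a m)),
          (aeval t (a m) - θ') ^ b θ' = ∏ θ' ∈ rts (lineP a t),
            (if θ' = aeval t (a m) then 1 else (aeval t (a m) - θ') ^ b θ') :=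
        la3_erase _ _ _
      have h4 : ∏ l ∈ Finset.univ.erase m,
          (aeval t (a m) - aeval t (a l)) ^ b (aeval t (a l)) = ∏ l,
            (if aeval t (a l) = aeval t (a m) then (1 : M) else
              (aeval t (a m) - aeval t (a l)) ^ b (aeval t (a l))) := by
        rw [la3_erase]
        refine Finset.prod_congr rfl fun l _ => ?_
        by_cases hlm : l = m
        · rw [if_pos hlm, if_pos (by rw [hlm])]
        · rw [if_neg hlm, if_neg fun h0 => hlm (lineP_injective hsep h0)]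
      rw [h3, h2, h4]
    rw [h1, map_prod, ← Finset.prod_mul_distrib]
    refine Finset.prod_congr rfl fun l hl => ?_
    rw [map_zpow₀, inv_zpow', ← zpow_add₀ (hne l hl)]
    congr 1
    ring
  have hone : ∀ m l : ι, m ≠ l → (a m).eval s ≠ (a l).eval s → ∀ n : ℤ,
      v (aeval t (a m) - aeval t (a l)) ^ n = 1 := by
    intro m l _ hml n
    rw [v_line_sub h hml, one_zpow]
  have hvw : ∀ m : ι, v (uval (ramDiv b : Pt ℓ (lineP a t) →₀ ℤ) (aeval t (a m))) =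
      v (t - algebraMap F M s) ^ w (aeval t (a m)) := by
    intro m
    rw [hval]
    by_cases hmi : m = i
    · subst hmi
      rw [Finset.prod_eq_single_of_mem j (Finset.mem_erase.2 ⟨hij.symm, Finset.mem_univ _⟩)]
      · rw [v_line_node h hs (hg.simple hij hs), hi]
      · intro l hl hlj
        exact hone _ _ (Finset.ne_of_mem_erase hl).symm
          (hg.third hij (Finset.ne_of_mem_erase hl) hlj hs).symm _
    · by_cases hmj : m = j
      · subst hmj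
        rw [Finset.prod_eq_single_of_mem i (Finset.mem_erase.2 ⟨hij, Finset.mem_univ _⟩)]
        · rw [v_line_node h hs.symm (hg.simple hij.symm hs.symm), hj]
        · intro l hl hli
          exact hone _ _ (Finset.ne_of_mem_erase hl).symm
            (hg.third hij.symm (Finset.ne_of_mem_erase hl) hli hs.symm).symm _
      · rw [hl m hmi hmj, zpow_zero]
        refine Finset.prod_eq_one fun l hl' => ?_
        have hml : m ≠ l := (Finset.ne_of_mem_erase hl').symm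
        refine hone _ _ hml (fun h0 => ?_) _
        rcases hg.pair hij hml hs h0 with h1 | h1
        · exact hmi h1.1
        · exact hmj h1.1
  have hfin := la3_LE h hp hζ hζ' hΓ hϖ (ramDiv b) hD w (fun θ hθ => by
    obtain ⟨m, rfl⟩ := eval_lineP_eq_zero.1 hθ
    rw [hvw, div_self (zpow_ne_zero _ hv0.ne')]
    exact Val.one _ _)
  exact hfin

/-- The local exponents of a point given by functions. -/
theorem LE_of_kummer (h : LocCtx v s t) (hζ : IsPrimitiveRoot ζ ℓ)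
    (hζ' : IsPrimitiveRoot (algebraMap F M ζ) ℓ)
    (hΓ : LocGrp p F v t (v (t - algebraMap F M s)) Γ) (hϖ : ϖ ^ ℓ = t - algebraMap F M s)
    (Q : Jac ℓ (lineP a t)) (z y : ι → M) (e : ι → ℤ)
    (hz : ∀ i, z i ^ ℓ = (t - algebraMap F M s) ^ e i * y i) (hy : ∀ i, v (y i) = 1)
    (hfix : ∀ σ ∈ Γ, ∀ i, (σ : M ≃+* M) (y i) = y i)
    (hQ : ∀ σ ∈ Γ, ∀ n : M → ℤ,
      (∀ i, (σ : M ≃+* M) (z i) = algebraMap F M ζ ^ n (aeval t (a i)) * z i) →
        symJ σ Q - Q = ram n)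
    (w : M → ℤ) (hw : ∀ i, w (aeval t (a i)) = e i) :
    LE Γ hζ'.pow_eq_one ϖ (Q - zJ (algebraMap F M ζ) hζ'.pow_eq_one Q) w := by
  have hℓ := hG.prime
  have hts : t - algebraMap F M s ≠ 0 := sub_ne_zero.2 h.ne
  have hϖ0 : ϖ ≠ 0 := by
    rintro rfl
    apply hts
    rw [← hϖ, zero_pow hℓ.ne_zero]
  refine ⟨Q, rfl, fun σ hσ j hj => ?_⟩
  refine hQ σ hσ _ fun i => ?_
  rw [hw i]
  refine la3_exp (σ : M ≃+* M) hϖ0 hj ?_
  have h1 : (z i / ϖ ^ e i) ^ ℓ = y i := by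
    rw [la3_div_pow, hϖ, hz, mul_div_cancel_left₀ _ (zpow_ne_zero _ hts)]
  refine h.root_of_unit_fixed hℓ.ne_zero hζ (σ : M ≃+* M) (hΓ.inv σ hσ) (hΓ.fix σ hσ) ?_ ?_
  · have h2 : v (z i / ϖ ^ e i) ^ ℓ = 1 := by rw [← map_pow, h1, hy]
    exact (pow_eq_one_iff_of_nonneg (v.nonneg _) hℓ.ne_zero).mp h2
  · rw [h1, hfix σ hσ i]

end Pool.Agent.Lib.MP_89bcae_ag.Sup.Lns
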