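import Mathlib
import Pool.Agent.Lib.MP_89bcae_ag.Lns.LA03

/-!
# The formula at a node

ROW LA04 = the theorem of this file (300-400 lines).
`s` is a root of `a_i - a_j`, `z, z' : ι → M` with `z_i^ℓ = ∏_{s'} (t-s')^{e_i(s')}`, `z'` the same for `e'`,
`Q` a point with `(1 - Z)(τ Q - Q) = ram n_τ` for `τ` in `Γ`, `τ z_i = ζ^{n_τ(i)} z_i`; `u z_i = ζ^{q(i)} z_i`;
`B` with `(1 - Z) B = ram (b - q)`;
`ram n'_τ = u (u⁻¹ τ u Q - Q) - (τ Q - Q) + (τ B - B)` if `τ z'_i = ζ^{n'_τ(i)} z'_i`.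
PROOF. `A_i = aeval t (a i)`, `π = 1 - Z`, `ε = e i s`.
1. `Q₁ = π Q`, `x = π Q₁`: `LE_of_kummer` for `Q₁` gives `LE x (e · s)`
(`y_i = ∏_{s' ≠ s} (t - s')^{e i s'}`, values `1`).
2. `ρ := ε` at `A_j` and `0` at the other roots; `LE (ram ρ) w` with `w(A_i) = ε`, `w(A_j) = -ε`, `0` elsewhere
(`LE_ram`); by `hnode` (`e j s ≡ -ε`, `e l s ≡ 0`: `AGeom.third`, the sets `{l | a_l(s) = r}` are `{i, j}` or
`{l}`) and `LE.sub`, `LE.exists_fixed`: `x - ram ρ = π x'` with `x'` fixed by `Γ`. Let `B₀ := Q₁ - x'`,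
`π B₀ = ram ρ`.
3. `Q' := u Q - Q + B`; for `τ` in `Γ`, `τ Q' - Q' = u (u⁻¹ τ u Q - Q) - (τ Q - Q) + (τ B - B)`
(`symJ` of products). So `LE_of_kummer` for `Q'` and `z'`: `LE (π Q') (e' · s)`.
4. `π Q' = u Q₁ - Q₁ + ram (b - q) = (u B₀ - B₀) + (u x' - x') + ram (b - q)`.
`kummer_formula` for `B₀`, `D = ramDiv ρ` and `u` (fixing the roots and `ζ`): `z''` with
`z''_θ ^ ℓ = ± uval (ramDiv ρ) θ` and `u B₀ - B₀ = ram n` if `u z''_θ = ζ^{n θ} z''_θ`.
But `x'` needs an exponent: `exists_LE` for `x'` (`w₁`), `LE.act` for `u x'` (the same `w₁`), so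
`LE (u x' - x') 0`. So `LE (π Q') w''`, `w''(A_i) = (n - q + b)(A_j) - (n - q + b)(A_i)`,
`w''(A_j) = - w''(A_i)`, `0` elsewhere (`LE_ram`). By `LE.unique_sum`:
`e' i s ≡ (n - q + b)(A_j) - (n - q + b)(A_i)` modulo `ℓ`.
5. Residues: `(z''_i / z_i)^ℓ` has value `1` and residue
`X_i = (a_i - a_j)'(s)^ε ∏_{s' ≠ s} (s - s')^{-e_i(s')}` and `(z''_j / z_j)^ℓ` has value `1` and residue
`X_j = ((-1)^{ℓ+1})^ε ((a_j - a_i)'(s) ∏_{l ≠ i, j} (a_j(s) - a_l(s)))^{-ε} ∏_{s' ≠ s} (s - s')^{-e_j(s')}`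
(`uval_ramDiv`, `derivative_lineP`, `residue_simple`). If `y^ℓ = X_i`, then `U y = ζ^{(n-q)(A_i)} y` (the residue
of `z''_i / z_i` is an `ℓ`-th root of `X_i`, so it is `ζ^k y`; `u (z''_i/z_i) = ζ^{n-q} z''_i/z_i`, take
residues: see the end of the proof of `LocCtx.bad_formula` in `Sup/L09.lean`), the same for `j`; `x` is
`(-1)^ε y_j / y_i` up to a root of unity: `((-1)^ℓ)^ε x^ℓ = X_j / X_i`.
-/

open Polynomial

open scoped Classical

namespace Pool.Agent.Lib.MP_89bcae_ag.Sup.Lns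

universe u

variable {ι : Type} [Fintype ι] [LinearOrder ι] {F M : Type u} [Field F] [Field M] [Algebra F M]
  {v : AbsoluteValue M ℝ} {s : F} {t : M} {a : ι → F[X]} {ℓ p : ℕ} [hG : IsGood ℓ (lineP a t)]
  {ζ : F} {Γ : Subgroup (Sym (lineP a t))}

/-- The product which appears in the formula at a root `s` of `a_i - a_j`. -/
noncomputable def nodeX (a : ι → F[X]) (e : ι → F → ℤ) (i j : ι) (s : F) : F :=
  (derivative (a i - a j)).eval s ^ (-2 * e i s) *
    (∏ l ∈ (Finset.univ.erase i).erase j, ((a i).eval s - (a l).eval s) ^ (-e i s)) *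
      ∏ s' ∈ (SS a).erase s, (s - s') ^ (e i s' - e j s')

private lemma LA04_exists_zpow {K : Type*} [Field K] {ℓ : ℕ} (hℓ : ℓ ≠ 0) {ζ : K}
    (hζ : IsPrimitiveRoot ζ ℓ) {x y : K} (hy : y ≠ 0) (h : x ^ ℓ = y ^ ℓ) :
    ∃ k : ℤ, x = ζ ^ k * y := by
  have : NeZero ℓ := ⟨hℓ⟩
  have h1 : (x / y) ^ ℓ = 1 := by
    rw [div_pow, h, div_self (pow_ne_zero _ hy)]
  obtain ⟨i, _, hi⟩ := hζ.eq_pow_of_pow_eq_one h1
  refine ⟨i, ?_⟩
  rw [zpow_natCast, hi, div_mul_cancel₀ _ hy]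

private lemma LA04_zpow_eq {K : Type*} [Field K] {ℓ : ℕ} (hℓ : ℓ ≠ 0) {ζ : K}
    (hζ : IsPrimitiveRoot ζ ℓ) {i j : ℤ} (h : (ℓ : ℤ) ∣ i - j) : ζ ^ i = ζ ^ j := by
  obtain ⟨k, hk⟩ := h
  have h0 : ζ ≠ 0 := hζ.ne_zero hℓ
  have : i = j + ℓ * k := by omega
  rw [this, zpow_add₀ h0, zpow_mul, zpow_natCast, hζ.pow_eq_one, one_zpow, mul_one]

private lemma LA04_symJ_mul {ℓ : ℕ} {E : Type u} [Field E] {f : E[X]} [hG : IsGood ℓ f]
    (σ τ : Sym f) (Q : Jac ℓ f) : symJ (σ * τ) Q = symJ σ (symJ τ Q) := by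
  obtain ⟨D, rfl⟩ := cl_surjective Q
  rw [symJ_cl, symJ_cl, symJ_cl, ← Finsupp.mapDomain_comp]
  rfl

private lemma LA04_res_const (x : F) : v (algebraMap F M x - algebraMap F M x) < 1 := by
  rw [sub_self, map_zero]; exact one_pos

private lemma LA04_res_sub (h : LocCtx v s t) {x y : M} {c d : F}
    (hc : v (x - algebraMap F M c) < 1) (hd : v (y - algebraMap F M d) < 1) :
    v (x - y - algebraMap F M (c - d)) < 1 := by
  have e : x - y - algebraMap F M (c - d) =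
      (x - algebraMap F M c) + -(y - algebraMap F M d) := by
    rw [map_sub]; ring
  rw [e]
  refine lt_of_le_of_lt (h.nonarch _ _) (max_lt hc ?_)
  rw [map_neg_eq_map]
  exact hd

private lemma LA04_res_prod (h : LocCtx v s t) {κ : Type*} (S : Finset κ) (x : κ → M) (c : κ → F)
    (hx : ∀ i ∈ S, v (x i - algebraMap F M (c i)) < 1) :
    v (∏ i ∈ S, x i - algebraMap F M (∏ i ∈ S, c i)) < 1 := by
  induction S using Finset.induction_on with
  | empty => simp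
  | insert i S hi ih =>
    rw [Finset.prod_insert hi, Finset.prod_insert hi]
    exact h.residue_mul (hx i (Finset.mem_insert_self _ _))
      (ih fun j hj => hx j (Finset.mem_insert_of_mem hj))

private lemma LA04_res_pow (h : LocCtx v s t) {x : M} {c : F}
    (hc : v (x - algebraMap F M c) < 1) (n : ℕ) :
    v (x ^ n - algebraMap F M (c ^ n)) < 1 := by
  have := h.residue_eval hc (X ^ n)
  simpa using this

private lemma LA04_res_t (h : LocCtx v s t) (s' : F) :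
    v (t - algebraMap F M s' - algebraMap F M (s - s')) < 1 := by
  have e : t - algebraMap F M s' - algebraMap F M (s - s') = t - algebraMap F M s := by
    rw [map_sub]; ring
  rw [e]
  exact h.lt_one

omit [Fintype ι] [LinearOrder ι] in
private lemma LA04_res_line (h : LocCtx v s t) (i : ι) :
    v (aeval t (a i) - algebraMap F M ((a i).eval s)) < 1 :=
  h.residue_eval h.lt_one _

/-- The sums of the exponents. -/
private lemma LA04_node (hg : AGeom a) {i j : ι} (hij : i ≠ j)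
    (hs : (a i).eval s = (a j).eval s) (e : ι → ℤ) {m : ℤ}
    (hnode : ∀ r, m ∣ ∑ i ∈ Finset.univ.filter (fun i => (a i).eval s = r), e i) :
    m ∣ e i + e j ∧ (∀ l, l ≠ i → l ≠ j → m ∣ e l) := by
  constructor
  · have h1 := hnode ((a i).eval s)
    have h2 : Finset.univ.filter (fun l => (a l).eval s = (a i).eval s) = {i, j} := by
      ext l
      rw [Finset.mem_filter, Finset.mem_insert, Finset.mem_singleton]
      constructor
      · rintro ⟨-, hl⟩
        by_contra hne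
        push Not at hne
        exact hg.third hij hne.1 hne.2 hs hl
      · rintro (rfl | rfl)
        · exact ⟨Finset.mem_univ _, rfl⟩
        · exact ⟨Finset.mem_univ _, hs.symm⟩
    rw [h2, Finset.sum_pair hij] at h1
    exact h1
  · intro l hli hlj
    have h1 := hnode ((a l).eval s)
    have h2 : Finset.univ.filter (fun l' => (a l').eval s = (a l).eval s) = {l} := by
      ext l'
      rw [Finset.mem_filter, Finset.mem_singleton]
      constructor
      · rintro ⟨-, hl⟩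
        by_contra hne
        rcases hg.pair hij hne hs hl with ⟨-, h3⟩ | ⟨-, h3⟩
        · exact hlj h3
        · exact hli h3
      · rintro rfl
        exact ⟨Finset.mem_univ _, rfl⟩
    rw [h2, Finset.sum_singleton] at h1
    exact h1

private lemma LA04_dvd_sum {i j : ι} (hij : i ≠ j) (w : ι → ℤ) {m : ℤ} (h1 : m ∣ w i + w j)
    (h2 : ∀ l, l ≠ i → l ≠ j → m ∣ w l) : m ∣ ∑ l, w l := by
  rw [← Finset.add_sum_erase _ _ (Finset.mem_univ i),
    ← Finset.add_sum_erase _ _ (Finset.mem_erase.2 ⟨hij.symm, Finset.mem_univ j⟩), ← add_assoc]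
  refine dvd_add h1 (Finset.dvd_sum fun l hl => ?_)
  rw [Finset.mem_erase, Finset.mem_erase] at hl
  exact h2 l hl.2.1 hl.1

omit [LinearOrder ι] in
private lemma LA04_sum_rts (hsep : (lineP a t).Separable) (w : M → ℤ) :
    ∑ θ ∈ rts (lineP a t), w θ = ∑ i, w (aeval t (a i)) := by
  have h := prod_rts_lineP (N := Multiplicative ℤ) hsep (fun θ => Multiplicative.ofAdd (w θ))
  rw [← ofAdd_sum, ← ofAdd_sum] at h
  exact Multiplicative.ofAdd.injective h

omit [LinearOrder ι] in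
private lemma LA04_fn (hsep : (lineP a t).Separable) (g : ι → ℤ) :
    ∃ w : M → ℤ, ∀ i, w (aeval t (a i)) = g i :=
  ⟨Function.extend (fun i => aeval t (a i)) g 0, fun i =>
    (lineP_injective hsep).extend_apply g 0 i⟩

private lemma LA04_aeval (u : M ≃+* M) (U : F ≃+* F)
    (huF : ∀ c : F, u (algebraMap F M c) = algebraMap F M (U c)) (hut : u t = t) {P : F[X]}
    (hP : P.map (U : F →+* F) = P) : u (aeval t P) = aeval t P := by
  have h1 := Polynomial.hom_eval₂ P (algebraMap F M) (u : M →+* M) t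
  have h2 : ((u : M →+* M)).comp (algebraMap F M) = (algebraMap F M).comp (U : F →+* F) := by
    ext c
    exact huF c
  have h3 : (u : M →+* M) t = t := hut
  rw [h2, ← Polynomial.eval₂_map, hP, h3] at h1
  rw [aeval_def]
  exact h1

private lemma LA04_v_prod (h : LocCtx v s t) (S : Finset F) (e : F → ℤ) :
    v (∏ s' ∈ S.erase s, (t - algebraMap F M s') ^ e s') = 1 := by
  have h1 := LA04_res_prod h (S.erase s) (fun s' => (t - algebraMap F M s') ^ e s')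
    (fun s' => (s - s') ^ e s') fun s' hs' => h.residue_zpow (LA04_res_t h s')
      (sub_ne_zero.2 (Finset.ne_of_mem_erase hs').symm) _
  refine h.v_eq_one h1 (Finset.prod_ne_zero_iff.2 fun s' hs' => zpow_ne_zero _
    (sub_ne_zero.2 (Finset.ne_of_mem_erase hs').symm))

private lemma LA04_key_i (hg : AGeom a) (h : LocCtx v s t) {i j : ι} (hij : i ≠ j)
    (hs : (a i).eval s = (a j).eval s) (e : F → ℤ) :
    v ((aeval t (a i) - aeval t (a j)) ^ e s / ∏ s' ∈ SS a, (t - algebraMap F M s') ^ e s' -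
      algebraMap F M ((derivative (a i - a j)).eval s ^ e s *
        ∏ s' ∈ (SS a).erase s, (s - s') ^ (-e s'))) < 1 := by
  have hsS : s ∈ SS a := mem_SS_of_eq hg hij hs
  have e1 : (aeval t (a i) - aeval t (a j)) ^ e s /
      ∏ s' ∈ SS a, (t - algebraMap F M s') ^ e s' =
      (aeval t (a i - a j) / (t - algebraMap F M s)) ^ e s *
        ∏ s' ∈ (SS a).erase s, (t - algebraMap F M s') ^ (-e s') := by
    rw [← Finset.mul_prod_erase _ _ hsS, map_sub]
    simp only [zpow_neg, Finset.prod_inv_distrib, div_eq_mul_inv, mul_inv, mul_zpow, inv_zpow]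
    ring
  rw [e1]
  refine h.residue_mul (h.residue_zpow (residue_simple h (by rw [eval_sub, hs, sub_self]))
    (hg.simple hij hs) _) ?_
  exact LA04_res_prod h _ _ _ fun s' hs' => h.residue_zpow (LA04_res_t h s')
    (sub_ne_zero.2 (Finset.ne_of_mem_erase hs').symm) _

private lemma LA04_key_j (hg : AGeom a) (h : LocCtx v s t) {i j : ι} (hij : i ≠ j)
    (hs : (a i).eval s = (a j).eval s) (ℓ : ℕ) (e : F → ℤ) {ε k : ℤ} (hε : e s = -ε + ℓ * k) :
    v (((-1) ^ (ℓ + 1)) ^ ε * ((derivative (lineP a t)).eval (aeval t (a j)))⁻¹ ^ ε /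
      (∏ s' ∈ SS a, (t - algebraMap F M s') ^ e s') * (t - algebraMap F M s) ^ (ℓ * k) -
      algebraMap F M (((-1) ^ (ℓ + 1)) ^ ε * ((derivative (a j - a i)).eval s ^ (-ε) *
        ∏ l ∈ (Finset.univ.erase i).erase j, ((a j).eval s - (a l).eval s) ^ (-ε)) *
          ∏ s' ∈ (SS a).erase s, (s - s') ^ (-e s'))) < 1 := by
  have hsS : s ∈ SS a := mem_SS_of_eq hg hij hs
  have hta : t - algebraMap F M s ≠ 0 := sub_ne_zero.2 h.ne
  have hT : (t - algebraMap F M s) ^ ((ℓ : ℤ) * k) ≠ 0 := zpow_ne_zero _ hta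
  have hT' : (t - algebraMap F M s) ^ (-ε) ≠ 0 := zpow_ne_zero _ hta
  have e1 : ((-1) ^ (ℓ + 1)) ^ ε * ((derivative (lineP a t)).eval (aeval t (a j)))⁻¹ ^ ε /
      (∏ s' ∈ SS a, (t - algebraMap F M s') ^ e s') * (t - algebraMap F M s) ^ (ℓ * k) =
      ((-1) ^ (ℓ + 1)) ^ ε * ((aeval t (a j - a i) / (t - algebraMap F M s)) ^ (-ε) *
        ∏ l ∈ (Finset.univ.erase i).erase j, (aeval t (a j) - aeval t (a l)) ^ (-ε)) *
        ∏ s' ∈ (SS a).erase s, (t - algebraMap F M s') ^ (-e s') := by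
    have hm : i ∈ (Finset.univ : Finset ι).erase j :=
      Finset.mem_erase.2 ⟨hij, Finset.mem_univ i⟩
    rw [← Finset.mul_prod_erase _ _ hsS, hε, zpow_add₀ hta, derivative_lineP,
      ← Finset.mul_prod_erase _ _ hm, Finset.erase_right_comm, map_sub, inv_zpow, ← zpow_neg,
      mul_zpow, ← Finset.prod_zpow, div_zpow]
    have e2 : ∏ s' ∈ (SS a).erase s, (t - algebraMap F M s') ^ (-e s') =
        (∏ s' ∈ (SS a).erase s, (t - algebraMap F M s') ^ e s')⁻¹ := by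
      rw [← Finset.prod_inv_distrib]
      exact Finset.prod_congr rfl fun _ _ => zpow_neg _ _
    rw [e2]
    generalize (∏ s' ∈ (SS a).erase s, (t - algebraMap F M s') ^ e s') = P
    generalize (t - algebraMap F M s) ^ ((ℓ : ℤ) * k) = T at hT ⊢
    generalize (t - algebraMap F M s) ^ (-ε) = T' at hT' ⊢
    field_simp
  rw [e1]
  have hd : (derivative (a j - a i)).eval s ≠ 0 := hg.simple hij.symm hs.symm
  refine h.residue_mul (h.residue_mul ?_ (h.residue_mul (h.residue_zpow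
    (residue_simple h (by rw [eval_sub, hs, sub_self])) hd _) ?_)) ?_
  · have : (((-1 : M) ^ (ℓ + 1)) ^ ε) = algebraMap F M (((-1) ^ (ℓ + 1)) ^ ε) := by
      rw [map_zpow₀, map_pow, map_neg, map_one]
    rw [this]
    exact LA04_res_const _
  · refine LA04_res_prod h _ _ _ fun l hl => h.residue_zpow (LA04_res_sub h
      (LA04_res_line h j) (LA04_res_line h l)) ?_ _
    rw [Finset.mem_erase, Finset.mem_erase] at hl
    exact sub_ne_zero.2 (hg.third' hij hl.2.1 hl.1 hs).symm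
  · exact LA04_res_prod h _ _ _ fun s' hs' => h.residue_zpow (LA04_res_t h s')
      (sub_ne_zero.2 (Finset.ne_of_mem_erase hs').symm) _

/-- The quotient of the two residues. -/
private lemma LA04_quot (hg : AGeom a) {i j : ι} (hij : i ≠ j)
    (hs : (a i).eval s = (a j).eval s) (ℓ : ℕ) (e : ι → F → ℤ) :
    (((-1) ^ (ℓ + 1)) ^ e i s * ((derivative (a j - a i)).eval s ^ (-e i s) *
        ∏ l ∈ (Finset.univ.erase i).erase j, ((a j).eval s - (a l).eval s) ^ (-e i s)) *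
          ∏ s' ∈ (SS a).erase s, (s - s') ^ (-e j s')) /
      ((derivative (a i - a j)).eval s ^ e i s *
        ∏ s' ∈ (SS a).erase s, (s - s') ^ (-e i s')) =
      (((-1) ^ ℓ) ^ e i s) * nodeX a e i j s := by
  have hd : (derivative (a i - a j)).eval s ≠ 0 := hg.simple hij hs
  unfold nodeX
  have e1 : (derivative (a j - a i)).eval s = (-1) * (derivative (a i - a j)).eval s := by
    rw [derivative_sub, derivative_sub, eval_sub, eval_sub]; ring
  have e2 : ∏ s' ∈ (SS a).erase s, (s - s') ^ (e i s' - e j s') =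
      (∏ s' ∈ (SS a).erase s, (s - s') ^ (-e j s')) /
        ∏ s' ∈ (SS a).erase s, (s - s') ^ (-e i s') := by
    rw [← Finset.prod_div_distrib]
    refine Finset.prod_congr rfl fun s' hs' => ?_
    rw [← zpow_sub₀ (sub_ne_zero.2 (Finset.ne_of_mem_erase hs').symm)]
    congr 1
    ring
  have e3 : ((-1 : F) ^ (ℓ + 1)) ^ e i s * (-1 : F) ^ (-e i s) = ((-1) ^ ℓ) ^ e i s := by
    have h1 : (-1 : F) ≠ 0 := neg_ne_zero.2 one_ne_zero
    rw [pow_succ, mul_zpow, mul_assoc, ← zpow_add₀ h1, add_neg_cancel, zpow_zero, mul_one]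
  have e4 : (derivative (a i - a j)).eval s ^ (-2 * e i s) =
      (derivative (a i - a j)).eval s ^ (-e i s) / (derivative (a i - a j)).eval s ^ (e i s) := by
    rw [← zpow_sub₀ hd]
    congr 1
    ring
  rw [e1, mul_zpow, e2, e4, ← e3, ← hs]
  simp only [div_eq_mul_inv, mul_inv]
  ring

theorem node_formula (h : LocCtx v s t) (hg : AGeom a) (hp : p.Coprime ℓ)
    (hζ : IsPrimitiveRoot ζ ℓ) (hζ' : IsPrimitiveRoot (algebraMap F M ζ) ℓ)
    (hΓ : LocGrp p F v t (v (t - algebraMap F M s)) Γ)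
    -- the automorphism `u`
    (u : Sym (lineP a t)) (U : F ≃+* F) (huv : ∀ x, v ((u : M ≃+* M) x) = v x)
    (huF : ∀ c : F, (u : M ≃+* M) (algebraMap F M c) = algebraMap F M (U c))
    (hut : (u : M ≃+* M) t = t) (hua : ∀ i, (a i).map (U : F →+* F) = a i)
    (hUζ : U ζ = ζ) (hnorm : ∀ τ ∈ Γ, u⁻¹ * τ * u ∈ Γ)
    (hUS : ∀ s' ∈ SS a, U s' = s')
    -- the exponents
    (e e' : ι → F → ℤ)
    (hnode : ∀ r, (ℓ : ℤ) ∣ ∑ i ∈ Finset.univ.filter (fun i => (a i).eval s = r), e i s)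
    (hnode' : ∀ r, (ℓ : ℤ) ∣ ∑ i ∈ Finset.univ.filter (fun i => (a i).eval s = r), e' i s)
    (z z' : ι → M) (hz : ∀ i, z i ^ ℓ = ∏ s' ∈ SS a, (t - algebraMap F M s') ^ e i s')
    (hz' : ∀ i, z' i ^ ℓ = ∏ s' ∈ SS a, (t - algebraMap F M s') ^ e' i s')
    (Q : Jac ℓ (lineP a t))
    (hQ : ∀ τ ∈ Γ, ∀ n : M → ℤ,
      (∀ i, (τ : M ≃+* M) (z i) = algebraMap F M ζ ^ n (aeval t (a i)) * z i) →
        (symJ τ Q - Q) - zJ (algebraMap F M ζ) hζ'.pow_eq_one (symJ τ Q - Q) = ram n)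
    (b q : M → ℤ) (hq : ∀ i, (u : M ≃+* M) (z i) = algebraMap F M ζ ^ q (aeval t (a i)) * z i)
    (B : Jac ℓ (lineP a t))
    (hB : B - zJ (algebraMap F M ζ) hζ'.pow_eq_one B = ram fun θ => b θ - q θ)
    (hy : ∀ τ ∈ Γ, ∀ n : M → ℤ,
      (∀ i, (τ : M ≃+* M) (z' i) = algebraMap F M ζ ^ n (aeval t (a i)) * z' i) →
        ram n = symJ u (symJ (u⁻¹ * τ * u) Q - Q) - (symJ τ Q - Q) + (symJ τ B - B))
    {i j : ι} (hij : i ≠ j) (hs : (a i).eval s = (a j).eval s) (x : F)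
    (hx : x ^ ℓ = nodeX a e i j s) :
    U x = ζ ^ (e' i s - (b (aeval t (a j)) - b (aeval t (a i)))) * x := by
  have hAM : IsAlgClosed M := hG.alg
  have hℓ0 : ℓ ≠ 0 := hG.prime.ne_zero
  have hζ0 : ζ ≠ 0 := hζ.ne_zero hℓ0
  have hζ0' : algebraMap F M ζ ≠ 0 := hζ'.ne_zero hℓ0
  have hsep : (lineP a t).Separable := IsGood.separable ℓ
  have hinj := lineP_injective hsep
  have hsS : s ∈ SS a := mem_SS_of_eq hg hij hs
  have hta : t - algebraMap F M s ≠ 0 := sub_ne_zero.2 h.ne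
  obtain ⟨ϖ, hϖ⟩ := IsAlgClosed.exists_pow_nat_eq (t - algebraMap F M s)
    (Nat.pos_of_ne_zero hℓ0)
  have hϖ0 : ϖ ≠ 0 := by
    rintro rfl
    rw [zero_pow hℓ0] at hϖ
    exact hta hϖ.symm
  have hc := leCtx h hp hζ hζ' hΓ hϖ
  have huζ : (u : M ≃+* M) (algebraMap F M ζ) = algebraMap F M ζ := by rw [huF, hUζ]
  have huA : ∀ l, (u : M ≃+* M) (aeval t (a l)) = aeval t (a l) := fun l =>
    LA04_aeval (u : M ≃+* M) U huF hut (hua l)
  have hur : ∀ θ, (lineP a t).eval θ = 0 → (u : M ≃+* M) θ = θ := by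
    intro θ hθ
    obtain ⟨l, rfl⟩ := eval_lineP_eq_zero.1 hθ
    exact huA l
  have hur' : ∀ θ, (lineP a t).eval θ = 0 → ((u⁻¹ : Sym (lineP a t)) : M ≃+* M) θ = θ := by
    intro θ hθ
    have h1 : ((u⁻¹ : Sym (lineP a t)) : M ≃+* M) ((u : M ≃+* M) θ) = θ :=
      (u : M ≃+* M).symm_apply_apply θ
    rwa [hur θ hθ] at h1
  have huts : (u : M ≃+* M) (t - algebraMap F M s) = t - algebraMap F M s := by
    rw [map_sub, hut, huF, hUS s hsS]
  have huϖ : ∃ c : ℤ, (u : M ≃+* M) ϖ = algebraMap F M ζ ^ c * ϖ :=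
    LA04_exists_zpow hℓ0 hζ' hϖ0 (by rw [← map_pow, hϖ, huts])
  have hσζ : ∀ σ ∈ Γ, (σ : M ≃+* M) (algebraMap F M ζ) = algebraMap F M ζ := fun σ hσ =>
    hΓ.fix σ hσ ζ
  have hroot0 : ∀ l, (lineP a t).eval (aeval t (a l)) = 0 := fun l => root_lineP l
  -- the exponents
  obtain ⟨hn1, hn2⟩ := LA04_node hg hij hs (fun l => e l s) hnode
  obtain ⟨hn1', hn2'⟩ := LA04_node hg hij hs (fun l => e' l s) hnode'
  obtain ⟨we, hwe⟩ := LA04_fn hsep (fun l => e l s)
  obtain ⟨we', hwe'⟩ := LA04_fn hsep (fun l => e' l s)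
  -- step 1
  have hfixprod : ∀ σ ∈ Γ, ∀ e₁ : F → ℤ,
      (σ : M ≃+* M) (∏ s' ∈ (SS a).erase s, (t - algebraMap F M s') ^ e₁ s') =
        ∏ s' ∈ (SS a).erase s, (t - algebraMap F M s') ^ e₁ s' := by
    intro σ hσ e₁
    rw [map_prod]
    refine Finset.prod_congr rfl fun s' _ => ?_
    rw [map_zpow₀, map_sub, hΓ.fixt σ hσ, hΓ.fix σ hσ]
  obtain ⟨Q₁, hQ₁⟩ : ∃ Q₁ : Jac ℓ (lineP a t),
      Q₁ = Q - zJ (algebraMap F M ζ) hζ'.pow_eq_one Q := ⟨_, rfl⟩
  have hLE1 : LE Γ hζ'.pow_eq_one ϖ (Q₁ - zJ (algebraMap F M ζ) hζ'.pow_eq_one Q₁) we := by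
    refine LE_of_kummer h hζ hζ' hΓ hϖ Q₁ z
      (fun l => ∏ s' ∈ (SS a).erase s, (t - algebraMap F M s') ^ e l s') (fun l => e l s)
      ?_ ?_ ?_ ?_ we hwe
    · intro l
      rw [hz l, ← Finset.mul_prod_erase _ _ hsS]
    · intro l
      exact LA04_v_prod h _ _
    · intro σ hσ l
      exact hfixprod σ hσ _
    · intro σ hσ n hn
      rw [← hQ σ hσ n hn, hQ₁, map_sub, map_sub, zJ_symJ _ _ σ (hσζ σ hσ)]
      abel
  -- step 2
  obtain ⟨ρ, hρ⟩ := LA04_fn hsep (fun l => if l = j then e i s else 0)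
  have hρi : ρ (aeval t (a i)) = 0 := by rw [hρ, if_neg hij]
  have hρj : ρ (aeval t (a j)) = e i s := by rw [hρ, if_pos rfl]
  obtain ⟨W, hW⟩ := LA04_fn hsep (fun l => if l = i then e i s else if l = j then -e i s else 0)
  have hLE2 : LE Γ hζ'.pow_eq_one ϖ (ram ρ) W := by
    refine LE_ram hg h hp hζ hζ' hΓ hϖ hij hs ρ W ?_ ?_ ?_
    · rw [hW, if_pos rfl, hρi, hρj, sub_zero]
    · rw [hW, if_neg hij.symm, if_pos rfl, hρi, hρj, zero_sub]
    · intro l hli hlj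
      rw [hW, if_neg hli, if_neg hlj]
  obtain ⟨x', hx', hx'fix⟩ := LE.exists_fixed hc (hLE1.sub hLE2) (c := 0) (by
    intro θ hθ
    obtain ⟨l, rfl⟩ := eval_lineP_eq_zero.1 hθ
    rw [hwe, hW, sub_zero]
    by_cases hli : l = i
    · subst hli
      rw [if_pos rfl, sub_self]
      exact dvd_zero _
    · rw [if_neg hli]
      by_cases hlj : l = j
      · subst hlj
        rw [if_pos rfl, sub_neg_eq_add, add_comm]
        exact hn1
      · rw [if_neg hlj, sub_zero]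
        exact hn2 l hli hlj)
  obtain ⟨B₀, hB₀⟩ : ∃ B₀ : Jac ℓ (lineP a t), B₀ = Q₁ - x' := ⟨_, rfl⟩
  have hB₀' : B₀ - zJ (algebraMap F M ζ) hζ'.pow_eq_one B₀ = cl (ramDiv ρ) := by
    have h1 : B₀ - zJ (algebraMap F M ζ) hζ'.pow_eq_one B₀ = ram ρ := by
      have h2 : B₀ - zJ (algebraMap F M ζ) hζ'.pow_eq_one B₀ =
          (Q₁ - zJ (algebraMap F M ζ) hζ'.pow_eq_one Q₁) -
            (x' - zJ (algebraMap F M ζ) hζ'.pow_eq_one x') := by
        rw [hB₀, map_sub]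
        abel
      rw [h2, hx']
      abel
    exact h1
  -- step 3
  obtain ⟨Q', hQ'⟩ : ∃ Q' : Jac ℓ (lineP a t), Q' = symJ u Q - Q + B := ⟨_, rfl⟩
  have hLE3 : LE Γ hζ'.pow_eq_one ϖ (Q' - zJ (algebraMap F M ζ) hζ'.pow_eq_one Q') we' := by
    refine LE_of_kummer h hζ hζ' hΓ hϖ Q' z'
      (fun l => ∏ s' ∈ (SS a).erase s, (t - algebraMap F M s') ^ e' l s') (fun l => e' l s)
      ?_ ?_ ?_ ?_ we' hwe'
    · intro l
      rw [hz' l, ← Finset.mul_prod_erase _ _ hsS]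
    · intro l
      exact LA04_v_prod h _ _
    · intro σ hσ l
      exact hfixprod σ hσ _
    · intro σ hσ n hn
      rw [hy σ hσ n hn, hQ', map_add, map_sub, map_sub, ← LA04_symJ_mul, ← LA04_symJ_mul]
      have h1 : u * (u⁻¹ * σ * u) = σ * u := by group
      rw [h1]
      abel
  -- step 4
  obtain ⟨zz, hzz, hker⟩ := kummer_formula (algebraMap F M ζ) hζ' B₀ (ramDiv ρ) hB₀'
  have hDfix : (ramDiv ρ : Pt ℓ (lineP a t) →₀ ℤ).mapDomain (Pt.sym u) = ramDiv ρ := by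
    rw [mapDomain_sym_ramDiv]
    refine ramDiv_congr _ _ ?_
    intro θ hθ
    rw [hur' θ hθ]
  have hn : ∀ θ : M, ∃ n : ℤ, (lineP a t).eval θ = 0 →
      (u : M ≃+* M) (zz θ) = algebraMap F M ζ ^ n * zz θ := by
    intro θ
    by_cases hθ : (lineP a t).eval θ = 0
    · obtain ⟨n, hn⟩ : ∃ n : ℤ, (u : M ≃+* M) (zz θ) = algebraMap F M ζ ^ n * zz θ := by
        refine LA04_exists_zpow hℓ0 hζ' (hzz θ hθ).1 ?_
        rw [← map_pow, (hzz θ hθ).2, map_mul, map_zpow₀, map_pow, map_neg, map_one,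
          sym_uval u _ hDfix, hur θ hθ]
      exact ⟨n, fun _ => hn⟩
    · exact ⟨0, fun h0 => absurd h0 hθ⟩
  choose n hn using hn
  have hkn : symJ u B₀ - B₀ = ram n := by
    refine hker u huζ hDfix n ?_
    intro θ hθ
    rw [hur θ hθ]
    exact hn θ hθ
  obtain ⟨w₁, hw₁, -⟩ := exists_LE h hp hζ hζ' hΓ hϖ x' hx'fix
  have hLE4 := (hw₁.act hc u hnorm huζ hur huϖ).sub hw₁
  obtain ⟨β, hβ⟩ : ∃ β : M → ℤ, β = fun θ => n θ + (b θ - q θ) := ⟨_, rfl⟩
  obtain ⟨W', hW'⟩ := LA04_fn hsep (fun l =>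
    if l = i then β (aeval t (a j)) - β (aeval t (a i)) else
      if l = j then β (aeval t (a i)) - β (aeval t (a j)) else 0)
  have hLE5 : LE Γ hζ'.pow_eq_one ϖ (ram β) W' := by
    refine LE_ram hg h hp hζ hζ' hΓ hϖ hij hs β W' ?_ ?_ ?_
    · rw [hW', if_pos rfl]
    · rw [hW', if_neg hij.symm, if_pos rfl]
    · intro l hli hlj
      rw [hW', if_neg hli, if_neg hlj]
  have hQ'eq : Q' - zJ (algebraMap F M ζ) hζ'.pow_eq_one Q' = ram β + (symJ u x' - x') := by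
    have h1 : Q' - zJ (algebraMap F M ζ) hζ'.pow_eq_one Q' =
        (symJ u Q₁ - Q₁) + (B - zJ (algebraMap F M ζ) hζ'.pow_eq_one B) := by
      rw [hQ', hQ₁, map_add, map_sub, map_sub, zJ_symJ _ _ u huζ]
      abel
    have h2 : symJ u Q₁ - Q₁ = (symJ u B₀ - B₀) + (symJ u x' - x') := by
      rw [hB₀, map_sub]
      abel
    have h3 : (ram β : Jac ℓ (lineP a t)) = ram n + ram fun θ => b θ - q θ := by
      rw [hβ]
      exact ram_add n fun θ => b θ - q θ
    rw [h1, h2, hkn, hB, h3]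
    abel
  have hLE6 : LE Γ hζ'.pow_eq_one ϖ (Q' - zJ (algebraMap F M ζ) hζ'.pow_eq_one Q') W' := by
    rw [hQ'eq]
    refine (hLE5.add hLE4).congr fun θ _ => ?_
    exact ⟨0, by ring⟩
  have hfin := LE.unique_sum hc hLE3 hLE6 (by
      rw [LA04_sum_rts hsep]
      refine LA04_dvd_sum hij (fun l => we' (aeval t (a l))) ?_ ?_
      · rw [hwe', hwe']
        exact hn1'
      · intro l hli hlj
        rw [hwe']
        exact hn2' l hli hlj) (by
      rw [LA04_sum_rts hsep]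
      refine LA04_dvd_sum hij (fun l => W' (aeval t (a l))) ?_ ?_
      · rw [hW', hW', if_pos rfl, if_neg hij.symm, if_pos rfl]
        exact ⟨0, by ring⟩
      · intro l hli hlj
        rw [hW', if_neg hli, if_neg hlj]
        exact dvd_zero _) _ (hroot0 i)
  rw [hwe', hW', if_pos rfl] at hfin
  -- step 5: the units
  have hej : ∃ k : ℤ, e j s = -e i s + ℓ * k := by
    obtain ⟨k, hk⟩ := hn1
    exact ⟨k, by linarith⟩
  obtain ⟨k, hk⟩ := hej
  have hzzi : zz (aeval t (a i)) ^ ℓ = (aeval t (a i) - aeval t (a j)) ^ e i s := by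
    rw [(hzz _ (hroot0 i)).2, atR_ramDiv _ (hroot0 i), uval_ramDiv _ (hroot0 i), hρi, zpow_zero,
      one_mul, zpow_zero, one_mul]
    have h1 : aeval t (a j) ∈ (lineP a t).roots.toFinset.erase (aeval t (a i)) := by
      rw [Finset.mem_erase]
      exact ⟨fun h0 => hij.symm (hinj h0), mem_rts_lineP.2 ⟨j, rfl⟩⟩
    rw [← Finset.mul_prod_erase _ _ h1, hρj, Finset.prod_eq_one, mul_one]
    intro θ hθ
    rw [Finset.mem_erase, Finset.mem_erase] at hθ
    obtain ⟨l, rfl⟩ := mem_rts_lineP.1 hθ.2.2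
    rw [hρ, if_neg, zpow_zero]
    rintro rfl
    exact hθ.1 rfl
  have hzzj : zz (aeval t (a j)) ^ ℓ = ((-1) ^ (ℓ + 1)) ^ e i s *
      ((derivative (lineP a t)).eval (aeval t (a j)))⁻¹ ^ e i s := by
    rw [(hzz _ (hroot0 j)).2, atR_ramDiv _ (hroot0 j), uval_ramDiv _ (hroot0 j), hρj,
      Finset.prod_eq_one, mul_one]
    intro θ hθ
    rw [Finset.mem_erase] at hθ
    obtain ⟨l, rfl⟩ := mem_rts_lineP.1 hθ.2
    rw [hρ, if_neg, zpow_zero]
    rintro rfl
    exact hθ.1 rfl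
  obtain ⟨Xi, hXi⟩ : ∃ Xi : F, Xi = (derivative (a i - a j)).eval s ^ e i s *
        ∏ s' ∈ (SS a).erase s, (s - s') ^ (-e i s') := ⟨_, rfl⟩
  obtain ⟨Xj, hXj⟩ : ∃ Xj : F, Xj = ((-1) ^ (ℓ + 1)) ^ e i s *
      ((derivative (a j - a i)).eval s ^ (-e i s) *
        ∏ l ∈ (Finset.univ.erase i).erase j, ((a j).eval s - (a l).eval s) ^ (-e i s)) *
          ∏ s' ∈ (SS a).erase s, (s - s') ^ (-e j s') := ⟨_, rfl⟩
  have hS0 : ∀ e₁ : F → ℤ, ∏ s' ∈ (SS a).erase s, (s - s') ^ (-e₁ s') ≠ 0 := fun e₁ =>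
    Finset.prod_ne_zero_iff.2 fun s' hs' => zpow_ne_zero _
      (sub_ne_zero.2 (Finset.ne_of_mem_erase hs').symm)
  have hXi0 : Xi ≠ 0 := by
    rw [hXi]
    exact mul_ne_zero (zpow_ne_zero _ (hg.simple hij hs)) (hS0 _)
  have hXj0 : Xj ≠ 0 := by
    rw [hXj]
    refine mul_ne_zero (mul_ne_zero (zpow_ne_zero _ (pow_ne_zero _ (neg_ne_zero.2 one_ne_zero)))
      (mul_ne_zero (zpow_ne_zero _ (hg.simple hij.symm hs.symm)) ?_)) (hS0 _)
    refine Finset.prod_ne_zero_iff.2 fun l hl => zpow_ne_zero _ ?_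
    rw [Finset.mem_erase, Finset.mem_erase] at hl
    exact sub_ne_zero.2 (hg.third' hij hl.2.1 hl.1 hs).symm
  -- the residue of a unit with a given power
  have hres : ∀ (Y : M) (X₀ : F) (m : ℤ), v (Y ^ ℓ - algebraMap F M X₀) < 1 → X₀ ≠ 0 →
      (u : M ≃+* M) Y = algebraMap F M ζ ^ m * Y →
      ∃ y : F, y ≠ 0 ∧ y ^ ℓ = X₀ ∧ U y = ζ ^ m * y := by
    intro Y X₀ m h1 h2 h3
    have hvY : v Y = 1 := by
      have h4 := h.v_eq_one h1 h2
      rw [map_pow] at h4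
      exact (pow_eq_one_iff_of_nonneg (v.nonneg _) hℓ0).1 h4
    obtain ⟨y, hy⟩ := h.residue _ hvY.le
    have hyX : y ^ ℓ = X₀ := h.residue_unique (LA04_res_pow h hy ℓ) h1
    refine ⟨y, ?_, hyX, ?_⟩
    · rintro rfl
      rw [zero_pow hℓ0] at hyX
      exact h2 hyX.symm
    · have hr1 : v ((u : M ≃+* M) Y - algebraMap F M (U y)) < 1 := by
        rw [← huF, ← map_sub, huv]
        exact hy
      have hr2 : v ((u : M ≃+* M) Y - algebraMap F M (ζ ^ m * y)) < 1 := by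
        rw [h3, ← map_zpow₀]
        exact h.residue_mul (LA04_res_const _) hy
      exact h.residue_unique hr1 hr2
  obtain ⟨yi, hyi0, hyi, hUyi⟩ := hres (zz (aeval t (a i)) / z i) Xi
    (n (aeval t (a i)) - q (aeval t (a i))) (by
      rw [div_pow, hzzi, hz i, hXi]
      exact LA04_key_i hg h hij hs (e i)) hXi0 (by
      rw [map_div₀, hn _ (hroot0 i), hq i, zpow_sub₀ hζ0']
      simp only [div_eq_mul_inv, mul_inv]
      ring)
  obtain ⟨yj, hyj0, hyj, hUyj⟩ := hres (zz (aeval t (a j)) / z j * (t - algebraMap F M s) ^ k) Xj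
    (n (aeval t (a j)) - q (aeval t (a j))) (by
      rw [mul_pow, div_pow, hzzj, hz j, hXj, ← zpow_natCast ((t - algebraMap F M s) ^ k) ℓ,
        ← zpow_mul, mul_comm k]
      exact LA04_key_j hg h hij hs ℓ (e j) hk) hXj0 (by
      rw [map_mul, map_zpow₀, huts, map_div₀, hn _ (hroot0 j), hq j, zpow_sub₀ hζ0']
      simp only [div_eq_mul_inv, mul_inv]
      ring)
  -- the conclusion
  have hquot : (yj / yi) ^ ℓ = ((-1) ^ e i s * x) ^ ℓ := by
    rw [div_pow, hyi, hyj, hXi, hXj, LA04_quot hg hij hs ℓ e, mul_pow, hx]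
    congr 1
    rw [← zpow_natCast, ← zpow_mul, ← zpow_natCast, ← zpow_mul, mul_comm]
  have hy0 : yj / yi ≠ 0 := div_ne_zero hyj0 hyi0
  obtain ⟨k', hk'⟩ := LA04_exists_zpow hℓ0 hζ hy0 hquot.symm
  have hUy : U (yj / yi) = ζ ^ (e' i s - (b (aeval t (a j)) - b (aeval t (a i)))) * (yj / yi) := by
    have h1 : ζ ^ (e' i s - (b (aeval t (a j)) - b (aeval t (a i)))) =
        ζ ^ ((n (aeval t (a j)) - q (aeval t (a j))) -
          (n (aeval t (a i)) - q (aeval t (a i)))) := by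
      refine LA04_zpow_eq hℓ0 hζ ?_
      rw [hβ] at hfin
      obtain ⟨m, hm⟩ := hfin
      exact ⟨m, by linarith⟩
    rw [map_div₀, hUyi, hUyj, h1, zpow_sub₀ hζ0 (n (aeval t (a j)) - q (aeval t (a j)))
      (n (aeval t (a i)) - q (aeval t (a i)))]
    simp only [div_eq_mul_inv, mul_inv]
    ring
  have h1 : U ((-1) ^ e i s * x) =
      ζ ^ (e' i s - (b (aeval t (a j)) - b (aeval t (a i)))) * ((-1) ^ e i s * x) := by
    rw [hk', map_mul, map_zpow₀, hUζ, hUy]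
    ring
  rw [map_mul, map_zpow₀, map_neg, map_one] at h1
  have h2 : ((-1 : F) ^ e i s) ≠ 0 := zpow_ne_zero _ (neg_ne_zero.2 one_ne_zero)
  apply mul_left_cancel₀ h2
  rw [h1]
  ring

end Pool.Agent.Lib.MP_89bcae_ag.Sup.Lns
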