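import Mathlib
import Pool.Agent.Lib.MP_89bcae_ag.Lns.GA02
import Pool.Agent.Lib.MP_89bcae_ag.Lns.GA06
import Pool.Agent.Lib.MP_89bcae_ag.Lns.GL
import Pool.Agent.Lib.MP_89bcae_ag.Sup.G13

/-!
# The exponents of the locally trivial cocycles
-/

open Polynomial IsDedekindDomain

open scoped Classical

namespace Pool.Agent.Lib.MP_89bcae_ag.Sup.Lns

universe u

set_option linter.unusedSectionVars false

variable {ι : Type} [Fintype ι] [LinearOrder ι]
  {k F L Ω : Type u} [Field k] [Field F] [Algebra k F] [Field L] [Algebra F[X] L]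
  [Field Ω] [Algebra L Ω] [IsAlgClosure k F] [IsFractionRing F[X] L] [IsAlgClosure L Ω]
  [Algebra F Ω] {ℓ : ℕ} {α : ι → k[X]} {ζ : k}
  [hG : IsGood ℓ (cOver k F L Ω (arr α))] {hζ : (zA F L Ω ζ) ^ ℓ = 1}

omit [IsAlgClosure k F] [IsAlgClosure L Ω] [Algebra F Ω] hG in
lemma map_rt {M : Type u} [Field M] [Algebra L M] (j : Ω →ₐ[L] M) (i : ι) :
    j (rt k F L Ω α i) = rt k F L M α i := j.commutes _

omit [IsAlgClosure k F] [IsAlgClosure L Ω] hG in
lemma map_TP {a : ι → F[X]} (hF : CompatF F L Ω) {M : Type u} [Field M] [Algebra L M]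
    [Algebra F M] (hFM : CompatF F L M) (j : Ω →ₐ[L] M) (m : F → ℤ) :
    j (TP a (tA F L Ω) m) = TP a (tA F L M) m := by
  unfold TP
  rw [map_prod]
  refine Finset.prod_congr rfl fun s _ => ?_
  rw [map_zpow₀, map_sub, hF, j.commutes, ← hFM]
  congr 2
  exact j.commutes _

private lemma ga4_local (hF : CompatF F L Ω) (H : AHyp ℓ α ζ) {c : Coch ℓ k F L Ω (arr α)}
    {P : ι → F[X]} {z : ι → Ω} (hP : ∀ i, (P i).Monic)
    {s : F} (hsum : ℓ ∣ ∑ i, (P i).rootMultiplicity s)
    (hz : ∀ i, z i ^ ℓ = aeval (tA F L Ω) (P i))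
    (hn : ∀ (σ : Ω ≃ₐ[L] Ω) (n : Ω → ℤ), (∀ i,
        σ (z i) = zA F L Ω ζ ^ n (rt k F L Ω α i) * z i) →
          vJ (zA F L Ω ζ) hζ (c 1 σ) = ram n)
    {K M : Type u} [Field K] [Algebra L K] [Field M] [Algebra K M] [Algebra L M]
    [IsScalarTower L K M] [IsAlgClosure K M] [Algebra F M] (hFM : CompatF F L M)
    {v : AbsoluteValue M ℝ} (hv : LocCtx v s (tA F L M))
    (hinv : ∀ (σ : M ≃ₐ[K] M) x, v (σ x) = v x)
    (hval : ∀ x : K, x ≠ 0 → ∃ i : ℤ, v (algebraMap K M x) = v (tA F L M - algebraMap F M s) ^ i)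
    (j : Ω →ₐ[L] M) (Q₁ : JacOver ℓ (curveL k F L (arr α)) M)
    (hQ₁ : ∀ (σ : M ≃ₐ[K] M) (σ' : Ω ≃ₐ[L] Ω), (∀ x, j (σ' x) = σ (j x)) →
      push ℓ (curveL k F L (arr α)) j (c 1 σ') =
        push ℓ (curveL k F L (arr α)) (σ.restrictScalars L : M →ₐ[L] M) Q₁ - Q₁) (r : F) :
    (ℓ : ℤ) ∣ ∑ i ∈ Finset.univ.filter (fun i => (aF F α i).eval s = r),
      ((P i).rootMultiplicity s : ℤ) := by
  have hMc : IsAlgClosed M := IsAlgClosure.isAlgClosed K
  have hGM : IsGood ℓ (cOver k F L M (arr α)) := isGood_arr H M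
  have hfl : cOver k F L M (arr α) = lineP (aF F α) (tA F L M) := cOver_arr hFM
  have hFK : ∀ c : F, ∃ x : K, algebraMap K M x = algebraMap F M c := by
    intro c
    refine ⟨algebraMap L K (algebraMap F[X] L (C c)), ?_⟩
    rw [hFM, ← IsScalarTower.algebraMap_apply L K M]
  have htK : ∃ x : K, algebraMap K M x = tA F L M := by
    refine ⟨algebraMap L K (algebraMap F[X] L X), ?_⟩
    unfold tA
    rw [← IsScalarTower.algebraMap_apply L K M]
  have hf : ((curveL k F L (arr α)).map (algebraMap L K)).map (algebraMap K M) =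
      cOver k F L M (arr α) := by
    rw [Polynomial.map_map, ← IsScalarTower.algebraMap_eq L K M]
  have hΓ := hv.locGrp hf hinv hval hFK htK
  have hℓK : (ℓ : K) ≠ 0 := by
    have h1 := natCast_L_ne F H (L := L)
    intro h0
    apply h1
    apply (algebraMap L K).injective
    rw [map_natCast, h0, map_zero]
  have hp : (ringExpChar K).Coprime ℓ := G13_coprime H.prime hℓK
  have hζF : IsPrimitiveRoot (algebraMap k F ζ) ℓ :=
    H.zeta.map_of_injective (algebraMap k F).injective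
  have hζM : IsPrimitiveRoot (algebraMap F M (algebraMap k F ζ)) ℓ :=
    hζF.map_of_injective (algebraMap F M).injective
  have hjζ : j (zA F L Ω ζ) = algebraMap F M (algebraMap k F ζ) := by
    rw [G13_map_zA, G13_zA hFM]
  have hjζ' : (j : Ω →+* M) (zA F L Ω ζ) ^ ℓ = 1 := by
    rw [← map_pow, hζ, map_one]
  have hinvj : ∀ x, Function.invFun j (j x) = x :=
    Function.leftInverse_invFun (j : Ω →+* M).injective
  -- the factorisation at `s`
  have hfac : ∀ i, ∃ R : F[X], P i = (X - C s) ^ (P i).rootMultiplicity s * R ∧ R.eval s ≠ 0 := by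
    intro i
    obtain ⟨R, hR, hR'⟩ := exists_eq_pow_rootMultiplicity_mul_and_not_dvd (P i) (hP i).ne_zero s
    refine ⟨R, hR, ?_⟩
    rw [dvd_iff_isRoot] at hR'
    exact hR'
  choose R hR hR0 using hfac
  have hroot : ∀ i, aeval (tA F L M) (aF F α i) = j (rt k F L Ω α i) := by
    intro i
    rw [map_rt, rt_eq hFM]
  refine place_sum (ζ := algebraMap k F ζ) hv hp hfl hζF hζM hΓ
    (vJ ((j : Ω →+* M) (zA F L Ω ζ)) hjζ' Q₁) (fun i => j (z i))
    (fun i => aeval (tA F L M) (R i)) (fun i => ((P i).rootMultiplicity s : ℤ)) ?_ ?_ ?_ ?_ ?_ r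
  · intro i
    rw [← map_pow, hz i, G13_map_aeval hF hFM]
    have h1 : j (tA F L Ω) = tA F L M := j.commutes _
    rw [h1]
    conv_lhs => rw [hR i]
    rw [map_mul, map_pow, map_sub, aeval_X, aeval_C, zpow_natCast]
  · intro i
    exact hv.v_eq_one (hv.residue_eval hv.lt_one (R i)) (hR0 i)
  · rintro _ ⟨τ, rfl⟩ i
    rw [galSym_apply]
    obtain ⟨x, hx⟩ : ∃ x : K, algebraMap K M x = aeval (tA F L M) (R i) := by
      refine ⟨algebraMap L K (algebraMap F[X] L (R i)), ?_⟩
      rw [aeval_tA hFM, ← IsScalarTower.algebraMap_apply L K M]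
    rw [← hx, τ.commutes]
  · rintro _ ⟨τ, rfl⟩ n hnτ
    obtain ⟨τ', hτ'⟩ := exists_restrict j (τ.restrictScalars L)
    have hτ'' : ∀ x, j (τ' x) = τ (j x) := hτ'
    -- the exponents over `Ω`
    have h1 : ∀ i, τ' (z i) = zA F L Ω ζ ^ (n ∘ j) (rt k F L Ω α i) * z i := by
      intro i
      apply (j : Ω →+* M).injective
      have h2 := hnτ i
      rw [galSym_apply, hroot i] at h2
      change j (τ' (z i)) = j (zA F L Ω ζ ^ (n ∘ j) (rt k F L Ω α i) * z i)
      rw [hτ'', h2, map_mul, map_zpow₀, hjζ]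
      rfl
    have h2 := hQ₁ τ τ' hτ''
    have h3 : push ℓ (curveL k F L (arr α)) (τ.restrictScalars L : M →ₐ[L] M) Q₁ =
        symJ (galSym hf τ) Q₁ := by
      unfold push symJ
      apply G13_jacMap_congr
      ext x
      rfl
    rw [h3] at h2
    have h4 : ((galSym hf τ : Sym (cOver k F L M (arr α))) : M ≃+* M)
        ((j : Ω →+* M) (zA F L Ω ζ)) = (j : Ω →+* M) (zA F L Ω ζ) := by
      rw [galSym_apply]
      have h4 : (j : Ω →+* M) (zA F L Ω ζ) = zA F L M ζ := G13_map_zA j ζ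
      rw [h4]
      have h5 : zA F L M ζ = algebraMap K M (algebraMap L K (base k F L L (C ζ))) := by
        rw [← IsScalarTower.algebraMap_apply L K M]
        rfl
      rw [h5, τ.commutes]
    rw [← vJ_symJ _ hjζ' _ h4, ← vJ_sub, ← h2]
    have h6 : vJ ((j : Ω →+* M) (zA F L Ω ζ)) hjζ' (push ℓ (curveL k F L (arr α)) j (c 1 τ')) =
        push ℓ (curveL k F L (arr α)) j (vJ (zA F L Ω ζ) hζ (c 1 τ')) := by
      unfold push
      exact vJ_jacMap _ _ _ hζ hjζ' _
    rw [h6, hn τ' _ h1]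
    unfold push
    apply jacMap_ram
    intro θ _
    rfl
  · exact_mod_cast hsum

private lemma ga4_place (hF : CompatF F L Ω) (H : AHyp ℓ α ζ) {c : Coch ℓ k F L Ω (arr α)}
    (hLT : LTc c) {P : ι → F[X]} {z : ι → Ω} (hP : ∀ i, (P i).Monic)
    {s : F} (hsum : ℓ ∣ ∑ i, (P i).rootMultiplicity s)
    (hz : ∀ i, z i ^ ℓ = aeval (tA F L Ω) (P i))
    (hn : ∀ (σ : Ω ≃ₐ[L] Ω) (n : Ω → ℤ), (∀ i,
        σ (z i) = zA F L Ω ζ ^ n (rt k F L Ω α i) * z i) →
          vJ (zA F L Ω ζ) hζ (c 1 σ) = ram n) (r : F) :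
    (ℓ : ℤ) ∣ ∑ i ∈ Finset.univ.filter (fun i => (aF F α i).eval s = r),
      ((P i).rootMultiplicity s : ℤ) := by
  have hFc : IsAlgClosed F := IsAlgClosure.isAlgClosed k
  let _ : Algebra F (AlgebraicClosure ((plc s).adicCompletion L)) :=
    ((algebraMap L (AlgebraicClosure ((plc s).adicCompletion L))).comp
      ((algebraMap F[X] L).comp C)).toAlgebra
  have hFM : CompatF F L (AlgebraicClosure ((plc s).adicCompletion L)) := fun c => rfl
  have hFK : ∀ c : F, algebraMap F (AlgebraicClosure ((plc s).adicCompletion L)) c =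
      algebraMap ((plc s).adicCompletion L) (AlgebraicClosure ((plc s).adicCompletion L))
        (algebraMap F[X] ((plc s).adicCompletion L) (C c)) := by
    intro c
    rw [hFM, IsScalarTower.algebraMap_apply L ((plc s).adicCompletion L)
      (AlgebraicClosure ((plc s).adicCompletion L)),
      ← IsScalarTower.algebraMap_apply F[X] L ((plc s).adicCompletion L)]
  have htK : algebraMap ((plc s).adicCompletion L) (AlgebraicClosure ((plc s).adicCompletion L))
        (algebraMap F[X] ((plc s).adicCompletion L) X) =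
      tA F L (AlgebraicClosure ((plc s).adicCompletion L)) := by
    unfold tA
    rw [IsScalarTower.algebraMap_apply L ((plc s).adicCompletion L)
      (AlgebraicClosure ((plc s).adicCompletion L)),
      ← IsScalarTower.algebraMap_apply F[X] L ((plc s).adicCompletion L)]
  obtain ⟨v, hv, hval, hinv, -⟩ := exists_locCtx (L := L)
    (M := AlgebraicClosure ((plc s).adicCompletion L)) s hFK
  rw [htK] at hv
  simp only [htK] at hval
  obtain ⟨j⟩ : Nonempty (Ω →ₐ[L] AlgebraicClosure ((plc s).adicCompletion L)) := by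
    have : Algebra.IsAlgebraic L Ω := IsAlgClosure.isAlgebraic
    exact ⟨IsAlgClosed.lift⟩
  obtain ⟨Q₁, hQ₁⟩ := hLT s 1 (AlgebraicClosure ((plc s).adicCompletion L)) j
  exact ga4_local hF H hP hsum hz hn hFM hv hinv hval j Q₁ hQ₁ r

theorem exists_hasExp (hF : CompatF F L Ω) (H : AHyp ℓ α ζ) {c : Coch ℓ k F L Ω (arr α)}
    (hc : IsTateCocycle ℓ (curveL k F L (arr α)) c) (hLT : LTc c) :
    ∃ e : ι → F → ℤ, HasExp hζ c e := by
  have hFc : IsAlgClosed F := IsAlgClosure.isAlgClosed k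
  obtain ⟨P, z, hP, hsum, hz, hn⟩ := exists_kummer_arr hF H hζ hc
  have hnode : ∀ s r : F, (ℓ : ℤ) ∣ ∑ i ∈ Finset.univ.filter (fun i => (aF F α i).eval s = r),
      ((P i).rootMultiplicity s : ℤ) := fun s r => ga4_place hF H hLT hP (hsum s) hz hn r
  have hdvd : ∀ s : F, s ∉ SS (aF F α) → ∀ i, ℓ ∣ (P i).rootMultiplicity s := by
    intro s hs i
    have h1 := hnode s ((aF F α i).eval s)
    have h2 : Finset.univ.filter (fun j => (aF F α j).eval s = (aF F α i).eval s) = {i} := by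
      ext j
      rw [Finset.mem_filter, Finset.mem_singleton]
      constructor
      · rintro ⟨-, hj⟩
        by_contra hne
        exact hs (mem_SS_of_eq H.geomF hne hj)
      · rintro rfl
        exact ⟨Finset.mem_univ _, rfl⟩
    rw [h2, Finset.sum_singleton] at h1
    exact_mod_cast h1
  have key : ∀ i, ∃ W : F[X], W ≠ 0 ∧ P i = W ^ ℓ *
      ∏ s ∈ SS (aF F α), (X - C s) ^ (P i).rootMultiplicity s := by
    intro i
    refine ⟨∏ s ∈ (P i).roots.toFinset \ SS (aF F α),
      (X - C s) ^ ((P i).rootMultiplicity s / ℓ),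
      (monic_prod_of_monic _ _ fun s _ => (monic_X_sub_C s).pow _).ne_zero, ?_⟩
    have h1 : P i = ∏ s ∈ (P i).roots.toFinset, (X - C s) ^ (P i).rootMultiplicity s := by
      have h2 : P i = ((P i).roots.map fun a => X - C a).prod :=
        (IsAlgClosed.splits (P i)).eq_prod_roots_of_monic (hP i)
      conv_lhs => rw [h2]
      rw [Finset.prod_multiset_map_count]
      refine Finset.prod_congr rfl fun s _ => ?_
      rw [count_roots]
    have h3 : (∏ s ∈ (P i).roots.toFinset \ SS (aF F α),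
        (X - C s) ^ ((P i).rootMultiplicity s / ℓ)) ^ ℓ =
        ∏ s ∈ (P i).roots.toFinset \ SS (aF F α), (X - C s) ^ (P i).rootMultiplicity s := by
      rw [← Finset.prod_pow]
      refine Finset.prod_congr rfl fun s hs => ?_
      rw [← pow_mul, Nat.div_mul_cancel (hdvd s (Finset.mem_sdiff.mp hs).2 i)]
    have h4 : ∏ s ∈ SS (aF F α), (X - C s) ^ (P i).rootMultiplicity s =
        ∏ s ∈ (P i).roots.toFinset ∩ SS (aF F α), (X - C s) ^ (P i).rootMultiplicity s := by
      symm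
      refine Finset.prod_subset Finset.inter_subset_right fun s hs hn' => ?_
      have h5 : s ∉ (P i).roots.toFinset := fun h => hn' (Finset.mem_inter.mpr ⟨h, hs⟩)
      have h6 : (P i).rootMultiplicity s = 0 := by
        rw [← count_roots]
        rw [Multiset.mem_toFinset] at h5
        exact Multiset.count_eq_zero_of_notMem h5
      rw [h6, pow_zero]
    rw [h3, h4]
    conv_lhs => rw [h1]
    rw [mul_comm]
    exact (Finset.prod_inter_mul_prod_sdiff _ _ _).symm
  choose W hW0 hPW using key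
  have hWt : ∀ i, aeval (tA F L Ω) (W i) ≠ 0 := by
    intro i h0
    apply hW0 i
    apply tA_inj (A := Ω) hF
    rw [h0, map_zero]
  refine ⟨fun i s => ((P i).rootMultiplicity s : ℤ), fun s _ r => hnode s r,
    fun i => z i / aeval (tA F L Ω) (W i), ?_, ?_⟩
  · intro i
    rw [div_pow, hz i]
    conv_lhs => rw [hPW i]
    rw [map_mul, map_pow, mul_div_cancel_left₀ _ (pow_ne_zero _ (hWt i)), map_prod]
    unfold TP
    refine Finset.prod_congr rfl fun s _ => ?_
    rw [map_pow, map_sub, aeval_X, aeval_C, zpow_natCast]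
  · intro σ n hσ
    refine hn σ n fun i => ?_
    have h1 := hσ i
    have h2 : σ (aeval (tA F L Ω) (W i)) = aeval (tA F L Ω) (W i) := by
      rw [aeval_tA hF]
      exact σ.commutes _
    have h4 := hWt i
    rw [map_div₀, h2, div_eq_iff h4] at h1
    rw [h1]
    field_simp

end Pool.Agent.Lib.MP_89bcae_ag.Sup.Lns
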