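import Mathlib
import Pool.Agent.Lib.MP_89bcae_ag.Lns.GA06

/-!
# The relation between the points of level two
-/

open Polynomial IsDedekindDomain

open scoped Classical

namespace Pool.Agent.Lib.MP_89bcae_ag.Sup.Lns

universe u

set_option linter.unusedSectionVars false

variable {ι : Type} [Fintype ι] [LinearOrder ι]
  {k F L Ω : Type u} [Field k] [Field F] [Algebra k F] [Field L] [Algebra F[X] L]
  [Field Ω] [Algebra L Ω] [IsAlgClosure k F] [IsFractionRing F[X] L] [IsAlgClosure L Ω]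
  [Algebra F Ω] {ℓ : ℕ} {α : ι → k[X]} {ζ : k}
  [hG : IsGood ℓ (cOver k F L Ω (arr α))] {hζ : (zA F L Ω ζ) ^ ℓ = 1}

lemma level_two {c : Coch ℓ k F L Ω (arr α)} (H : AHyp ℓ α ζ)
    (hc : IsTateCocycle ℓ (curveL k F L (arr α)) c) (σ : Ω ≃ₐ[L] Ω) :
    vJ (zA F L Ω ζ) hζ (vJ (zA F L Ω ζ) hζ (c 2 σ)) -
      zJ (zA F L Ω ζ) hζ (vJ (zA F L Ω ζ) hζ (vJ (zA F L Ω ζ) hζ (c 2 σ))) =
        vJ (zA F L Ω ζ) hζ (c 1 σ) := by
  have h1 := vJ_sub_zJ (f := cOver k F L Ω (arr α)) (zA F L Ω ζ) (zA_prim H.lhyp)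
    (vJ (zA F L Ω ζ) hζ (c 2 σ))
  rw [h1, ← vJ_smul]
  congr 1
  exact hc.smul 1 σ

private lemma ga7_vv {c : Coch ℓ k F L Ω (arr α)} (H : AHyp ℓ α ζ)
    (hc : IsTateCocycle ℓ (curveL k F L (arr α)) c) (γ : AutO k F L Ω) (σ₀ τ : Ω ≃ₐ[L] Ω) :
    symJ (toSym (arr α) (γ * galA k F σ₀))
        (vJ (zA F L Ω ζ) hζ (vJ (zA F L Ω ζ) hζ (c 2 (σ₀⁻¹ * τ * σ₀)))) =
      symJ (toSym (arr α) γ) (vJ (zA F L Ω ζ) hζ (vJ (zA F L Ω ζ) hζ (c 2 τ))) +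
        symJ (toSym (arr α) (γ * galA k F τ))
          (vJ (zA F L Ω ζ) hζ (vJ (zA F L Ω ζ) hζ (c 2 σ₀))) -
        symJ (toSym (arr α) γ) (vJ (zA F L Ω ζ) hζ (vJ (zA F L Ω ζ) hζ (c 2 σ₀))) := by
  have h2 : σ₀ * (σ₀⁻¹ * τ * σ₀) = τ * σ₀ := by group
  have h3 := hc.cocycle 2 σ₀ (σ₀⁻¹ * τ * σ₀)
  rw [h2, hc.cocycle 2 τ σ₀, push_eq, push_eq] at h3
  have h4 : symJ (toSym (arr α) (galA k F σ₀)) (c 2 (σ₀⁻¹ * τ * σ₀)) =
      c 2 τ + symJ (toSym (arr α) (galA k F τ)) (c 2 σ₀) - c 2 σ₀ := by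
    rw [h3]
    abel
  have h5 : ∀ δ : AutO k F L Ω, ((toSym (arr α) δ : Sym (cOver k F L Ω (arr α))) : Ω ≃+* Ω)
      (zA F L Ω ζ) = zA F L Ω ζ := fun δ => zA_fixed ζ δ
  have h6 : symJ (toSym (arr α) (galA k F σ₀))
      (vJ (zA F L Ω ζ) hζ (vJ (zA F L Ω ζ) hζ (c 2 (σ₀⁻¹ * τ * σ₀)))) =
      vJ (zA F L Ω ζ) hζ (vJ (zA F L Ω ζ) hζ (c 2 τ)) + symJ (toSym (arr α) (galA k F τ))
        (vJ (zA F L Ω ζ) hζ (vJ (zA F L Ω ζ) hζ (c 2 σ₀))) -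
        vJ (zA F L Ω ζ) hζ (vJ (zA F L Ω ζ) hζ (c 2 σ₀)) := by
    rw [← vJ_symJ _ _ _ (h5 (galA k F σ₀)), ← vJ_symJ _ _ _ (h5 (galA k F σ₀)), h4,
      vJ_sub, vJ_add, vJ_sub, vJ_add, vJ_symJ _ _ _ (h5 (galA k F τ)),
      vJ_symJ _ _ _ (h5 (galA k F τ))]
  rw [map_mul, map_mul, symJ_mul, symJ_mul, h6, map_sub, map_add]

/-- The relation between the points of level two, for all the automorphisms with the same restriction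
to `F`. -/
theorem exists_relation (hF : CompatF F L Ω) (H : AHyp ℓ α ζ) {c y : Coch ℓ k F L Ω (arr α)}
    (hc : IsTateCocycle ℓ (curveL k F L (arr α)) c)
    (hy : IsTateCocycle ℓ (curveL k F L (arr α)) y) {e : ι → F → ℤ} (h : HasExp hζ c e)
    (γ : AutO k F L Ω) (hγ : ∀ s ∈ SS (aF F α), resF γ s = s)
    (hrel : TTc (act γ c - c - (y - Lns.zC ζ hζ y))) :
    ∃ (z : ι → Ω) (b : Ω → ℤ), (∀ i, z i ^ ℓ = TP (aF F α) (tA F L Ω) (e i)) ∧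
      (∀ (σ : Ω ≃ₐ[L] Ω) (n : Ω → ℤ), (∀ i,
        σ (z i) = zA F L Ω ζ ^ n (rt k F L Ω α i) * z i) → vJ (zA F L Ω ζ) hζ (c 1 σ) = ram n) ∧
      ∀ γ' : AutO k F L Ω, resF γ' = resF γ →
        ∃ (A : JacOver ℓ (curveL k F L (arr α)) Ω) (q : Ω → ℤ),
          (∀ i, (γ' : Ω ≃+* Ω) (z i) = zA F L Ω ζ ^ q (rt k F L Ω α i) * z i) ∧
          A - zJ (zA F L Ω ζ) hζ A = ram (fun θ => b θ - q θ) ∧
          ∀ σ : Ω ≃ₐ[L] Ω, vJ (zA F L Ω ζ) hζ (y 1 σ) =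
            symJ (toSym (arr α) γ')
              (vJ (zA F L Ω ζ) hζ (vJ (zA F L Ω ζ) hζ (c 2 (conjG γ'⁻¹ σ)))) -
              vJ (zA F L Ω ζ) hζ (vJ (zA F L Ω ζ) hζ (c 2 σ)) +
              (symJ (toSym (arr α) (galA k F σ)) A - A) := by
  have hprim : IsPrimitiveRoot (zA F L Ω ζ) ℓ := zA_prim H.lhyp
  have hz0 : zA F L Ω ζ ≠ 0 := hprim.ne_zero H.prime.ne_zero
  have hγζ : ∀ δ : AutO k F L Ω, ((toSym (arr α) δ : Sym (cOver k F L Ω (arr α))) : Ω ≃+* Ω)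
      (zA F L Ω ζ) = zA F L Ω ζ := fun δ => zA_fixed ζ δ
  obtain ⟨m, A₂, hA₂, hA₂'⟩ := hrel.exists_coboundary 2
  obtain ⟨B, hB⟩ : ∃ B : Jac ℓ (cOver k F L Ω (arr α)),
    B = vJ (zA F L Ω ζ) hζ (vJ (zA F L Ω ζ) hζ A₂) := ⟨_, rfl⟩
  -- the relation for `γ`
  have hR : ∀ σ : Ω ≃ₐ[L] Ω, vJ (zA F L Ω ζ) hζ (y 1 σ) =
        symJ (toSym (arr α) γ)
          (vJ (zA F L Ω ζ) hζ (vJ (zA F L Ω ζ) hζ (c 2 (conjG γ⁻¹ σ)))) -
          vJ (zA F L Ω ζ) hζ (vJ (zA F L Ω ζ) hζ (c 2 σ)) +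
          (symJ (toSym (arr α) (galA k F σ)) (-B) - (-B)) := by
    intro σ
    have h1 : symJ (toSym (arr α) γ) (c 2 (conjG γ⁻¹ σ)) - c 2 σ -
        (y 2 σ - zJ (zA F L Ω ζ) hζ (y 2 σ)) = symJ (toSym (arr α) (galA k F σ)) A₂ - A₂ := by
      have h2 := hA₂' σ
      rw [push_eq] at h2
      exact h2
    have h2 := congrArg (fun Q => vJ (zA F L Ω ζ) hζ (vJ (zA F L Ω ζ) hζ Q)) h1
    simp only [vJ_sub, vJ_zJ, vJ_symJ _ _ _ (hγζ γ), vJ_symJ _ _ _ (hγζ (galA k F σ))] at h2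
    rw [level_two H hy σ, ← hB] at h2
    rw [map_neg, ← sub_eq_zero]
    rw [← sub_eq_zero] at h2
    rw [← neg_eq_zero, ← h2]
    abel
  obtain ⟨z, hz, hz2⟩ := h.ex
  obtain ⟨q₀, hq₀⟩ := exists_n H (fun i => z_ne hF H.prime (hz i)) γ (fun i => by
    rw [hz i]
    exact TP_aut hF γ hγ _)
  -- the class of `(1 - Z) (-B)`
  have hfix : ∀ σ : Ω ≃ₐ[L] Ω, symJ (toSym (arr α) (galA k F σ))
      (-B - zJ (zA F L Ω ζ) hζ (-B)) = -B - zJ (zA F L Ω ζ) hζ (-B) := by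
    intro σ
    obtain ⟨n, hn⟩ := exists_n_gal hF H hz σ
    have h1 := hz2 σ n hn
    have h2 := hz2 _ n (conj_z hF H γ hγ hz hn)
    have h3 := congrArg (fun Q => Q - zJ (zA F L Ω ζ) hζ Q) (hR σ)
    simp only [map_add, map_sub] at h3
    have h4 : vJ (zA F L Ω ζ) hζ (y 1 σ) - zJ (zA F L Ω ζ) hζ (vJ (zA F L Ω ζ) hζ (y 1 σ)) = 0 := by
      have h5 := vJ_sub_zJ (f := cOver k F L Ω (arr α)) (zA F L Ω ζ) hprim (y 1 σ)
      rw [h5]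
      exact (hy.smul 0 σ).trans (hy.zero σ)
    rw [h4] at h3
    have h5 := level_two (hζ := hζ) H hc σ
    have h6 := level_two (hζ := hζ) H hc (conjG γ⁻¹ σ)
    have h7 := congrArg (symJ (toSym (arr α) γ)) h6
    rw [map_sub, ← zJ_symJ _ _ _ (hγζ γ), h2, symJ_ram_arr] at h7
    rw [h1] at h5
    rw [map_sub, ← zJ_symJ _ _ _ (hγζ (galA k F σ)), ← sub_eq_zero]
    have h8 : ∀ {A : Type u} [AddCommGroup A] (a b c d p q' m v R : A),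
        0 = a - b + (p - q') - (c - d + (m - v)) → a - c = R → b - d = R →
          p - m - (q' - v) = 0 := by
      intro A _ a b c d p q' m v R h1 h2 h3
      have h4 : p - m - (q' - v) = (a - b + (p - q') - (c - d + (m - v))) - (a - c) + (b - d) := by
        abel
      rw [h4, ← h1, h2, h3]
      abel
    exact h8 _ _ _ _ _ _ _ _ _ h3 h7 h5
  have htors : ℓ ^ (2 + m) • (-B - zJ (zA F L Ω ζ) hζ (-B)) = 0 := by
    have h1 : ℓ ^ (2 + m) • (-B) = 0 := by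
      rw [smul_neg, hB, ← vJ_smul, ← vJ_smul, hA₂, neg_eq_zero]
      have h1 : vJ (zA F L Ω ζ) hζ (0 : Jac ℓ (cOver k F L Ω (arr α))) = 0 := by
        have h2 := vJ_smul (f := cOver k F L Ω (arr α)) (zA F L Ω ζ) hζ 0 0
        rwa [zero_smul, zero_smul] at h2
      rw [h1, h1]
    rw [smul_sub, ← map_nsmul, h1, map_zero, sub_zero]
  obtain ⟨b₀, hb₀⟩ := torsRam hF H _ _ htors hfix
  refine ⟨z, fun θ => b₀ θ + q₀ θ, hz, hz2, fun γ' hγ' => ?_⟩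
  obtain ⟨σ₀, hσ₀⟩ := exists_galA_of_resF_eq_one (γ⁻¹ * γ') (by
    rw [map_mul, map_inv, hγ']
    group)
  have hγ'eq : γ' = γ * galA k F σ₀ := by
    rw [hσ₀]
    group
  obtain ⟨n₀, hn₀⟩ := exists_n_gal hF H hz σ₀
  refine ⟨-B - symJ (toSym (arr α) γ) (vJ (zA F L Ω ζ) hζ (vJ (zA F L Ω ζ) hζ (c 2 σ₀))),
    fun θ => q₀ θ + n₀ θ, fun i => ?_, ?_, fun σ => ?_⟩
  · rw [hγ'eq]
    change (γ : Ω ≃+* Ω) (σ₀ (z i)) = _
    rw [hn₀ i, map_mul, map_zpow₀, hq₀ i, zA_fixed ζ γ, ← mul_assoc, ← zpow_add₀ hz0]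
    congr 2
    ring
  · have h1 := level_two (hζ := hζ) H hc σ₀
    rw [hz2 σ₀ n₀ hn₀] at h1
    have h2 := congrArg (symJ (toSym (arr α) γ)) h1
    rw [map_sub, ← zJ_symJ _ _ _ (hγζ γ), symJ_ram_arr] at h2
    have h3 : (ram (fun θ => b₀ θ + q₀ θ - (q₀ θ + n₀ θ)) :
        JacOver ℓ (curveL k F L (arr α)) Ω) = ram b₀ - ram n₀ := by
      rw [← ram_sub]
      congr 1
      funext θ
      ring
    rw [h3, ← hb₀, ← h2, map_sub]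
    abel
  · have h1 : conjG γ'⁻¹ σ = σ₀⁻¹ * conjG γ⁻¹ σ * σ₀ := by
      have h2 : (γ'⁻¹ : AutO k F L Ω) = galA k F σ₀⁻¹ * γ⁻¹ := by
        rw [hγ'eq, mul_inv_rev, map_inv]
      rw [h2, map_mul, MulAut.mul_apply, conjG_galA, inv_inv]
    have h3 : γ * galA k F (conjG γ⁻¹ σ) = galA k F σ * γ := by
      rw [galA_conjG]
      group
    rw [h1]
    conv_rhs => rw [hγ'eq]
    rw [ga7_vv H hc, h3, hR σ, map_mul, symJ_mul, map_sub]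
    abel

end Pool.Agent.Lib.MP_89bcae_ag.Sup.Lns
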