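import Mathlib
import Pool.Agent.Lib.MP_89bcae_ag.Lns.AL01
import Pool.Agent.Lib.MP_89bcae_ag.Lns.AL02
import Pool.Agent.Lib.MP_89bcae_ag.Lns.GA05
import Pool.Agent.Lib.MP_89bcae_ag.Lns.GA08

/-!
# The invariant Selmer classes are torsion
-/

open Polynomial IsDedekindDomain

open scoped Classical

namespace Pool.Agent.Lib.MP_89bcae_ag.Sup.Lns

universe u

set_option linter.unusedSectionVars false

/-- The arithmetic condition. -/
def ArrIndep {ι : Type} [Fintype ι] [LinearOrder ι] (ℓ : ℕ) (k F : Type u) [Field k] [Field F]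
    [Algebra k F] (α : ι → k[X]) : Prop :=
  ∀ (e : ι → F → ℤ) (κ : F) (c : ι → F), κ ≠ 0 →
    κ ∈ IntermediateField.adjoin k (SS (aF F α) : Set F) →
    (∀ i, c i ≠ 0 ∧ c i ∈ IntermediateField.adjoin k (SS (aF F α) : Set F)) →
    (∀ s ∈ SS (aF F α), ∀ r,
      (ℓ : ℤ) ∣ ∑ i ∈ Finset.univ.filter (fun i => (aF F α i).eval s = r), e i s) →
    (∀ i j s, i ≠ j → (aF F α i).eval s = (aF F α j).eval s →
      ∃ w ∈ IntermediateField.adjoin k (SS (aF F α) : Set F),
        w ^ ℓ = κ ^ e i s * (c i / c j) * nodeX (aF F α) e i j s) →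
    ∃ b : ι → ℤ, ∀ i j s, i ≠ j → (aF F α i).eval s = (aF F α j).eval s →
      (ℓ : ℤ) ∣ e i s - (b j - b i)

variable {ι : Type} [Fintype ι] [LinearOrder ι]
  {k F L Ω : Type u} [Field k] [Field F] [Algebra k F] [Field L] [Algebra F[X] L]
  [Field Ω] [Algebra L Ω] [IsAlgClosure k F] [IsFractionRing F[X] L] [IsAlgClosure L Ω]
  [Algebra F Ω] {ℓ : ℕ} {α : ι → k[X]} {ζ : k}
  [hG : IsGood ℓ (cOver k F L Ω (arr α))]

/-- The automorphisms whose restriction fixes the roots of the differences. -/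
private def g19G : Subgroup (AutO k F L Ω) where
  carrier := {γ | ∀ s ∈ SS (aF F α), resF γ s = s}
  mul_mem' {γ γ'} h h' β hβ := by
    rw [map_mul, AlgEquiv.mul_apply, h' β hβ, h β hβ]
  one_mem' β _ := by
    rw [map_one, AlgEquiv.one_apply]
  inv_mem' {γ} h β hβ := by
    rw [map_inv]
    have h1 := h β hβ
    calc (resF γ)⁻¹ β = (resF γ)⁻¹ (resF γ β) := by rw [h1]
      _ = ((resF γ)⁻¹ * resF γ) β := rfl
      _ = β := by rw [inv_mul_cancel, AlgEquiv.one_apply]

/-- The action on the cochains. -/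
@[instance_reducible]
private noncomputable def g19A : DistribMulAction (g19G (L := L) (Ω := Ω) (F := F) (α := α))
    (Coch ℓ k F L Ω (arr α)) where
  smul γ c := act (γ : AutO k F L Ω) c
  one_smul c := act_one c
  mul_smul _ _ c := act_mul _ _ c
  smul_zero _ := act_zero _
  smul_add _ c c' := act_add _ c c'

/-- The exponents of the ramification points modulo `ℓ`, as a linear map. -/
private noncomputable def cutL (F : Type u) [Field F] [Algebra k F] (ℓ : ℕ) (α : ι → k[X]) :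
    (ι → ZMod ℓ) →ₗ[ZMod ℓ] (ι → {s // s ∈ SS (aF F α)} → ZMod ℓ) where
  toFun b i s := ∑ j ∈ Finset.univ.filter
    (fun j => (aF F α j).eval (s : F) = (aF F α i).eval (s : F)), (b j - b i)
  map_add' b b' := by
    funext i s
    change ∑ j ∈ Finset.univ.filter
      (fun j => (aF F α j).eval (s : F) = (aF F α i).eval (s : F)),
        ((b j + b' j) - (b i + b' i)) = ∑ j ∈ Finset.univ.filter
      (fun j => (aF F α j).eval (s : F) = (aF F α i).eval (s : F)), (b j - b i) +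
        ∑ j ∈ Finset.univ.filter
      (fun j => (aF F α j).eval (s : F) = (aF F α i).eval (s : F)), (b' j - b' i)
    rw [← Finset.sum_add_distrib]
    refine Finset.sum_congr rfl fun j _ => ?_
    ring
  map_smul' r b := by
    funext i s
    change ∑ j ∈ Finset.univ.filter
      (fun j => (aF F α j).eval (s : F) = (aF F α i).eval (s : F)),
        (r * b j - r * b i) = r * ∑ j ∈ Finset.univ.filter
      (fun j => (aF F α j).eval (s : F) = (aF F α i).eval (s : F)), (b j - b i)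
    rw [Finset.mul_sum]
    refine Finset.sum_congr rfl fun j _ => ?_
    ring

omit [LinearOrder ι] in
private lemma cutL_cast [LinearOrder ι] (b : ι → ℤ) (i : ι) (s : {s // s ∈ SS (aF F α)}) :
    cutL F ℓ α (fun i => (b i : ZMod ℓ)) i s = ((cutE (aF F α) b i s : ℤ) : ZMod ℓ) := by
  unfold cutE
  change ∑ j ∈ Finset.univ.filter
    (fun j => (aF F α j).eval (s : F) = (aF F α i).eval (s : F)), ((b j : ZMod ℓ) - b i) = _
  push_cast
  rfl

/-- The class of the exponents. -/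
private noncomputable def mkE (F : Type u) [Field F] [Algebra k F] (ℓ : ℕ) (α : ι → k[X])
    (e : ι → F → ℤ) :
    (ι → {s // s ∈ SS (aF F α)} → ZMod ℓ) ⧸ LinearMap.range (cutL F ℓ α) :=
  Submodule.Quotient.mk fun i s => (e i s : ZMod ℓ)

private lemma mkE_eq_zero {e : ι → F → ℤ} (hℓ : ℓ ≠ 0) (h : mkE F ℓ α e = 0) :
    ∃ b : ι → ℤ, ∀ s ∈ SS (aF F α), ∀ i, (ℓ : ℤ) ∣ e i s - cutE (aF F α) b i s := by
  have : NeZero ℓ := ⟨hℓ⟩
  unfold mkE at h
  rw [Submodule.Quotient.mk_eq_zero, LinearMap.mem_range] at h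
  obtain ⟨b, hb⟩ := h
  refine ⟨fun i => ((b i).val : ℤ), fun s hs i => ?_⟩
  have h1 := congrFun (congrFun hb i) ⟨s, hs⟩
  have h2 : b = fun i => ((((b i).val : ℤ)) : ZMod ℓ) := by
    funext i
    push_cast
    rw [ZMod.natCast_zmod_val]
  rw [h2, cutL_cast] at h1
  rw [← ZMod.intCast_zmod_eq_zero_iff_dvd]
  push_cast at h1 ⊢
  rw [← h1, sub_self]

private lemma mkE_of_dvd {e : ι → F → ℤ} (b : ι → ℤ)
    (h : ∀ s ∈ SS (aF F α), ∀ i, (ℓ : ℤ) ∣ e i s - cutE (aF F α) b i s) : mkE F ℓ α e = 0 := by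
  unfold mkE
  rw [Submodule.Quotient.mk_eq_zero, LinearMap.mem_range]
  refine ⟨fun i => (b i : ZMod ℓ), ?_⟩
  funext i s
  rw [cutL_cast]
  have h1 := h s s.2 i
  rw [← ZMod.intCast_zmod_eq_zero_iff_dvd] at h1
  push_cast at h1
  exact (sub_eq_zero.1 h1).symm

private lemma mkE_add (e e' : ι → F → ℤ) :
    mkE F ℓ α (fun i s => e i s + e' i s) = mkE F ℓ α e + mkE F ℓ α e' := by
  unfold mkE
  rw [← Submodule.Quotient.mk_add]
  congr 1
  funext i s
  push_cast
  rfl

private lemma mkE_neg (e : ι → F → ℤ) : mkE F ℓ α (fun i s => -e i s) = -mkE F ℓ α e := by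
  unfold mkE
  rw [← Submodule.Quotient.mk_neg]
  congr 1
  funext i s
  push_cast
  rfl

private lemma mkE_smul (hℓ : ℓ ≠ 0) (a : ZMod ℓ) (e : ι → F → ℤ) :
    mkE F ℓ α (fun i s => (a.val : ℤ) * e i s) = a • mkE F ℓ α e := by
  have : NeZero ℓ := ⟨hℓ⟩
  unfold mkE
  rw [← Submodule.Quotient.mk_smul]
  congr 1
  funext i s
  push_cast
  rw [ZMod.natCast_zmod_val]
  rfl

/-- For a root `s` of the differences, the sum of the exponents over each class is divisible by
`ℓ`: comparison with the exponents of the ramification points. -/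
private lemma cut_of_nodes (hg : AGeom (aF F α)) {e : ι → F → ℤ}
    (hnode : ∀ s ∈ SS (aF F α), ∀ r,
      (ℓ : ℤ) ∣ ∑ i ∈ Finset.univ.filter (fun i => (aF F α i).eval s = r), e i s) {b : ι → ℤ}
    (hb : ∀ i j s, i ≠ j → (aF F α i).eval s = (aF F α j).eval s →
      (ℓ : ℤ) ∣ e i s - (b j - b i)) :
    ∀ s ∈ SS (aF F α), ∀ i, (ℓ : ℤ) ∣ e i s - cutE (aF F α) b i s := by
  intro s hs i
  by_cases h : ∃ j, i ≠ j ∧ (aF F α i).eval s = (aF F α j).eval s
  · obtain ⟨j, hij, hj⟩ := h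
    rw [cutE_node hg b hij hj]
    exact hb i j s hij hj
  · push Not at h
    rw [cutE_other b (fun j hj => (h j hj.symm).symm), sub_zero]
    have h1 := hnode s hs ((aF F α i).eval s)
    have h2 : Finset.univ.filter (fun j => (aF F α j).eval s = (aF F α i).eval s) = {i} := by
      ext j
      rw [Finset.mem_filter, Finset.mem_singleton]
      constructor
      · rintro ⟨-, hj⟩
        by_contra hne
        exact h j (Ne.symm hne) hj.symm
      · rintro rfl
        exact ⟨Finset.mem_univ _, rfl⟩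
    rw [h2, Finset.sum_singleton] at h1
    exact h1

private lemma nodeX_mem (α : ι → k[X]) (e : ι → F → ℤ) {i j : ι} {s : F}
    (hs : s ∈ SS (aF F α)) :
    nodeX (aF F α) e i j s ∈ IntermediateField.adjoin k (SS (aF F α) : Set F) := by
  set K := IntermediateField.adjoin k (SS (aF F α) : Set F) with hK
  have hSK : ∀ s ∈ SS (aF F α), s ∈ K := fun s hs =>
    IntermediateField.subset_adjoin k _ hs
  have heval : ∀ p : k[X], (p.map (algebraMap k F)).eval s ∈ K := by
    intro p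
    rw [eval_map_algebraMap]
    have h1 := aeval_algHom_apply K.val ⟨s, hSK s hs⟩ p
    change aeval s p = _ at h1
    rw [h1]
    exact (aeval (⟨s, hSK s hs⟩ : K) p).2
  have heval' : ∀ i, (aF F α i).eval s ∈ K := fun i => heval (α i)
  unfold nodeX
  refine K.mul_mem (K.mul_mem (zpow_mem ?_ _) (prod_mem fun l _ => zpow_mem
    (K.sub_mem (heval' _) (heval' _)) _)) (prod_mem fun s' hs' => zpow_mem
    (K.sub_mem (hSK s hs) (hSK s' (Finset.mem_of_mem_erase hs'))) _)
  have h1 : derivative (aF F α i - aF F α j) =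
      (derivative (α i - α j)).map (algebraMap k F) := by
    unfold aF
    rw [← Polynomial.map_sub, derivative_map]
  rw [h1]
  exact heval _

private lemma nodeX_ne (hg : AGeom (aF F α)) (e : ι → F → ℤ) {i j : ι} (hij : i ≠ j) {s : F}
    (hs : (aF F α i).eval s = (aF F α j).eval s) : nodeX (aF F α) e i j s ≠ 0 := by
  unfold nodeX
  refine mul_ne_zero (mul_ne_zero (zpow_ne_zero _ (hg.simple hij hs))
    (Finset.prod_ne_zero_iff.2 fun l hl => zpow_ne_zero _ ?_))
    (Finset.prod_ne_zero_iff.2 fun s' hs' => zpow_ne_zero _ ?_)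
  · rw [Finset.mem_erase, Finset.mem_erase] at hl
    rw [sub_ne_zero]
    exact (hg.third hij hl.2.1 hl.1 hs).symm
  · rw [sub_ne_zero]
    exact (Finset.ne_of_mem_erase hs').symm

theorem TTc.of_WWc (hF : CompatF F L Ω) (H : AHyp ℓ α ζ) (hI : ArrIndep ℓ k F α)
    {c : Coch ℓ k F L Ω (arr α)} (hc : WWc c) : TTc c := by
  by_contra hcT
  have hg : AGeom (aF F α) := H.geomF
  have hζ0 : IsPrimitiveRoot (zA F L Ω ζ) ℓ := zA_prim H.lhyp
  have hζ : (zA F L Ω ζ) ^ ℓ = 1 := hζ0.pow_eq_one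
  have : Fact ℓ.Prime := ⟨H.prime⟩
  have hℓ0 := H.prime.ne_zero
  let W : AddSubgroup (Coch ℓ k F L Ω (arr α)) :=
    { carrier := {c | WWc c}
      zero_mem' := TTc.zero.ww
      add_mem' := fun h h' => WWc.add h h'
      neg_mem' := fun h => WWc.neg h }
  let T : AddSubgroup (Coch ℓ k F L Ω (arr α)) :=
    { carrier := {c | TTc c}
      zero_mem' := TTc.zero
      add_mem' := fun h h' => TTc.add h h'
      neg_mem' := fun h => TTc.neg h }
  have hW : ∀ c, c ∈ W ↔ WWc c := fun c => Iff.rfl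
  have hT : ∀ c, c ∈ T ↔ TTc c := fun c => Iff.rfl
  obtain ⟨c, hc, ε, ⟨e, he, heε⟩, hε, a, ha⟩ :=
    @exists_eigen_sub ℓ _ (Coch ℓ k F L Ω (arr α))
    (g19G (L := L) (Ω := Ω) (F := F) (α := α))
    ((ι → {s // s ∈ SS (aF F α)} → ZMod ℓ) ⧸ LinearMap.range (cutL F ℓ α)) _ _ g19A _ _ _
    W T (Lns.zC ζ hζ)
    (fun c hc => hc.ww) (fun c hc => WWc.zC H.lhyp hc hζ) (fun c hc => TTc.zC hc ζ hζ)
    (by
      intro u c hc
      exact WWc.act (γ := (u : AutO k F L Ω)) hc)
    (by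
      intro u c hc
      exact TTc.act (γ := (u : AutO k F L Ω)) hc)
    (fun c hc => by
      rw [sum_zC_mem ζ hζ0 c]
      exact TTc.zero)
    (by
      intro u c hc
      change TTc (Lns.zC ζ hζ (Lns.act (u : AutO k F L Ω) c) -
        Lns.act (u : AutO k F L Ω) (Lns.zC ζ hζ c))
      rw [act_zC, sub_self]
      exact TTc.zero)
    (fun c hc hcT => TTc.of_sub_zC H.lhyp hζ hc.1 hcT)
    (fun c hc h => TTc.of_separated H.lhyp (torsRam hF H) hζ hc.1 (fun n => by
      obtain ⟨y, hy, hyT⟩ := h n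
      exact ⟨y, hy.1, hyT⟩))
    (fun c ε => ∃ e : ι → F → ℤ, HasExp hζ c e ∧ ε = mkE F ℓ α e)
    (fun c hc => by
      obtain ⟨e, he⟩ := exists_hasExp (hζ := hζ) hF H hc.1 hc.2.1
      exact ⟨_, e, he, rfl⟩)
    (by
      rintro c hc c' hc' ε ε' ⟨e, he, rfl⟩ ⟨e', he', rfl⟩
      exact ⟨_, he.add hF H he', (mkE_add e e').symm⟩)
    (by
      rintro c hc ε ⟨e, he, rfl⟩
      exact ⟨_, he.neg hF H, (mkE_neg e).symm⟩)
    (by
      rintro c hc ε ⟨e, he, rfl⟩
      obtain ⟨b, hb⟩ := he.cut_of_TTc hF H hc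
      exact mkE_of_dvd b hb)
    (by
      rintro c hc ε ⟨e, he, rfl⟩
      exact ⟨e, he.zC, rfl⟩)
    (by
      rintro c hc ⟨e, he, h⟩
      obtain ⟨b, hb⟩ := mkE_eq_zero hℓ0 h.symm
      exact exists_division hF H hc he b hb)
    (by
      rintro u c hc ε ⟨e, he, rfl⟩
      exact ⟨e, he.act hF H _ u.2, rfl⟩)
    (by
      intro u c hc
      obtain ⟨M, hM, h⟩ := hc.2.2 (u : AutO k F L Ω)
      exact ⟨M, hM, h⟩)
    (fun h => hcT (h hc))
  set K := IntermediateField.adjoin k (SS (aF F α) : Set F) with hK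
  have hSK : ∀ s ∈ SS (aF F α), s ∈ K := fun s hs =>
    IntermediateField.subset_adjoin k _ hs
  -- the Kummer classes at the roots of the differences
  have hfin : Finite {q : ι × ι × {s // s ∈ SS (aF F α)} // q.1 ≠ q.2.1 ∧
      (aF F α q.1).eval (q.2.2 : F) = (aF F α q.2.1).eval (q.2.2 : F)} := inferInstance
  obtain ⟨κ, hκ, hκw⟩ := exists_kappa (k := k) (F := F) H.prime H.ne H.zeta K
    (T := {q : ι × ι × {s // s ∈ SS (aF F α)} // q.1 ≠ q.2.1 ∧
      (aF F α q.1).eval (q.2.2 : F) = (aF F α q.2.1).eval (q.2.2 : F)}) (R := Option ι)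
    (fun q => nodeX (aF F α) e q.1.1 q.1.2.1 q.1.2.2)
    (fun q => nodeX_ne hg e q.2.1 q.2.2)
    (fun q => nodeX_mem α e q.1.2.2.2)
    (fun r q => r.elim (e q.1.1 q.1.2.2) fun l =>
      (if l = q.1.2.1 then 1 else 0) - (if l = q.1.1 then 1 else 0))
    (by
      intro U hU
      obtain ⟨γ, rfl⟩ := resF_surjective (L := L) (Ω := Ω) U
      have hγ : ∀ s ∈ SS (aF F α), resF γ s = s := fun s hs => hU s (hSK s hs)
      -- the element `y`
      have h1 : HasExp hζ (Lns.act γ c - c) (fun i s => e i s + -e i s) := by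
        rw [sub_eq_add_neg]
        exact (he.act hF H γ hγ).add hF H (he.neg hF H)
      obtain ⟨y, hy, hyT⟩ := exists_division hF H ((WWc.act hc γ).sub hc) h1 0
        (fun s _ i => by
          have h2 : cutE (aF F α) 0 i s = 0 := by
            unfold cutE
            exact Finset.sum_eq_zero fun j _ => sub_self _
          rw [add_neg_cancel, h2, sub_zero]
          exact dvd_zero _)
      obtain ⟨e', he'⟩ := exists_hasExp (hζ := hζ) hF H hy.1 hy.2.1
      have h2 := ha ⟨γ, hγ⟩ y hy (mkE F ℓ α e') hyT ⟨e', he', rfl⟩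
      rw [heε, ← mkE_smul hℓ0] at h2
      have h3 : mkE F ℓ α (fun i s => e' i s + -(((a ⟨γ, hγ⟩).val : ℤ) * e i s)) = 0 := by
        rw [mkE_add, mkE_neg, h2]
        exact add_neg_cancel _
      obtain ⟨b₁, hb₁⟩ := mkE_eq_zero hℓ0 h3
      obtain ⟨b₂, hb₂⟩ := exists_formula hF H hc.1 hc.2.1 hy.1 he he' γ hγ hyT
      refine ⟨fun r => r.elim ((a ⟨γ, hγ⟩).val : ℤ) fun l => b₁ l - b₂ l, ?_⟩
      rintro ⟨⟨i, j, s⟩, hij, hs⟩ x hx
      rw [hb₂ i j hij s hs x hx]
      congr 1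
      rw [zpow_eq_iff hℓ0 (H.zeta.map_of_injective (algebraMap k F).injective),
        Fintype.sum_option]
      have h4 := hb₁ s s.2 i
      rw [cutE_node hg b₁ hij hs] at h4
      have h5 : ∑ l, (b₁ l - b₂ l) * ((if l = j then 1 else 0) - (if l = i then 1 else 0)) =
          (b₁ j - b₂ j) - (b₁ i - b₂ i) := by
        simp only [mul_sub, mul_ite, mul_one, mul_zero, Finset.sum_sub_distrib,
          Finset.sum_ite_eq', Finset.mem_univ, if_true]
      change (ℓ : ℤ) ∣ e' i s - (b₂ j - b₂ i) - (((a ⟨γ, hγ⟩).val : ℤ) * e i s +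
        ∑ l, (b₁ l - b₂ l) * ((if l = j then 1 else 0) - (if l = i then 1 else 0)))
      rw [h5]
      have h6 : e' i s - (b₂ j - b₂ i) - (((a ⟨γ, hγ⟩).val : ℤ) * e i s +
          (b₁ j - b₂ j - (b₁ i - b₂ i))) =
          e' i s + -(((a ⟨γ, hγ⟩).val : ℤ) * e i s) - (b₁ j - b₁ i) := by ring
      rw [h6]
      exact h4)
  obtain ⟨b, hb⟩ := hI e (κ none)⁻¹ (fun i => κ (some i)) (inv_ne_zero (hκ none).2)
    (K.inv_mem (hκ none).1) (fun i => ⟨(hκ (some i)).2, (hκ (some i)).1⟩) he.node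
    (by
      intro i j s hij hs
      obtain ⟨w, hw, hwe⟩ := hκw ⟨⟨i, j, ⟨s, mem_SS_of_eq hg hij hs⟩⟩, hij, hs⟩
      refine ⟨w, hw, ?_⟩
      rw [hwe, Fintype.prod_option, mul_inv]
      have h1 : ∏ l, κ (some l) ^ (((if l = j then 1 else 0) - (if l = i then 1 else 0) : ℤ)) =
          κ (some j) / κ (some i) := by
        have h2 : ∀ l, κ (some l) ^ (((if l = j then 1 else 0) - (if l = i then 1 else 0) : ℤ)) =
            (if l = j then κ (some l) else 1) / (if l = i then κ (some l) else 1) := by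
          intro l
          rw [zpow_sub₀ (hκ (some l)).2]
          split_ifs <;> simp
        rw [Finset.prod_congr rfl fun l _ => h2 l, Finset.prod_div_distrib,
          Finset.prod_ite_eq' , Finset.prod_ite_eq', if_pos (Finset.mem_univ _),
          if_pos (Finset.mem_univ _)]
      change nodeX (aF F α) e i j s * ((κ none ^ e i s)⁻¹ *
        (∏ l, κ (some l) ^ (((if l = j then 1 else 0) - (if l = i then 1 else 0) : ℤ)))⁻¹) = _
      rw [h1, inv_div, inv_zpow]
      ring)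
  apply hε
  rw [heε]
  exact mkE_of_dvd b (cut_of_nodes hg he.node hb)

end Pool.Agent.Lib.MP_89bcae_ag.Sup.Lns
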